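import Pool.Agent.MP10a207.Geometry
import Pool.Agent.TM2Lib.Bits
import Pool.Agent.TM2Lib.Poly

/-!
# Approximation of `r`-independent sets: definitions

Polynomial time is Mathlib's `Turing.TM2ComputableInPolyTime`.
-/

namespace Pool.Agent.MP10a207

open Pool.Agent.TM2Lib

/-- Finite graphs with vertex set `{0, …, n-1}`. -/
abbrev Graph : Type := Σ n : ℕ, SimpleGraph (Fin n)

open Classical in
/-- The adjacency matrix of a graph, as the list of its rows. -/
noncomputable def adjRows (G : Graph) : List (List Bool) :=
  List.ofFn fun i => List.ofFn fun j => decide (G.2.Adj i j)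

/-- A graph is coded by its adjacency matrix. -/
noncomputable instance instEncGraph : Enc Graph := ⟨fun G => Enc.enc (adjRows G)⟩

/-- The bit string coding an object. -/
def code {α : Type} [Enc α] (a : α) : List Bool := D.encD (Enc.enc a)

/-- `(a, b, p, q)` stands for the point of the edge `ab` at distance `p/q` from `a`. -/
abbrev Item : Type := ℕ × ℕ × ℕ × ℕ

/-- The item `w` describes the point `x`. -/
def Describes {n : ℕ} (w : Item) (x : Pt (Fin n)) : Prop :=
  w.1 = (x.a : ℕ) ∧ w.2.1 = (x.b : ℕ) ∧ 0 < w.2.2.2 ∧ x.t = (w.2.2.1 : ℝ) / (w.2.2.2 : ℝ)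

/-- There is a polynomial-time algorithm `f` that, given a finite graph `G`, returns a list of
(descriptions of) distinct points of the continuous graph of `G` forming an `r`-independent set
`P`, with `|P| ≥ c |J|` for every `r`-independent set `J`. -/
def RISApprox (r : ℚ) (c : ℝ) : Prop :=
  ∃ f : Graph → List Item,
    Nonempty (Turing.TM2ComputableInPolyTime (code : Graph → List Bool)
      (code : List Item → List Bool) f) ∧
    ∀ G : Graph,
      (∃ P : List (Pt (Fin G.1)), List.Forall₂ Describes (f G) P ∧ P.Nodup ∧
        (∀ p ∈ P, IsPt G.2 p) ∧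
        ∀ p ∈ P, ∀ q ∈ P, p ≠ q → ENNReal.ofReal (2 * (r : ℝ)) ≤ ptDist G.2 p q) ∧
      ∀ J : Finset (Pt (Fin G.1)), RIndep G.2 (r : ℝ) J → c * (J.card : ℝ) ≤ ((f G).length : ℝ)

/-- There is a polynomial-time algorithm `g` that, given a finite graph `G`, returns a list of
distinct vertices forming an independent set, of length at least `c` times the independence
number of `G`. -/
def MISApprox (c : ℝ) : Prop :=
  ∃ g : Graph → List ℕ,
    Nonempty (Turing.TM2ComputableInPolyTime (code : Graph → List Bool)
      (code : List ℕ → List Bool) g) ∧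
    ∀ G : Graph,
      (∃ P : List (Fin G.1), g G = P.map Fin.val ∧ P.Nodup ∧
        G.2.IsIndepSet {v | v ∈ P}) ∧
      c * (G.2.indepNum : ℝ) ≤ ((g G).length : ℝ)

/-- A Boolean answer is written as one bit. -/
def bitCode (b : Bool) : List Bool := [b]

/-- A pair of strings as one string. -/
def pairCode (p : List Bool × List Bool) : List Bool :=
  D.encD (D.cons (D.ofBits p.1) (D.ofBits p.2))

/-- The languages in P. -/
def InP (L : Set (List Bool)) : Prop :=
  ∃ f : List Bool → Bool,
    Nonempty (Turing.TM2ComputableInPolyTime (id : List Bool → List Bool) bitCode f) ∧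
    ∀ x, x ∈ L ↔ f x = true

/-- The languages in NP. -/
def InNP (L : Set (List Bool)) : Prop :=
  ∃ (V : List Bool × List Bool → Bool) (p : Polynomial ℕ),
    Nonempty (Turing.TM2ComputableInPolyTime pairCode bitCode V) ∧
    ∀ x, x ∈ L ↔ ∃ y : List Bool, y.length ≤ p.eval x.length ∧ V (x, y) = true

/-- `P = NP`. -/
def PEqNP : Prop := ∀ L : Set (List Bool), InNP L → InP L

end Pool.Agent.MP10a207
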