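import Pool.Agent.TM2Lib.Arith

/-!
# Block expansion of adjacency matrices in polynomial time
-/

namespace Pool.Agent.TM2Lib.MPA

/-- zip with a row padded by `false` -/
def zp : List Bool → List Bool → List (Bool × Bool)
  | _, [] => []
  | e, b :: r => (e.headD false, b) :: zp e.tail r

theorem zp_nil_ofFn {n : ℕ} (f : Fin n → Bool) :
    zp [] (List.ofFn f) = List.ofFn fun w => (false, f w) := by
  induction n with
  | zero => simp [zp]
  | succ n ih =>
    rw [List.ofFn_succ, List.ofFn_succ, zp, List.tail_nil, ih]
    rfl

theorem zp_ofFn {n : ℕ} : ∀ (v : ℕ) (f : Fin n → Bool),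
    zp (List.replicate v false ++ [true]) (List.ofFn f) =
      List.ofFn fun w : Fin n => (decide (v = w.1), f w) := by
  induction n with
  | zero => intro v f; simp [zp]
  | succ n ih =>
    intro v f
    rw [List.ofFn_succ, List.ofFn_succ, zp]
    rcases v with _ | v
    · simp only [List.replicate_zero, List.nil_append, List.tail_cons]
      rw [zp_nil_ofFn]
      simp
    · simp only [List.replicate_succ, List.cons_append, List.tail_cons]
      rw [ih v]
      simp

theorem poly_zp {α : Type} [Enc α] {f g : α → List Bool} (hf : Poly f) (hg : Poly g) :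
    Poly (fun a => zp (f a) (g a)) := by
  have h1 := Poly.foldl (f := g) (g := fun a => (f a, ([] : List (Bool × Bool))))
    (h := fun p : α × ((List Bool × List (Bool × Bool)) × Bool) =>
      (p.2.1.1.tail, (p.2.1.1.headD false, p.2.2) :: p.2.1.2)) hg (hf.pair (Poly.const []))
    ((Poly.tail Poly.id.snd'.fst'.fst').pair
      (((Poly.headD Poly.id.snd'.fst'.fst' (Poly.const false)).pair Poly.id.snd'.snd').cons
        Poly.id.snd'.fst'.snd'))
  obtain ⟨F, hF⟩ := hf.size
  obtain ⟨G, hG⟩ := hg.size
  have key : ∀ (l : List Bool) (e : List Bool) (acc : List (Bool × Bool)),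
      l.foldl (fun (s : List Bool × List (Bool × Bool)) b =>
        (s.1.tail, (s.1.headD false, b) :: s.2)) (e, acc) =
        (e.drop l.length, (zp e l).reverse ++ acc) := by
    intro l
    induction l with
    | nil => intro e acc; simp [zp]
    | cons b l ih =>
      intro e acc
      rw [List.foldl_cons, ih, zp, List.length_cons]
      simp
  have szp : ∀ (l e : List Bool), sz (zp e l) ≤ 8 * l.length + 1 := by
    intro l
    induction l with
    | nil => intro e; simp [zp]
    | cons b l ih =>
      intro e
      rw [zp, sz_cons, sz_pair, List.length_cons]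
      have h1 := ih e.tail
      have h2 := Poly.sz_bool_le b
      have h3 := Poly.sz_bool_le (e.headD false)
      omega
  have srev : ∀ l : List (Bool × Bool), sz l.reverse = sz l := by
    intro l
    induction l with
    | nil => rfl
    | cons b l ih =>
      rw [List.reverse_cons]
      have := Poly.sz_append l.reverse [b]
      rw [sz_cons, sz_nil] at this
      rw [sz_cons]
      omega
  have h2 := h1 (F + 8 * G + 4) (by
    intro a k
    rw [key, sz_pair, List.append_nil, srev]
    have h3 := Poly.sz_drop_le (f a) ((g a).take k).length
    have h4 := szp ((g a).take k) (f a)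
    have h5 := length_lt_sz (g a)
    have h6 := hF a
    have h7 := hG a
    have h8 : ((g a).take k).length ≤ (g a).length := by
      rw [List.length_take]; omega
    simp only [Polynomial.eval_add, Polynomial.eval_mul, Polynomial.eval_ofNat]
    omega)
  refine h2.snd'.reverse.of_eq fun a => ?_
  rw [key]
  simp

/-- entry of the expanded matrix -/
def entry {m : ℕ} (g : Fin m → Fin m → Bool) (z : Fin m → Bool) (i j : Fin m)
    (p : Bool × Bool) : Bool := (p.1 && g i j) || (p.2 && (z i && z j))

/-- new row -/
def newRow {m : ℕ} (g : Fin m → Fin m → Bool) (z : Fin m → Bool) (i : Fin m)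
    (l : List (Bool × Bool)) : List Bool :=
  l.flatMap fun p => List.ofFn fun j => entry g z i j p

/-- the rows replacing one row -/
def newRows {m : ℕ} (g : Fin m → Fin m → Bool) (z : Fin m → Bool)
    (e r : List Bool) : List (List Bool) := List.ofFn fun i => newRow g z i (zp e r)

/-- the whole expansion -/
def expand {m : ℕ} (g : Fin m → Fin m → Bool) (z : Fin m → Bool)
    (rows : List (List Bool)) : List (List Bool) :=
  (rows.foldl (fun (s : List Bool × List (List Bool)) r =>
    (false :: s.1, s.2 ++ newRows g z s.1 r)) ([true], [])).2

theorem expand_ofFn {m n : ℕ} (g : Fin m → Fin m → Bool) (z : Fin m → Bool)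
    (A : Fin n → Fin n → Bool) :
    expand g z (List.ofFn fun v => List.ofFn fun w => A v w) =
      List.ofFn fun x : Fin (n * m) => List.ofFn fun y : Fin (n * m) =>
        entry g z x.modNat y.modNat (decide (x.divNat = y.divNat), A x.divNat y.divNat) := by
  have key : ∀ (n' k : ℕ) (R : Fin n' → List Bool) (acc : List (List Bool)),
      (List.ofFn R).foldl (fun (s : List Bool × List (List Bool)) r =>
        (false :: s.1, s.2 ++ newRows g z s.1 r)) (List.replicate k false ++ [true], acc) =
      (List.replicate (k + n') false ++ [true],
        acc ++ (List.ofFn fun v : Fin n' =>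
          newRows g z (List.replicate (k + v.1) false ++ [true]) (R v)).flatten) := by
    intro n'
    induction n' with
    | zero => intro k R acc; simp
    | succ n' ih =>
      intro k R acc
      rw [List.ofFn_succ, List.foldl_cons]
      have e1 : false :: (List.replicate k false ++ [true]) =
          List.replicate (k + 1) false ++ [true] := by
        rw [List.replicate_succ]; rfl
      simp only [e1]
      rw [ih (k + 1), List.ofFn_succ, List.flatten_cons]
      congr 1
      · congr 2
        ring
      · rw [List.append_assoc]
        congr 2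
        congr 1
        congr 1
        funext v
        congr 3
        simp only [Fin.val_succ]
        ring
  have h0 := key n 0 (fun v => List.ofFn fun w => A v w) []
  simp only [List.replicate_zero, List.nil_append, zero_add] at h0
  unfold expand
  rw [h0, List.ofFn_mul]
  simp only
  congr 1
  congr 1
  funext v
  unfold newRows
  congr 1
  funext i
  unfold newRow
  rw [zp_ofFn, List.ofFn_mul]
  have hdiv : ∀ (v : Fin n) (i : Fin m) (h : v.1 * m + i.1 < n * m),
      (⟨v.1 * m + i.1, h⟩ : Fin (n * m)).divNat = v := by
    intro v i h
    ext
    simp only [Fin.coe_divNat]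
    rw [mul_comm, Nat.mul_add_div (lt_of_le_of_lt (Nat.zero_le _) i.2), Nat.div_eq_of_lt i.2,
      add_zero]
  have hmod : ∀ (v : Fin n) (i : Fin m) (h : v.1 * m + i.1 < n * m),
      (⟨v.1 * m + i.1, h⟩ : Fin (n * m)).modNat = i := by
    intro v i h
    ext
    simp only [Fin.coe_modNat]
    rw [mul_comm, Nat.mul_add_mod, Nat.mod_eq_of_lt i.2]
  rw [List.flatMap_def, List.map_ofFn]
  congr 1
  congr 1
  funext w
  simp only [Function.comp]
  congr 1
  funext j
  rw [hdiv, hmod, hdiv, hmod]
  congr 2
  simp [Fin.ext_iff]

theorem sz_replicate_append (k : ℕ) : sz (List.replicate k false ++ [true]) ≤ 4 * k + 5 := by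
  induction k with
  | zero => decide
  | succ k ih =>
    rw [List.replicate_succ, List.cons_append, sz_cons]
    have := Poly.sz_bool_le false
    omega

theorem poly_newRow {m : ℕ} (g : Fin m → Fin m → Bool) (z : Fin m → Bool) (i : Fin m)
    {α : Type} [Enc α] {f : α → List (Bool × Bool)} (hf : Poly f) :
    Poly (fun a => newRow g z i (f a)) := by
  unfold newRow
  refine Poly.flatMap (h := fun q : α × (Bool × Bool) =>
    List.ofFn fun j => entry g z i j q.2) hf (Poly.ofFn fun j => ?_)
  unfold entry
  exact (Poly.id.snd'.fst'.and (Poly.const _)).or (Poly.id.snd'.snd'.and (Poly.const _))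

theorem poly_newRows {m : ℕ} (g : Fin m → Fin m → Bool) (z : Fin m → Bool)
    {α : Type} [Enc α] {e r : α → List Bool} (he : Poly e) (hr : Poly r) :
    Poly (fun a => newRows g z (e a) (r a)) :=
  Poly.ofFn fun i => poly_newRow g z i (poly_zp he hr)

theorem poly_expand {m : ℕ} (g : Fin m → Fin m → Bool) (z : Fin m → Bool)
    {α : Type} [Enc α] {f : α → List (List Bool)} (hf : Poly f) :
    Poly (fun a => expand g z (f a)) := by
  -- the size of one block of new rows
  have hN := poly_newRows g z (α := List Bool × List Bool) (e := fun p => p.1)
    (r := fun p => p.2) Poly.fst Poly.snd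
  obtain ⟨N, hN'⟩ := hN.size
  obtain ⟨F, hF⟩ := hf.size
  have h1 := Poly.foldl (f := f) (g := fun _ => (([true], []) : List Bool × List (List Bool)))
    (h := fun p : α × ((List Bool × List (List Bool)) × List Bool) =>
      (false :: p.2.1.1, p.2.1.2 ++ newRows g z p.2.1.1 p.2.2)) hf (Poly.const _)
    (((Poly.const false).cons Poly.id.snd'.fst'.fst').pair
      (Poly.append Poly.id.snd'.fst'.snd'
        (poly_newRows g z Poly.id.snd'.fst'.fst' Poly.id.snd'.snd')))
  have key : ∀ (M : ℕ) (l : List (List Bool)) (k : ℕ) (acc : List (List Bool)),
      (∀ r ∈ l, sz r ≤ M) →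
      ∃ acc', l.foldl (fun (s : List Bool × List (List Bool)) r =>
        (false :: s.1, s.2 ++ newRows g z s.1 r)) (List.replicate k false ++ [true], acc) =
        (List.replicate (k + l.length) false ++ [true], acc') ∧
        sz acc' ≤ sz acc + l.length * N.eval (4 * (k + l.length) + 5 + M + 1) := by
    intro M l
    induction l with
    | nil => intro k acc _; exact ⟨acc, rfl, by simp⟩
    | cons r l ih =>
      intro k acc hM
      obtain ⟨acc', h2, h3⟩ := ih (k + 1) (acc ++ newRows g z (List.replicate k false ++ [true]) r)
        (fun r' hr' => hM r' (List.mem_cons_of_mem _ hr'))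
      refine ⟨acc', ?_, ?_⟩
      · rw [List.foldl_cons]
        have e1 : false :: (List.replicate k false ++ [true]) =
            List.replicate (k + 1) false ++ [true] := by
          rw [List.replicate_succ]; rfl
        simp only [e1]
        rw [h2, List.length_cons]
        congr 3
        ring
      · have h4 := Poly.sz_append acc (newRows g z (List.replicate k false ++ [true]) r)
        have h5 := hN' (List.replicate k false ++ [true], r)
        simp only at h5
        rw [sz_pair] at h5
        have h6 := sz_replicate_append k
        have h7 := hM r List.mem_cons_self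
        have h8 : N.eval (sz (List.replicate k false ++ [true]) + sz r + 1) ≤
            N.eval (4 * (k + (l.length + 1)) + 5 + M + 1) := eval_mono _ (by omega)
        have h9 : k + 1 + l.length = k + (l.length + 1) := by ring
        rw [h9] at h3
        rw [List.length_cons, Nat.succ_mul]
        omega
  have h2 := h1 (4 * F + 5 + 2 + F * N.comp (4 * F + 5 + F + 1)) (by
    intro a k
    have hF' := hF a
    have hlen := length_lt_sz (f a)
    have hM : ∀ r ∈ (f a).take k, sz r ≤ F.eval (sz a) := by
      intro r hr
      exact (Poly.sz_mem_le (List.mem_of_mem_take hr)).trans hF'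
    obtain ⟨acc', h2, h3⟩ := key (F.eval (sz a)) ((f a).take k) 0 [] hM
    simp only [List.replicate_zero, List.nil_append] at h2
    simp only
    rw [h2, sz_pair]
    have h4 : ((f a).take k).length ≤ F.eval (sz a) := by
      rw [List.length_take]
      omega
    have h5 := sz_replicate_append (0 + ((f a).take k).length)
    have h6 : N.eval (4 * (0 + ((f a).take k).length) + 5 + F.eval (sz a) + 1) ≤
        N.eval (4 * F.eval (sz a) + 5 + F.eval (sz a) + 1) := eval_mono _ (by omega)
    have h7 := Nat.mul_le_mul h4 h6
    simp only [Polynomial.eval_add, Polynomial.eval_mul, Polynomial.eval_ofNat,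
      Polynomial.eval_comp, Polynomial.eval_one]
    rw [sz_nil] at h3
    omega)
  exact h2.snd'

end Pool.Agent.TM2Lib.MPA
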