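import Pool.Agent.MP10a207.Gadget
import Pool.Agent.MP10a207.Rows
import Pool.Agent.MP10a207.Defs

/-!
# A constant-factor approximation for `r`-independent sets, `r > 1`, gives one for
Maximum Independent Set, with the same factor
-/

namespace Pool.Agent.MP10a207

open Pool.Agent.TM2Lib

/-! ### The preprocessing -/

/-- number of vertices of a gadget -/
abbrev gm (k : ℕ) : ℕ := (k + 1) / 2 + 1

/-- the graph `G_k(H)` on `{0, …, n m - 1}` -/
def pre (k : ℕ) (G : Graph) : Graph :=
  ⟨G.1 * gm k, (gadget G.2 k).comap (finProdFinEquiv (m := G.1) (n := gm k)).symm⟩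

/-- adjacency inside a gadget -/
def gAdj (k : ℕ) (i j : Fin (gm k)) : Bool :=
  decide (i ≠ j ∧ ht k i ≤ ht k j + 1 ∧ ht k j ≤ ht k i + 1)

/-- height zero -/
def gZero (k : ℕ) (i : Fin (gm k)) : Bool := decide (ht k i = 0)

theorem adjRows_pre (k : ℕ) (G : Graph) :
    adjRows (pre k G) = MPA.expand (gAdj k) (gZero k) (adjRows G) := by
  classical
  obtain ⟨n, H⟩ := G
  unfold adjRows
  rw [MPA.expand_ofFn]
  show (List.ofFn fun i : Fin (n * gm k) => List.ofFn fun j : Fin (n * gm k) => _) = _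
  congr 1
  funext x
  congr 1
  funext y
  have h : (pre k ⟨n, H⟩).2.Adj x y ↔
      (x.divNat = y.divNat ∧ x.modNat ≠ y.modNat ∧ ht k x.modNat ≤ ht k y.modNat + 1 ∧
        ht k y.modNat ≤ ht k x.modNat + 1) ∨
      (H.Adj x.divNat y.divNat ∧ ht k x.modNat = 0 ∧ ht k y.modNat = 0) := Iff.rfl
  rw [Bool.eq_iff_iff, decide_eq_true_iff, h]
  unfold MPA.entry gAdj gZero
  simp only [Bool.or_eq_true, Bool.and_eq_true, decide_eq_true_iff]

theorem poly_adjRows : TM2Lib.Poly adjRows := TM2Lib.Poly.of_enc fun _ => rfl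

theorem poly_pre (k : ℕ) : TM2Lib.Poly (pre k) := by
  have h := MPA.poly_expand (gAdj k) (gZero k) poly_adjRows
  refine h.congr (fun _ => rfl) (fun G => ?_)
  show D.encD (Enc.enc (MPA.expand (gAdj k) (gZero k) (adjRows G))) =
    D.encD (Enc.enc (adjRows (pre k G)))
  rw [adjRows_pre]

/-! ### The postprocessing -/

/-- round a point to its nearest endpoint and forget the gadget coordinate -/
def postItem (m : ℕ) (w : Item) : ℕ := (if decide (2 * w.2.2.1 ≤ w.2.2.2) then w.1 else w.2.1) / m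

theorem poly_post (m : ℕ) (hm : 0 < m) :
    TM2Lib.Poly (fun L : List Item => L.map (postItem m)) := by
  refine TM2Lib.Poly.map (h := fun q : List Item × Item => postItem m q.2) TM2Lib.Poly.id ?_
  have hw : TM2Lib.Poly (fun q : List Item × Item => q.2) := TM2Lib.Poly.snd
  exact TM2Lib.Poly.div_const (TM2Lib.Poly.ite
    (TM2Lib.Poly.nat_le (TM2Lib.Poly.double hw.snd'.snd'.fst') hw.snd'.snd'.snd')
    hw.fst' hw.snd'.fst') m hm

theorem postItem_eq {n k : ℕ} {w : Item} {x : Pt (Fin (n * gm k))} (h : Describes w x) :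
    postItem (gm k) w = ((base (mapPt (finProdFinEquiv (m := n) (n := gm k)).symm x) : Fin n) : ℕ) := by
  obtain ⟨h1, h2, h3, h4⟩ := h
  have hq : (0 : ℝ) < (w.2.2.2 : ℝ) := by exact_mod_cast h3
  have hiff : 2 * w.2.2.1 ≤ w.2.2.2 ↔ x.t ≤ 1 / 2 := by
    rw [h4, div_le_div_iff₀ hq (by norm_num)]
    constructor
    · intro h
      have : (2 : ℝ) * (w.2.2.1 : ℝ) ≤ (w.2.2.2 : ℝ) := by exact_mod_cast h
      linarith
    · intro h
      have : (2 : ℝ) * (w.2.2.1 : ℝ) ≤ (w.2.2.2 : ℝ) := by linarith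
      exact_mod_cast this
  unfold postItem base mapPt
  simp only [decide_eq_true_iff]
  by_cases hc : 2 * w.2.2.1 ≤ w.2.2.2
  · rw [if_pos hc, if_pos (hiff.1 hc), h1]
    rfl
  · rw [if_neg hc, if_neg (fun h => hc (hiff.2 h)), h2]
    rfl

theorem post_eq {n k : ℕ} {L : List Item} {P : List (Pt (Fin (n * gm k)))}
    (h : List.Forall₂ Describes L P) : L.map (postItem (gm k)) =
      (P.map (fun p => base (mapPt (finProdFinEquiv (m := n) (n := gm k)).symm p))).map
        Fin.val := by
  induction h with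
  | nil => rfl
  | cons h _ ih =>
    rw [List.map_cons, List.map_cons, List.map_cons, ih]
    congr 1
    exact postItem_eq h

/-- **Main theorem.** For every rational `r > 1` and every `c`: if some polynomial-time algorithm
approximates maximum `r`-independent sets of continuous graphs with performance guarantee `c`,
then some polynomial-time algorithm approximates Maximum Independent Set with guarantee `c`. -/
theorem mis_of_ris (r : ℚ) (hr : 1 < r) (c : ℝ) (h : RISApprox r c) : MISApprox c := by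
  classical
  obtain ⟨k, hkdef⟩ : ∃ k, k = ⌈2 * (r : ℝ)⌉₊ - 2 := ⟨_, rfl⟩
  have hr' : (1 : ℝ) < (r : ℝ) := by exact_mod_cast hr
  have hceil : 3 ≤ ⌈2 * (r : ℝ)⌉₊ := by
    have : (2 : ℕ) < ⌈2 * (r : ℝ)⌉₊ := by
      rw [Nat.lt_ceil]
      push_cast
      linarith
    omega
  have hk : 1 ≤ k := by omega
  have hck : ⌈2 * (r : ℝ)⌉₊ = k + 2 := by omega
  have hup : 2 * (r : ℝ) ≤ (k : ℝ) + 2 := by
    have := Nat.le_ceil (2 * (r : ℝ))
    rw [hck] at this
    push_cast at this
    exact this
  have hlow : (k : ℝ) + 1 < 2 * (r : ℝ) := by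
    have : k + 1 < ⌈2 * (r : ℝ)⌉₊ := by omega
    rw [Nat.lt_ceil] at this
    push_cast at this
    exact this
  obtain ⟨f, ⟨hf⟩, hspec⟩ := h
  have hfP : TM2Lib.Poly f := Comp.of_tm (ea := (code : Graph → List Bool))
    (eb := (code : List Item → List Bool)) hf
  let g : Graph → List ℕ := fun G => (f (pre k G)).map (postItem (gm k))
  have hg : TM2Lib.Poly g := (poly_post (gm k) (by unfold gm; omega)).comp (hfP.comp (poly_pre k))
  refine ⟨g, Comp.to_tm (ea := (code : Graph → List Bool))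
    (eb := (code : List ℕ → List Bool)) hg, ?_⟩
  intro G
  obtain ⟨n, H⟩ := G
  obtain ⟨⟨P, hP1, hP2, hP3, hP4⟩, hJ⟩ := hspec (pre k ⟨n, H⟩)
  let e : Fin (n * gm k) ≃ Fin n × Fin (gm k) := (finProdFinEquiv (m := n) (n := gm k)).symm
  -- transport the solution
  have hI : RIndep (gadget H k) (r : ℝ) (P.toFinset.image (mapPt e)) := by
    have h0 : RIndep ((gadget H k).comap e) (r : ℝ) P.toFinset := by
      exact ⟨fun p hp => hP3 p (List.mem_toFinset.1 hp), fun p hp q hq hpq =>
        hP4 p (List.mem_toFinset.1 hp) q (List.mem_toFinset.1 hq) hpq⟩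
    have h1 := (rIndep_comap e (gadget H k) (r : ℝ) P.toFinset).1 h0
    exact h1
  have hfar := far_of_rindep H hk hlow hI
  have hmem : ∀ p ∈ P, mapPt e p ∈ P.toFinset.image (mapPt e) := fun p hp =>
    Finset.mem_image_of_mem _ (List.mem_toFinset.2 hp)
  have hgP : g ⟨n, H⟩ = (P.map (fun p => base (mapPt e p))).map Fin.val := post_eq hP1
  refine ⟨⟨P.map (fun p => base (mapPt e p)), hgP, ?_, ?_⟩, ?_⟩
  · refine (List.nodup_map_iff_inj_on hP2).2 ?_
    intro p hp q hq hpq
    by_contra hne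
    exact hfar _ (hmem p hp) _ (hmem q hq) (fun h => hne (mapPt_injective e h)) (Or.inl hpq)
  · intro u hu v hv huv
    simp only [Set.mem_ofPred_eq, List.mem_map] at hu hv
    obtain ⟨p, hp, rfl⟩ := hu
    obtain ⟨q, hq, rfl⟩ := hv
    have hne : mapPt e p ≠ mapPt e q := fun h => huv (by rw [h])
    exact fun h => hfar _ (hmem p hp) _ (hmem q hq) hne (Or.inr h)
  · obtain ⟨S, hS⟩ := H.exists_isNIndepSet_indepNum
    obtain ⟨h1, h2⟩ := rindep_of_indep H hk hup hS.isIndepSet
    have h3 : ((S.image (tip k)).image (mapPt e.symm)).image (mapPt e) = S.image (tip k) := by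
      rw [Finset.image_image]
      have : (mapPt e) ∘ (mapPt e.symm) = (id : Pt (Fin n × Fin (gm k)) → _) := by
        funext p
        simp [mapPt]
      rw [this, Finset.image_id]
    have h4 : RIndep (pre k ⟨n, H⟩).2 (r : ℝ) ((S.image (tip k)).image (mapPt e.symm)) := by
      exact (rIndep_comap e (gadget H k) (r : ℝ) ((S.image (tip k)).image (mapPt e.symm))).2
        (by rw [h3]; exact h1)
    have hcard : ((S.image (tip k)).image (mapPt e.symm)).card = H.indepNum := by
      rw [Finset.card_image_of_injective _ (mapPt_injective e.symm), h2, hS.card_eq]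
    have h6 : c * ((((S.image (tip k)).image (mapPt e.symm)).card : ℕ) : ℝ) ≤
      ((f (pre k ⟨n, H⟩)).length : ℝ) := hJ _ h4
    rw [hcard] at h6
    have h7 : (g ⟨n, H⟩).length = (f (pre k ⟨n, H⟩)).length := by
      show ((f (pre k ⟨n, H⟩)).map (postItem (gm k))).length = _
      rw [List.length_map]
    rw [h7]
    exact h6

end Pool.Agent.MP10a207
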