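import Pool.Agent.MP10a207.Defs
import Pool.Agent.PCP.Hard

/-!
# Approximation of `r`-independent sets: the statements of the modules
-/

namespace Pool.Agent.MP10a207

/-! ### the modules -/

/-- **Module E1.**  `r ≤ 1/2`: output the midpoints of all edges and all isolated vertices; with
`k = ⌊1/(2r)⌋` every edge contains at most `k + 1` points of an `r`-independent set, so
`c = 1/(k+1)`. -/
def ModE1 : Prop := ∀ r : ℚ, 0 < r → r ≤ 1 / 2 → ∃ c : ℝ, 0 < c ∧ RISApprox r c

/-- **Module E2.**  `1/2 < r ≤ 1`: greedy maximal matching `M`; output the midpoints of the edges
of `M`, or the set of the unmatched vertices, whichever is larger (at least `n/3`); and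
`α_r ≤ n` (nearest endpoint). -/
def ModE2 : Prop := ∀ r : ℚ, 1 / 2 < r → r ≤ 1 → RISApprox r (1 / 3)

/-- **Module S.**  If `P = NP` then a maximum independent set can be computed in polynomial time
(self-reduction; the NP language is: (rows, mask, k) such that the mask contains an independent
set of size `≥ k`). -/
def ModS : Prop := PEqNP → MISApprox 1

/-- **Module C.**  The maximum `r`-independent set problem reduces to Maximum Independent Set of
the conflict graph of the points with positions in `ℤ/(2q)`, `r = p/q`. -/
def ModC : Prop := ∀ (c : ℝ) (r : ℚ), 0 < r → MISApprox c → RISApprox r c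

end Pool.Agent.MP10a207
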