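import Pool.Agent.MP10a207.Round
import Pool.Agent.MP10a207.Problem

/-!
# The conflict graph
-/

namespace Pool.Agent.MP10a207

open scoped ENNReal

/-- entry of a matrix -/
def ent (A : List (List Bool)) (a c : ℕ) : Bool := (A.getD a []).getD c false

/-- reachability in at most `j` steps -/
def reach (A : List (List Bool)) : ℕ → ℕ → ℕ → Bool
  | 0, a, c => decide (a = c)
  | j + 1, a, c => reach A j a c ||
      (List.range A.length).any (fun e => reach A j a e && ent A e c)

theorem length_adjRows (G : Graph) : (adjRows G).length = G.1 := by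
  simp [adjRows]

theorem ent_adjRows (G : Graph) (a c : Fin G.1) : ent (adjRows G) a c = true ↔ G.2.Adj a c := by
  classical
  unfold ent adjRows
  have h1 : ∀ {β : Type} {n : ℕ} (f : Fin n → β) (i : Fin n) (d : β),
      (List.ofFn f).getD i d = f i := by
    intro β n f i d
    rw [List.getD_eq_getElem _ _ (by rw [List.length_ofFn]; exact i.2), List.getElem_ofFn]
  rw [h1, h1, decide_eq_true_iff]

theorem edist_le_succ_iff {V : Type*} (G : SimpleGraph V) (a c : V) (j : ℕ) :
    G.edist a c ≤ ((j + 1 : ℕ) : ℕ∞) ↔ G.edist a c ≤ (j : ℕ∞) ∨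
      ∃ e, G.edist a e ≤ (j : ℕ∞) ∧ G.Adj e c := by
  constructor
  · intro h
    have hne : G.edist a c ≠ ⊤ := ne_top_of_le_ne_top (ENat.natCast_ne_top _) h
    obtain ⟨w, hw⟩ := SimpleGraph.exists_walk_of_edist_ne_top hne
    rw [← hw] at h
    by_cases hj : w.length ≤ j
    · left
      rw [← hw]
      exact_mod_cast hj
    · right
      have hlen : w.reverse.length = j + 1 := by
        rw [SimpleGraph.Walk.length_reverse]
        have : w.length ≤ j + 1 := by exact_mod_cast h
        omega
      cases hr : w.reverse with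
      | nil =>
        rw [hr] at hlen
        simp at hlen
      | @cons _ e _ hadj w' =>
        rw [hr, SimpleGraph.Walk.length_cons] at hlen
        refine ⟨e, ?_, hadj.symm⟩
        rw [SimpleGraph.edist_comm]
        refine (SimpleGraph.Walk.edist_le w').trans ?_
        have : w'.length = j := by omega
        rw [this]
  · rintro (h | ⟨e, h1, h2⟩)
    · refine h.trans ?_
      exact_mod_cast Nat.le_succ j
    · refine (SimpleGraph.edist_triangle (v := e)).trans ?_
      have h3 : G.edist e c ≤ 1 := by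
        have := (SimpleGraph.Walk.cons h2 SimpleGraph.Walk.nil).edist_le
        simpa using this
      push_cast
      exact add_le_add h1 h3

theorem reach_iff (G : Graph) (j : ℕ) : ∀ (a c : Fin G.1),
    reach (adjRows G) j a c = true ↔ G.2.edist a c ≤ (j : ℕ∞) := by
  induction j with
  | zero =>
    intro a c
    rw [reach, decide_eq_true_iff, Nat.cast_zero, nonpos_iff_eq_zero,
      SimpleGraph.edist_eq_zero_iff]
    exact Fin.val_inj
  | succ j ih =>
    intro a c
    rw [reach, Bool.or_eq_true, ih, List.any_eq_true, edist_le_succ_iff]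
    refine or_congr_right ?_
    constructor
    · rintro ⟨e, he, h⟩
      rw [List.mem_range, length_adjRows] at he
      rw [Bool.and_eq_true] at h
      exact ⟨⟨e, he⟩, (ih a ⟨e, he⟩).1 h.1, (ent_adjRows G ⟨e, he⟩ c).1 h.2⟩
    · rintro ⟨e, h1, h2⟩
      refine ⟨e, ?_, ?_⟩
      · rw [List.mem_range, length_adjRows]
        exact e.2
      · rw [Bool.and_eq_true]
        exact ⟨(ih a e).2 h1, (ent_adjRows G e c).2 h2⟩

/-- candidate points: `(a, b, s)` stands for the point of `ab` at distance `s/Q` from `a` -/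
abbrev Tr (Q : ℕ) : Type := ℕ × ℕ × Fin (Q + 1)

section
variable (p Q : ℕ) (A : List (List Bool))

/-- a route of length `< 4p/Q` -/
def route (a c s t : ℕ) : Bool :=
  (List.range (2 * p + 1)).any fun j => reach A j a c && decide (s + j * Q + t < 4 * p)

/-- distance `< 4p/Q` -/
def near (w w' : Tr Q) : Bool :=
  (if decide (w.1 = w'.1) && decide (w.2.1 = w'.2.1) then
      decide ((w.2.2 : ℕ) < w'.2.2 + 4 * p) && decide ((w'.2.2 : ℕ) < w.2.2 + 4 * p)
    else if decide (w.1 = w'.2.1) && decide (w.2.1 = w'.1) then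
      decide ((w.2.2 : ℕ) + w'.2.2 < Q + 4 * p) && decide (Q < (w.2.2 : ℕ) + w'.2.2 + 4 * p)
    else false) ||
  ((route p Q A w.1 w'.1 w.2.2 w'.2.2 || route p Q A w.1 w'.2.1 w.2.2 (Q - w'.2.2)) ||
    (route p Q A w.2.1 w'.1 (Q - w.2.2) w'.2.2 ||
      route p Q A w.2.1 w'.2.1 (Q - w.2.2) (Q - w'.2.2)))

/-- valid candidates -/
def valid (w : Tr Q) : Bool :=
  ent A w.1 w.2.1 || (decide (w.1 = w.2.1) && decide ((w.2.2 : ℕ) = 0))

/-- the list of the candidates -/
def cl : List (Tr Q) :=
  ((List.range A.length).product ((List.range A.length).product (List.finRange (Q + 1)))).filter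
    (valid Q A)

/-- conflict of two candidates -/
def adjB (w w' : Tr Q) : Bool :=
  !(decide (w.1 = w'.1) && decide (w.2.1 = w'.2.1) && decide ((w.2.2 : ℕ) = w'.2.2)) &&
    (near p Q A w w' || near p Q A w' w)

/-- the rows of the conflict graph -/
def confRows : List (List Bool) := (cl Q A).map fun w => (cl Q A).map fun w' => adjB p Q A w w'

/-- the conflict graph -/
def confGraph : Graph := ⟨(cl Q A).length,
  { Adj := fun i j => adjB p Q A ((cl Q A).get i) ((cl Q A).get j) = true
    symm := ⟨by
      intro i j h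
      unfold adjB at h ⊢
      simp only [Bool.and_eq_true, Bool.or_eq_true, Bool.not_eq_true', Bool.and_eq_false_iff,
        decide_eq_false_iff_not] at h ⊢
      refine ⟨?_, h.2.symm⟩
      rcases h.1 with (h1 | h1) | h1
      · exact Or.inl (Or.inl (fun h => h1 h.symm))
      · exact Or.inl (Or.inr (fun h => h1 h.symm))
      · exact Or.inr (fun h => h1 h.symm)⟩
    loopless := ⟨by
      intro i h
      unfold adjB at h
      simp at h⟩ }⟩

theorem adjRows_confGraph : adjRows (confGraph p Q A) = confRows p Q A := by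
  classical
  unfold adjRows confRows
  have h1 : ∀ {β γ : Type} (l : List β) (F : β → γ), l.map F = List.ofFn (fun i => F (l.get i)) := by
    intro β γ l F
    apply List.ext_getElem
    · simp
    · intro i h1 h2
      simp
  rw [h1]
  show (List.ofFn fun i : Fin (cl Q A).length => List.ofFn fun j : Fin (cl Q A).length => _) = _
  congr 1
  funext i
  rw [h1]
  congr 1
  funext j
  rw [Bool.eq_iff_iff, decide_eq_true_iff]
  exact Iff.rfl

theorem nodup_cl : (cl Q A).Nodup :=
  ((List.nodup_range.product (List.nodup_range.product (List.nodup_finRange _)))).filter _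

theorem mem_cl (w : Tr Q) : w ∈ cl Q A ↔
    w.1 < A.length ∧ w.2.1 < A.length ∧ valid Q A w = true := by
  obtain ⟨a, b, s⟩ := w
  unfold cl
  rw [List.mem_filter, List.pair_mem_product, List.pair_mem_product, List.mem_range,
    List.mem_range]
  simp [and_assoc]

end

/-- the point of a candidate -/
noncomputable def toPt {n Q : ℕ} (a b : Fin n) (s : ℕ) : Pt (Fin n) := ⟨a, b, (s : ℝ) / Q⟩

section facts
variable {p q : ℕ} (hp : 0 < p) (hq : 0 < q) (G : Graph)

include hq

theorem route_iff (a c : Fin G.1) (s t : ℕ) :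
    route p (2 * q) (adjRows G) a c s t = true ↔
      ENNReal.ofReal ((s : ℝ) / (2 * q)) + (G.2.edist a c : ℝ≥0∞) +
        ENNReal.ofReal ((t : ℝ) / (2 * q)) < ENNReal.ofReal ((2 * p : ℝ) / q) := by
  have hq' : (0 : ℝ) < (q : ℝ) := by exact_mod_cast hq
  have key : ∀ j : ℕ, ENNReal.ofReal ((s : ℝ) / (2 * q)) + (((j : ℕ∞)) : ℝ≥0∞) +
      ENNReal.ofReal ((t : ℝ) / (2 * q)) < ENNReal.ofReal ((2 * p : ℝ) / q) ↔
        s + j * (2 * q) + t < 4 * p := by
    intro j
    have h1 : ENNReal.ofReal ((s : ℝ) / (2 * q)) + (((j : ℕ∞)) : ℝ≥0∞) +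
        ENNReal.ofReal ((t : ℝ) / (2 * q)) =
          ENNReal.ofReal ((s : ℝ) / (2 * q) + j + (t : ℝ) / (2 * q)) := by
      rw [ENNReal.ofReal_add (by positivity) (by positivity),
        ENNReal.ofReal_add (by positivity) (by positivity), ENNReal.ofReal_natCast]
      simp
    rw [h1, ENNReal.ofReal_lt_ofReal_iff_of_nonneg (by positivity)]
    have h2 : (s : ℝ) / (2 * q) + j + (t : ℝ) / (2 * q) =
        ((s + j * (2 * q) + t : ℕ) : ℝ) / (2 * q) := by
      push_cast
      field_simp
    have h3 : (2 * p : ℝ) / q = ((4 * p : ℕ) : ℝ) / (2 * q) := by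
      push_cast
      field_simp
      ring
    rw [h2, h3, div_lt_div_iff_of_pos_right (by positivity)]
    exact Nat.cast_lt
  unfold route
  rw [List.any_eq_true]
  constructor
  · rintro ⟨j, hj, h⟩
    rw [Bool.and_eq_true, decide_eq_true_iff, reach_iff] at h
    refine lt_of_le_of_lt ?_ ((key j).2 h.2)
    gcongr
    exact_mod_cast h.1
  · intro h
    have hne : G.2.edist a c ≠ ⊤ := by
      intro he
      rw [he] at h
      simp at h
    obtain ⟨d, hd⟩ := ENat.ne_top_iff_exists.1 hne
    rw [← hd, key] at h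
    refine ⟨d, ?_, ?_⟩
    · rw [List.mem_range]
      nlinarith
    · rw [Bool.and_eq_true, decide_eq_true_iff, reach_iff, ← hd]
      exact ⟨le_rfl, h⟩

theorem near_iff (a b c d : Fin G.1) (s t : Fin (2 * q + 1)) :
    near p (2 * q) (adjRows G) ((a : ℕ), (b : ℕ), s) ((c : ℕ), (d : ℕ), t) = true ↔
      ptDist G.2 (toPt (Q := 2 * q) a b s) (toPt (Q := 2 * q) c d t) <
        ENNReal.ofReal ((2 * p : ℝ) / q) := by
  have hq' : (0 : ℝ) < (q : ℝ) := by exact_mod_cast hq
  have hs : (1 : ℝ) - ((s : ℕ) : ℝ) / (2 * q) = ((2 * q - (s : ℕ) : ℕ) : ℝ) / (2 * q) := by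
    rw [Nat.cast_sub (by have := s.2; omega)]
    push_cast
    field_simp
  have ht : (1 : ℝ) - ((t : ℕ) : ℝ) / (2 * q) = ((2 * q - (t : ℕ) : ℕ) : ℝ) / (2 * q) := by
    rw [Nat.cast_sub (by have := t.2; omega)]
    push_cast
    field_simp
  have h4p : (2 * p : ℝ) / q = (4 * p : ℝ) / (2 * q) := by
    field_simp
    ring
  have hinner : inner (toPt (Q := 2 * q) a b s) (toPt (Q := 2 * q) c d t) <
      ENNReal.ofReal ((2 * p : ℝ) / q) ↔
      (if decide ((a : ℕ) = c) && decide ((b : ℕ) = d) then
        decide ((s : ℕ) < t + 4 * p) && decide ((t : ℕ) < s + 4 * p)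
      else if decide ((a : ℕ) = d) && decide ((b : ℕ) = c) then
        decide ((s : ℕ) + t < 2 * q + 4 * p) && decide (2 * q < (s : ℕ) + t + 4 * p)
      else false) = true := by
    unfold inner toPt
    simp only [Bool.and_eq_true, decide_eq_true_eq, Fin.val_inj]
    push_cast
    split_ifs with h1 h2
    · rw [ENNReal.ofReal_lt_ofReal_iff_of_nonneg (abs_nonneg _), abs_lt, h4p]
      simp only [Bool.and_eq_true, decide_eq_true_eq]
      constructor
      · rintro ⟨e1, e2⟩
        rw [← neg_div, ← sub_div, div_lt_div_iff_of_pos_right (by positivity)] at e1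
        rw [← sub_div, div_lt_div_iff_of_pos_right (by positivity)] at e2
        constructor
        · have : ((s : ℕ) : ℝ) < ((t : ℕ) : ℝ) + 4 * p := by linarith
          exact_mod_cast this
        · have : ((t : ℕ) : ℝ) < ((s : ℕ) : ℝ) + 4 * p := by linarith
          exact_mod_cast this
      · rintro ⟨e1, e2⟩
        have e1' : ((s : ℕ) : ℝ) < ((t : ℕ) : ℝ) + 4 * p := by exact_mod_cast e1
        have e2' : ((t : ℕ) : ℝ) < ((s : ℕ) : ℝ) + 4 * p := by exact_mod_cast e2
        rw [← neg_div, ← sub_div, div_lt_div_iff_of_pos_right (by positivity),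
          div_lt_div_iff_of_pos_right (by positivity)]
        constructor <;> linarith
    · rw [ENNReal.ofReal_lt_ofReal_iff_of_nonneg (abs_nonneg _), abs_lt, h4p]
      simp only [Bool.and_eq_true, decide_eq_true_eq]
      have e0 : ((s : ℕ) : ℝ) / (2 * q) - (1 - ((t : ℕ) : ℝ) / (2 * q)) =
          (((s : ℕ) : ℝ) + ((t : ℕ) : ℝ) - 2 * q) / (2 * q) := by
        field_simp
        ring
      rw [e0]
      constructor
      · rintro ⟨e1, e2⟩
        rw [← neg_div, div_lt_div_iff_of_pos_right (by positivity)] at e1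
        rw [div_lt_div_iff_of_pos_right (by positivity)] at e2
        constructor
        · have : ((s : ℕ) : ℝ) + ((t : ℕ) : ℝ) < 2 * q + 4 * p := by linarith
          exact_mod_cast this
        · have : 2 * (q : ℝ) < ((s : ℕ) : ℝ) + ((t : ℕ) : ℝ) + 4 * p := by linarith
          exact_mod_cast this
      · rintro ⟨e1, e2⟩
        have e1' : ((s : ℕ) : ℝ) + ((t : ℕ) : ℝ) < 2 * q + 4 * p := by exact_mod_cast e1
        have e2' : 2 * (q : ℝ) < ((s : ℕ) : ℝ) + ((t : ℕ) : ℝ) + 4 * p := by exact_mod_cast e2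
        rw [← neg_div, div_lt_div_iff_of_pos_right (by positivity),
          div_lt_div_iff_of_pos_right (by positivity)]
        constructor <;> linarith
    · simp
  unfold ptDist near
  rw [min_lt_iff, Bool.or_eq_true, hinner]
  refine or_congr_right ?_
  unfold outer
  rw [min_lt_iff, min_lt_iff, min_lt_iff, Bool.or_eq_true, Bool.or_eq_true, Bool.or_eq_true]
  have r1 := route_iff (p := p) hq G a c s t
  have r2 := route_iff (p := p) hq G a d s (2 * q - t)
  have r3 := route_iff (p := p) hq G b c (2 * q - s) t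
  have r4 := route_iff (p := p) hq G b d (2 * q - s) (2 * q - t)
  rw [← ht] at r2
  rw [← hs] at r3
  rw [← hs, ← ht] at r4
  unfold toPt
  push_cast
  exact or_congr (or_congr r1 r2) (or_congr r3 r4)

end facts

end Pool.Agent.MP10a207
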