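import Pool.Agent.MP10a207.Geometry

/-!
The gadget graphs `G_k(H)` and the distances in them.
-/

namespace Pool.Agent.MP10a207

open scoped ENNReal

/-- height of the `i`-th vertex of a gadget -/
def ht (k : ℕ) (i : Fin ((k + 1) / 2 + 1)) : ℕ := min i.1 (k / 2)

/-- The graph `G_k(H)`: every vertex `v` of `H` carries a gadget of height `k/2`: a pendant path
`(v,0), (v,1), …, (v,k/2)` if `k` is even; if `k` is odd a pendant path
`(v,0), …, (v,(k-1)/2)` whose last vertex gets an adjacent twin.  For `k = 1` this replaces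
every vertex of `H` by two adjacent twins. -/
def gadget {V : Type*} (H : SimpleGraph V) (k : ℕ) :
    SimpleGraph (V × Fin ((k + 1) / 2 + 1)) where
  Adj x y :=
    (x.1 = y.1 ∧ x.2 ≠ y.2 ∧ ht k x.2 ≤ ht k y.2 + 1 ∧ ht k y.2 ≤ ht k x.2 + 1) ∨
      (H.Adj x.1 y.1 ∧ ht k x.2 = 0 ∧ ht k y.2 = 0)
  symm := ⟨by
    rintro x y (⟨h1, h2, h3, h4⟩ | ⟨h1, h2, h3⟩)
    · exact Or.inl ⟨h1.symm, h2.symm, h4, h3⟩
    · exact Or.inr ⟨h1.symm, h3, h2⟩⟩
  loopless := ⟨by
    rintro x (⟨h1, h2, h3, h4⟩ | ⟨h1, h2, h3⟩)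
    · exact h2 rfl
    · exact H.irrefl h1⟩


/-- The vertex of `H` whose gadget contains the vertex of `G_k(H)` nearest to `p`. -/
noncomputable def base {V : Type*} {m : ℕ} (p : Pt (V × Fin m)) : V :=
  if p.t ≤ 1 / 2 then p.a.1 else p.b.1

/-- The tip of the gadget of `v`: the last vertex of the path if `k` is even, the midpoint of the
edge joining the two last twins if `k` is odd. -/
noncomputable def tip {V : Type*} (k : ℕ) (v : V) : Pt (V × Fin ((k + 1) / 2 + 1)) where
  a := (v, ⟨(k + 1) / 2, by omega⟩)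
  b := (v, ⟨(k + 1) / 2 - 1, by omega⟩)
  t := ((k % 2 : ℕ) : ℝ) / 2

section
variable {V : Type*} (H : SimpleGraph V) {k : ℕ}

theorem exists_down (u : V) : ∀ (n : ℕ) (i : Fin ((k + 1) / 2 + 1)), i.1 = n →
    ∃ i0, ht k i0 = 0 ∧ (gadget H k).edist (u, i) (u, i0) ≤ ((ht k i : ℕ) : ℕ∞) := by
  intro n
  induction n using Nat.strong_induction_on with
  | _ n ih =>
    intro i hi
    by_cases h0 : ht k i = 0
    · exact ⟨i, h0, by simp⟩
    · have hpos : 1 ≤ min i.1 (k / 2) := by
        have : ht k i = min i.1 (k / 2) := rfl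
        omega
      let j : Fin ((k + 1) / 2 + 1) := ⟨ht k i - 1, by
        have : ht k i = min i.1 (k / 2) := rfl
        have := i.2
        omega⟩
      have hj1 : j.1 = ht k i - 1 := rfl
      have hti : ht k i = min i.1 (k / 2) := rfl
      have hj : ht k j = ht k i - 1 := by
        have : ht k j = min j.1 (k / 2) := rfl
        omega
      obtain ⟨i0, h1, h2⟩ := ih j.1 (by omega) j rfl
      refine ⟨i0, h1, ?_⟩
      have hadj : (gadget H k).Adj (u, i) (u, j) := by
        left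
        refine ⟨rfl, ?_, ?_, ?_⟩
        · intro h
          have h' : i = j := h
          have : i.1 = j.1 := by rw [h']
          omega
        · show ht k i ≤ ht k j + 1
          omega
        · show ht k j ≤ ht k i + 1
          omega
      have h3 : (gadget H k).edist (u, i) (u, j) ≤ 1 := by
        have := (SimpleGraph.Walk.cons hadj SimpleGraph.Walk.nil).edist_le
        simpa using this
      calc (gadget H k).edist (u, i) (u, i0)
          ≤ (gadget H k).edist (u, i) (u, j) + (gadget H k).edist (u, j) (u, i0) :=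
            SimpleGraph.edist_triangle
        _ ≤ 1 + ((ht k j : ℕ) : ℕ∞) := add_le_add h3 h2
        _ = ((ht k i : ℕ) : ℕ∞) := by
            rw [hj]
            norm_cast
            omega

theorem edist_le_of (u v : V) (h : u = v ∨ H.Adj u v) (i j : Fin ((k + 1) / 2 + 1)) :
    (gadget H k).edist (u, i) (v, j) ≤ ((ht k i + ht k j + 1 : ℕ) : ℕ∞) := by
  obtain ⟨i0, hi0, hi⟩ := exists_down H (k := k) u i.1 i rfl
  obtain ⟨j0, hj0, hj⟩ := exists_down H (k := k) v j.1 j rfl
  have h3 : (gadget H k).edist (u, i0) (v, j0) ≤ 1 := by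
    by_cases he : (u, i0) = (v, j0)
    · rw [he]; simp
    · have hadj : (gadget H k).Adj (u, i0) (v, j0) := by
        rcases h with h | h
        · left
          refine ⟨h, ?_, ?_, ?_⟩
          · intro h'
            exact he (Prod.ext h h')
          · show ht k i0 ≤ ht k j0 + 1
            omega
          · show ht k j0 ≤ ht k i0 + 1
            omega
        · right
          exact ⟨h, hi0, hj0⟩
      have := (SimpleGraph.Walk.cons hadj SimpleGraph.Walk.nil).edist_le
      simpa using this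
  have hj' : (gadget H k).edist (v, j0) (v, j) ≤ ((ht k j : ℕ) : ℕ∞) := by
    rw [SimpleGraph.edist_comm]; exact hj
  calc (gadget H k).edist (u, i) (v, j)
      ≤ (gadget H k).edist (u, i) (u, i0) + (gadget H k).edist (u, i0) (v, j) :=
        SimpleGraph.edist_triangle
    _ ≤ (gadget H k).edist (u, i) (u, i0) +
        ((gadget H k).edist (u, i0) (v, j0) + (gadget H k).edist (v, j0) (v, j)) := by
        gcongr
        exact SimpleGraph.edist_triangle
    _ ≤ ((ht k i : ℕ) : ℕ∞) + (1 + ((ht k j : ℕ) : ℕ∞)) := by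
        gcongr
    _ = ((ht k i + ht k j + 1 : ℕ) : ℕ∞) := by
        push_cast
        ring

open Classical in
/-- potential used for the lower bound -/
noncomputable def pot (k : ℕ) (u : V) (x : V × Fin ((k + 1) / 2 + 1)) : ℤ :=
  if x.1 = u then - (ht k x.2 : ℤ)
  else if H.Adj u x.1 then 1 + (ht k x.2 : ℤ)
  else 2 + (ht k x.2 : ℤ)

theorem pot_adj (u : V) (x y : V × Fin ((k + 1) / 2 + 1)) (h : (gadget H k).Adj x y) :
    pot H k u y ≤ pot H k u x + 1 := by
  classical
  obtain ⟨x1, x2⟩ := x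
  obtain ⟨y1, y2⟩ := y
  rcases h with ⟨h1, h2, h3, h4⟩ | ⟨h1, h2, h3⟩
  · simp only at h1 h2 h3 h4
    subst h1
    unfold pot
    simp only
    split_ifs <;> omega
  · simp only at h1 h2 h3
    unfold pot
    simp only [h2, h3]
    by_cases hx : x1 = u
    · subst hx
      have hy : y1 ≠ x1 := fun h => H.irrefl (h ▸ h1)
      simp [hy, h1]
    · by_cases hy : y1 = u
      · subst hy
        simp only [hx, if_false, if_true]
        split_ifs <;> norm_num
      · simp only [hx, hy, if_false]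
        split_ifs <;> norm_num

theorem pot_walk (u : V) {x y : V × Fin ((k + 1) / 2 + 1)} (w : (gadget H k).Walk x y) :
    pot H k u y ≤ pot H k u x + w.length := by
  induction w with
  | nil => simp
  | cons h p ih =>
    have := pot_adj H u _ _ h
    simp only [SimpleGraph.Walk.length_cons]
    push_cast
    linarith

theorem le_edist_of (u v : V) (hne : u ≠ v) (h : ¬ H.Adj u v) (i j : Fin ((k + 1) / 2 + 1)) :
    ((ht k i + ht k j + 2 : ℕ) : ℕ∞) ≤ (gadget H k).edist (u, i) (v, j) := by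
  classical
  unfold SimpleGraph.edist
  refine le_iInf fun w => ?_
  have := pot_walk H u w
  have h1 : pot H k u (u, i) = - (ht k i : ℤ) := by simp [pot]
  have h2 : pot H k u (v, j) = 2 + (ht k j : ℤ) := by
    simp [pot, hne.symm, h]
  rw [h1, h2] at this
  norm_cast
  omega


theorem exists_end (hk : 1 ≤ k) (p : Pt (V × Fin ((k + 1) / 2 + 1))) (hp : IsPt (gadget H k) p) :
    ∃ (e : V × Fin ((k + 1) / 2 + 1)) (o : ℝ),
      ((e = p.a ∧ o = p.t) ∨ (e = p.b ∧ o = 1 - p.t)) ∧ e.1 = base p ∧ 0 ≤ o ∧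
        o + (ht k e.2 : ℝ) ≤ (k : ℝ) / 2 := by
  have hk2 : ∀ i, ((ht k i : ℕ) : ℝ) ≤ (k : ℝ) / 2 := by
    intro i
    have h1 : ht k i ≤ k / 2 := min_le_right _ _
    have h2 : ht k i * 2 ≤ k := by omega
    have h3 : ((ht k i : ℕ) : ℝ) * 2 ≤ k := by exact_mod_cast h2
    linarith
  have hk1 : (1 : ℝ) ≤ k := by exact_mod_cast hk
  obtain ⟨a, b, t⟩ := p
  rcases hp with ⟨hadj, ht0, ht1⟩ | ⟨hab, ht0⟩
  · simp only at hadj ht0 ht1
    obtain ⟨a1, a2⟩ := a
    obtain ⟨b1, b2⟩ := b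
    rcases hadj with ⟨h1, h2, h3, h4⟩ | ⟨h1, h2, h3⟩
    · simp only at h1 h2 h3 h4
      subst h1
      have hbase : base (⟨(a1, a2), (a1, b2), t⟩ : Pt (V × Fin ((k + 1) / 2 + 1))) = a1 := by
        simp [base]
      rw [hbase]
      rcases lt_trichotomy (ht k a2) (ht k b2) with hlt | heq | hgt
      · refine ⟨(a1, a2), t, Or.inl ⟨rfl, rfl⟩, rfl, ht0, ?_⟩
        have h5 : ht k b2 = ht k a2 + 1 := by omega
        have h6 := hk2 b2
        rw [h5] at h6
        push_cast at h6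
        show t + ((ht k a2 : ℕ) : ℝ) ≤ (k : ℝ) / 2
        linarith
      · have h7 : ht k a2 * 2 + 1 ≤ k := by
          have ha : ht k a2 = min a2.1 (k / 2) := rfl
          have hb : ht k b2 = min b2.1 (k / 2) := rfl
          have hne : a2.1 ≠ b2.1 := fun h => h2 (Fin.ext h)
          have := a2.2
          have := b2.2
          omega
        have h8 : ((ht k a2 : ℕ) : ℝ) * 2 + 1 ≤ k := by exact_mod_cast h7
        by_cases htt : t ≤ 1 / 2
        · refine ⟨(a1, a2), t, Or.inl ⟨rfl, rfl⟩, rfl, ht0, ?_⟩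
          show t + ((ht k a2 : ℕ) : ℝ) ≤ (k : ℝ) / 2
          linarith
        · refine ⟨(a1, b2), 1 - t, Or.inr ⟨rfl, rfl⟩, rfl, by linarith, ?_⟩
          show 1 - t + ((ht k b2 : ℕ) : ℝ) ≤ (k : ℝ) / 2
          rw [← heq]
          linarith
      · refine ⟨(a1, b2), 1 - t, Or.inr ⟨rfl, rfl⟩, rfl, by linarith, ?_⟩
        have h5 : ht k a2 = ht k b2 + 1 := by omega
        have h6 := hk2 a2
        rw [h5] at h6
        push_cast at h6
        show 1 - t + ((ht k b2 : ℕ) : ℝ) ≤ (k : ℝ) / 2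
        linarith
    · simp only at h1 h2 h3
      by_cases htt : t ≤ 1 / 2
      · refine ⟨(a1, a2), t, Or.inl ⟨rfl, rfl⟩, ?_, ht0, ?_⟩
        · show a1 = if t ≤ 1 / 2 then a1 else b1
          rw [if_pos htt]
        · show t + ((ht k a2 : ℕ) : ℝ) ≤ (k : ℝ) / 2
          rw [h2]
          push_cast
          linarith
      · refine ⟨(b1, b2), 1 - t, Or.inr ⟨rfl, rfl⟩, ?_, by linarith, ?_⟩
        · show b1 = if t ≤ 1 / 2 then a1 else b1
          rw [if_neg htt]
        · show 1 - t + ((ht k b2 : ℕ) : ℝ) ≤ (k : ℝ) / 2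
          rw [h3]
          push_cast
          linarith
  · simp only at hab ht0
    subst hab
    subst ht0
    refine ⟨a, 0, Or.inl ⟨rfl, rfl⟩, ?_, le_rfl, ?_⟩
    · simp [base]
    · have := hk2 a.2
      linarith

theorem ptDist_le_of [DecidableEq V] (hk : 1 ≤ k) (p q : Pt (V × Fin ((k + 1) / 2 + 1)))
    (hp : IsPt (gadget H k) p) (hq : IsPt (gadget H k) q)
    (h : base p = base q ∨ H.Adj (base p) (base q)) :
    ptDist (gadget H k) p q ≤ ENNReal.ofReal ((k : ℝ) + 1) := by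
  obtain ⟨e, o, he, heb, ho, hoe⟩ := exists_end H hk p hp
  obtain ⟨e', o', he', heb', ho', hoe'⟩ := exists_end H hk q hq
  have h1 : (gadget H k).edist e e' ≤ ((ht k e.2 + ht k e'.2 + 1 : ℕ) : ℕ∞) := by
    have := edist_le_of H (k := k) e.1 e'.1 (by rw [heb, heb']; exact h) e.2 e'.2
    simpa using this
  have h2 : ((gadget H k).edist e e' : ℝ≥0∞) ≤ ENNReal.ofReal ((ht k e.2 : ℝ) + ht k e'.2 + 1) := by
    have h3 : ((gadget H k).edist e e' : ℝ≥0∞) ≤
        (((ht k e.2 + ht k e'.2 + 1 : ℕ) : ℕ∞) : ℝ≥0∞) := by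
      exact_mod_cast h1
    refine h3.trans (le_of_eq ?_)
    have h4 : ((ht k e.2 : ℝ) + ht k e'.2 + 1) = ((ht k e.2 + ht k e'.2 + 1 : ℕ) : ℝ) := by
      push_cast; ring
    rw [h4, ENNReal.ofReal_natCast]
    norm_cast
  have h5 : outer (gadget H k) p q ≤
      ENNReal.ofReal o + ((gadget H k).edist e e' : ℝ≥0∞) + ENNReal.ofReal o' := by
    unfold outer
    rcases he with ⟨rfl, rfl⟩ | ⟨rfl, rfl⟩ <;> rcases he' with ⟨rfl, rfl⟩ | ⟨rfl, rfl⟩
    · exact (min_le_left _ _).trans (min_le_left _ _)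
    · exact (min_le_left _ _).trans (min_le_right _ _)
    · exact (min_le_right _ _).trans (min_le_left _ _)
    · exact (min_le_right _ _).trans (min_le_right _ _)
  refine (min_le_right _ _).trans (h5.trans ?_)
  calc ENNReal.ofReal o + ((gadget H k).edist e e' : ℝ≥0∞) + ENNReal.ofReal o'
      ≤ ENNReal.ofReal o + ENNReal.ofReal ((ht k e.2 : ℝ) + ht k e'.2 + 1) +
        ENNReal.ofReal o' := by gcongr
    _ = ENNReal.ofReal (o + ((ht k e.2 : ℝ) + ht k e'.2 + 1) + o') := by
        rw [← ENNReal.ofReal_add ho (by positivity), ← ENNReal.ofReal_add (by positivity) ho']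
    _ ≤ ENNReal.ofReal ((k : ℝ) + 1) := by
        apply ENNReal.ofReal_le_ofReal
        linarith

theorem isPt_tip (hk : 1 ≤ k) (v : V) : IsPt (gadget H k) (tip k v) := by
  left
  refine ⟨?_, ?_, ?_⟩
  · left
    refine ⟨rfl, ?_, ?_, ?_⟩
    · intro h
      have h' : (k + 1) / 2 = (k + 1) / 2 - 1 := congrArg Fin.val h
      omega
    · show min ((k + 1) / 2) (k / 2) ≤ min ((k + 1) / 2 - 1) (k / 2) + 1
      omega
    · show min ((k + 1) / 2 - 1) (k / 2) ≤ min ((k + 1) / 2) (k / 2) + 1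
      omega
  · show (0 : ℝ) ≤ ((k % 2 : ℕ) : ℝ) / 2
    positivity
  · show ((k % 2 : ℕ) : ℝ) / 2 ≤ 1
    have : k % 2 ≤ 1 := by omega
    have h2 : ((k % 2 : ℕ) : ℝ) ≤ 1 := by exact_mod_cast this
    linarith

theorem tip_dist [DecidableEq V] (hk : 1 ≤ k) (u v : V) (hne : u ≠ v) (h : ¬ H.Adj u v) :
    ENNReal.ofReal ((k : ℝ) + 2) ≤ ptDist (gadget H k) (tip k u) (tip k v) := by
  have key : ∀ (i j : Fin ((k + 1) / 2 + 1)) (o o' : ℝ), 0 ≤ o → 0 ≤ o' →
      (k : ℝ) / 2 ≤ o + ht k i → (k : ℝ) / 2 ≤ o' + ht k j →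
      ENNReal.ofReal ((k : ℝ) + 2) ≤
        ENNReal.ofReal o + ((gadget H k).edist (u, i) (v, j) : ℝ≥0∞) + ENNReal.ofReal o' := by
    intro i j o o' ho ho' h1 h2
    have h3 := le_edist_of H (k := k) u v hne h i j
    have h4 : (((ht k i + ht k j + 2 : ℕ) : ℕ∞) : ℝ≥0∞) ≤
        ((gadget H k).edist (u, i) (v, j) : ℝ≥0∞) := by exact_mod_cast h3
    have h5 : (((ht k i + ht k j + 2 : ℕ) : ℕ∞) : ℝ≥0∞) =
        ENNReal.ofReal ((ht k i : ℝ) + ht k j + 2) := by
      have h6 : ((ht k i : ℝ) + ht k j + 2) = ((ht k i + ht k j + 2 : ℕ) : ℝ) := by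
        push_cast; ring
      rw [h6, ENNReal.ofReal_natCast]
      norm_cast
    rw [h5] at h4
    calc ENNReal.ofReal ((k : ℝ) + 2)
        ≤ ENNReal.ofReal (o + ((ht k i : ℝ) + ht k j + 2) + o') := by
          apply ENNReal.ofReal_le_ofReal
          linarith
      _ = ENNReal.ofReal o + ENNReal.ofReal ((ht k i : ℝ) + ht k j + 2) + ENNReal.ofReal o' := by
          rw [← ENNReal.ofReal_add ho (by positivity), ← ENNReal.ofReal_add (by positivity) ho']
      _ ≤ _ := by gcongr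
  have ht1 : (0 : ℝ) ≤ ((k % 2 : ℕ) : ℝ) / 2 := by positivity
  have ht2 : (0 : ℝ) ≤ 1 - ((k % 2 : ℕ) : ℝ) / 2 := by
    have : k % 2 ≤ 1 := by omega
    have h2 : ((k % 2 : ℕ) : ℝ) ≤ 1 := by exact_mod_cast this
    linarith
  have ha : (k : ℝ) / 2 ≤ ((k % 2 : ℕ) : ℝ) / 2 + ht k ⟨(k + 1) / 2, by omega⟩ := by
    have h1 : ht k ⟨(k + 1) / 2, by omega⟩ = min ((k + 1) / 2) (k / 2) := rfl
    have h2 : k ≤ k % 2 + 2 * ht k ⟨(k + 1) / 2, by omega⟩ := by omega
    have h3 : (k : ℝ) ≤ ((k % 2 : ℕ) : ℝ) + 2 * ((ht k ⟨(k + 1) / 2, by omega⟩ : ℕ) : ℝ) := by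
      exact_mod_cast h2
    linarith
  have hb : (k : ℝ) / 2 ≤ (1 - ((k % 2 : ℕ) : ℝ) / 2) + ht k ⟨(k + 1) / 2 - 1, by omega⟩ := by
    have h1 : ht k ⟨(k + 1) / 2 - 1, by omega⟩ = min ((k + 1) / 2 - 1) (k / 2) := rfl
    have h2 : k + k % 2 ≤ 2 + 2 * ht k ⟨(k + 1) / 2 - 1, by omega⟩ := by omega
    have h3 : (k : ℝ) + ((k % 2 : ℕ) : ℝ) ≤
        2 + 2 * ((ht k ⟨(k + 1) / 2 - 1, by omega⟩ : ℕ) : ℝ) := by
      exact_mod_cast h2
    linarith
  unfold ptDist
  refine le_min ?_ ?_
  · have h1 : inner (tip k u) (tip k v) = ⊤ := by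
      unfold inner
      rw [if_neg, if_neg]
      · rintro ⟨h1, -⟩
        exact hne (congrArg Prod.fst h1)
      · rintro ⟨h1, -⟩
        exact hne (congrArg Prod.fst h1)
    rw [h1]
    exact le_top
  · unfold outer
    refine le_min (le_min ?_ ?_) (le_min ?_ ?_)
    · exact key _ _ _ _ ht1 ht1 ha ha
    · exact key _ _ _ _ ht1 ht2 ha hb
    · exact key _ _ _ _ ht2 ht1 hb ha
    · exact key _ _ _ _ ht2 ht2 hb hb

end

section main
variable {V : Type*} [DecidableEq V] (H : SimpleGraph V) {k : ℕ} {r : ℝ}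

theorem far_of_rindep (hk : 1 ≤ k) (hlow : (k : ℝ) + 1 < 2 * r)
    {I : Finset (Pt (V × Fin ((k + 1) / 2 + 1)))} (hI : RIndep (gadget H k) r I) :
    ∀ p ∈ I, ∀ q ∈ I, p ≠ q → ¬ (base p = base q ∨ H.Adj (base p) (base q)) := by
  intro p hp q hq hpq hb
  have h1 := ptDist_le_of H hk p q (hI.1 p hp) (hI.1 q hq) hb
  have h2 := hI.2 p hp q hq hpq
  have h3 := h2.trans h1
  rw [ENNReal.ofReal_le_ofReal_iff (by positivity)] at h3
  linarith

open Classical in
theorem rindep_of_indep (hk : 1 ≤ k) (hup : 2 * r ≤ (k : ℝ) + 2) {S : Finset V}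
    (hS : H.IsIndepSet S) :
    RIndep (gadget H k) r (S.image (tip k)) ∧ (S.image (tip k)).card = S.card := by
  refine ⟨⟨?_, ?_⟩, ?_⟩
  · intro p hp
    obtain ⟨v, -, rfl⟩ := Finset.mem_image.mp hp
    exact isPt_tip H hk v
  · intro p hp q hq hpq
    obtain ⟨u, hu, rfl⟩ := Finset.mem_image.mp hp
    obtain ⟨v, hv, rfl⟩ := Finset.mem_image.mp hq
    have hne : u ≠ v := fun h => hpq (by rw [h])
    have h1 := tip_dist H hk u v hne (hS hu hv hne)
    refine le_trans ?_ h1
    exact ENNReal.ofReal_le_ofReal hup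
  · apply Finset.card_image_of_injective
    intro u v huv
    exact congrArg (fun p => p.a.1) huv

end main

/-! ### transport along a bijection of the vertices -/

/-- rename the vertices in the description of a point -/
def mapPt {V W : Type*} (e : V ≃ W) (p : Pt V) : Pt W := ⟨e p.a, e p.b, p.t⟩

theorem mapPt_injective {V W : Type*} (e : V ≃ W) : Function.Injective (mapPt e) := by
  intro p q h
  have h1 := congrArg Pt.a h
  have h2 := congrArg Pt.b h
  have h3 := congrArg Pt.t h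
  exact Pt.ext (e.injective h1) (e.injective h2) h3

theorem edist_map_le {V W : Type*} (e : V ≃ W) (G : SimpleGraph V) (G' : SimpleGraph W)
    (h : ∀ a b, G.Adj a b → G'.Adj (e a) (e b)) (u v : V) :
    G'.edist (e u) (e v) ≤ G.edist u v := by
  refine le_iInf fun w => ?_
  have := (w.map (⟨e, fun {a b} => h a b⟩ : G →g G')).edist_le
  rwa [SimpleGraph.Walk.length_map] at this

theorem edist_comap {V W : Type*} (e : V ≃ W) (G : SimpleGraph W) (u v : V) :
    (G.comap e).edist u v = G.edist (e u) (e v) := by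
  apply le_antisymm
  · have := edist_map_le e.symm G (G.comap e) (by
      intro a b hab
      rw [SimpleGraph.comap_adj, e.apply_symm_apply, e.apply_symm_apply]
      exact hab) (e u) (e v)
    rwa [e.symm_apply_apply, e.symm_apply_apply] at this
  · exact edist_map_le e (G.comap e) G (fun a b hab => hab) u v

theorem ptDist_comap {V W : Type*} [DecidableEq V] [DecidableEq W] (e : V ≃ W)
    (G : SimpleGraph W) (p q : Pt V) :
    ptDist (G.comap e) p q = ptDist G (mapPt e p) (mapPt e q) := by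
  unfold ptDist outer inner mapPt
  simp only [edist_comap, e.injective.eq_iff]

theorem isPt_comap {V W : Type*} (e : V ≃ W) (G : SimpleGraph W) (p : Pt V) :
    IsPt (G.comap e) p ↔ IsPt G (mapPt e p) := by
  unfold IsPt mapPt
  simp only [SimpleGraph.comap_adj, e.injective.eq_iff]

open Classical in
theorem rIndep_comap {V W : Type*} [DecidableEq V] [DecidableEq W] (e : V ≃ W) (G : SimpleGraph W) (r : ℝ)
    (I : Finset (Pt V)) : RIndep (G.comap e) r I ↔ RIndep G r (I.image (mapPt e)) := by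
  unfold RIndep
  constructor
  · rintro ⟨h1, h2⟩
    refine ⟨?_, ?_⟩
    · intro p hp
      obtain ⟨p', hp', rfl⟩ := Finset.mem_image.mp hp
      exact (isPt_comap e G p').1 (h1 p' hp')
    · intro p hp q hq hpq
      obtain ⟨p', hp', rfl⟩ := Finset.mem_image.mp hp
      obtain ⟨q', hq', rfl⟩ := Finset.mem_image.mp hq
      rw [← ptDist_comap]
      exact h2 p' hp' q' hq' (fun h => hpq (by rw [h]))
  · rintro ⟨h1, h2⟩
    refine ⟨?_, ?_⟩
    · intro p hp
      exact (isPt_comap e G p).2 (h1 _ (Finset.mem_image_of_mem _ hp))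
    · intro p hp q hq hpq
      rw [ptDist_comap]
      exact h2 _ (Finset.mem_image_of_mem _ hp) _ (Finset.mem_image_of_mem _ hq)
        (fun h => hpq (mapPt_injective e h))

end Pool.Agent.MP10a207
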