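import Mathlib

/-!
Continuous graphs and `r`-independent sets: basic definitions.
-/

namespace Pool.Agent.MP10a207

open scoped ENNReal

/-- A description of a point of the continuous graph: the point of the edge `ab` at distance `t`
from `a` (and `1 - t` from `b`). -/
@[ext]
structure Pt (V : Type*) where
  a : V
  b : V
  t : ℝ

/-- `p` describes a point of the continuous graph of `G`: either `ab` is an edge and
`t ∈ [0,1]`, or `a = b`, `t = 0` and `p` is the vertex `a` (this allows isolated vertices). -/
def IsPt {V : Type*} (G : SimpleGraph V) (p : Pt V) : Prop :=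
  (G.Adj p.a p.b ∧ 0 ≤ p.t ∧ p.t ≤ 1) ∨ (p.a = p.b ∧ p.t = 0)

/-- Length of the segment joining `p` and `q` inside a common edge (`⊤` if there is none). -/
noncomputable def inner {V : Type*} [DecidableEq V] (p q : Pt V) : ℝ≥0∞ :=
  if p.a = q.a ∧ p.b = q.b then ENNReal.ofReal |p.t - q.t|
  else if p.a = q.b ∧ p.b = q.a then ENNReal.ofReal |p.t - (1 - q.t)|
  else ⊤

/-- Length of a shortest path from `p` to `q` that leaves the edge of `p` through an endpoint and
enters the edge of `q` through an endpoint. -/
noncomputable def outer {V : Type*} (G : SimpleGraph V) (p q : Pt V) : ℝ≥0∞ :=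
  min
    (min (ENNReal.ofReal p.t + (G.edist p.a q.a : ℝ≥0∞) + ENNReal.ofReal q.t)
      (ENNReal.ofReal p.t + (G.edist p.a q.b : ℝ≥0∞) + ENNReal.ofReal (1 - q.t)))
    (min (ENNReal.ofReal (1 - p.t) + (G.edist p.b q.a : ℝ≥0∞) + ENNReal.ofReal q.t)
      (ENNReal.ofReal (1 - p.t) + (G.edist p.b q.b : ℝ≥0∞) + ENNReal.ofReal (1 - q.t)))

/-- The distance of two points of the continuous graph: length of a shortest path along the
edges, `⊤` if there is no path. -/
noncomputable def ptDist {V : Type*} [DecidableEq V] (G : SimpleGraph V) (p q : Pt V) : ℝ≥0∞ :=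
  min (inner p q) (outer G p q)

/-- `I` is an `r`-independent set of the continuous graph of `G`. -/
def RIndep {V : Type*} [DecidableEq V] (G : SimpleGraph V) (r : ℝ) (I : Finset (Pt V)) : Prop :=
  (∀ p ∈ I, IsPt G p) ∧ ∀ p ∈ I, ∀ q ∈ I, p ≠ q → ENNReal.ofReal (2 * r) ≤ ptDist G p q

end Pool.Agent.MP10a207
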