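import Pool.Agent.MP10a207.Problem
import Pool.Agent.TM2Lib.PolyNat
import Pool.Agent.TM2Lib.Unary
import Pool.Agent.GridW.Parse

/-!
# Self-reduction: if `P = NP` then a maximum independent set can be computed in polynomial time
-/

set_option linter.unusedSectionVars false

namespace Pool.Agent.MP10a207

open Pool.Agent.TM2Lib Finset

noncomputable section

namespace Sr

/-- rows, mask, bound -/
abbrev X : Type := List (List Bool) × (List Bool × Un)

/-- entry of a matrix -/
def ent (A : List (List Bool)) (i j : ℕ) : Bool := (A.getD i []).getD j false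

/-- `y` is the indicator of an independent subset of the mask of size at least `k` -/
def chk (a : X) (y : List Bool) : Bool :=
  ((List.range a.1.length).all fun i => !(y.getD i false) ||
    (a.2.1.getD i false && (List.range a.1.length).all fun j =>
      !(y.getD j false) || !(ent a.1 i j))) &&
    decide (a.2.2.n ≤ ((List.range a.1.length).filter fun i => y.getD i false).length)

/-! ### polynomial time for ranges -/

section ranges

variable {α β : Type} [Enc α] [Enc β]

theorem range_all {n : α → ℕ} {h : α → ℕ → Bool} (hn : UPoly n)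
    (hh : TM2Lib.Poly (fun p : α × Un => h p.1 p.2.n)) :
    TM2Lib.Poly (fun a => (List.range (n a)).all (h a)) := by
  refine (TM2Lib.Poly.all (h := fun p : α × Un => h p.1 p.2.n) (TM2Lib.Poly.range hn)
    hh).of_eq fun a => ?_
  rw [List.all_map]
  rfl

theorem range_filter {n : α → ℕ} {h : α → ℕ → Bool} (hn : UPoly n)
    (hh : TM2Lib.Poly (fun p : α × Un => h p.1 p.2.n)) :
    TM2Lib.Poly (fun a => ((List.range (n a)).filter (h a)).map Un.mk) := by
  refine (TM2Lib.Poly.filter (h := fun p : α × Un => h p.1 p.2.n) (TM2Lib.Poly.range hn)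
    hh).of_eq fun a => ?_
  rw [List.filter_map]
  rfl

theorem range_count {n : α → ℕ} {h : α → ℕ → Bool} (hn : UPoly n)
    (hh : TM2Lib.Poly (fun p : α × Un => h p.1 p.2.n)) :
    UPoly (fun a => ((List.range (n a)).filter (h a)).length) :=
  (UPoly.length (range_filter hn hh)).of_eq fun a => by rw [List.length_map]

theorem range_map {n : α → ℕ} {h : α → ℕ → β} (hn : UPoly n)
    (hh : TM2Lib.Poly (fun p : α × Un => h p.1 p.2.n)) :
    TM2Lib.Poly (fun a => (List.range (n a)).map (h a)) :=
  TM2Lib.Poly.tab (h := fun p : α × Un => h p.1 p.2.n) hn hh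

theorem poly_ent {A : α → List (List Bool)} {i j : α → ℕ} (hA : TM2Lib.Poly A) (hi : UPoly i)
    (hj : UPoly j) : TM2Lib.Poly (fun a => ent (A a) (i a) (j a)) :=
  TM2Lib.Poly.getD (TM2Lib.Poly.getD hA hi (TM2Lib.Poly.const _)) hj (TM2Lib.Poly.const _)

end ranges

theorem poly_chk : TM2Lib.Poly (fun p : X × List Bool => chk p.1 p.2) := by
  unfold chk
  have hn : UPoly (fun p : X × List Bool => p.1.1.length) :=
    UPoly.length TM2Lib.Poly.id.fst'.fst'
  refine TM2Lib.Poly.and ?_ ?_
  · refine range_all (h := fun (p : X × List Bool) i => !(p.2.getD i false) ||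
      (p.1.2.1.getD i false && (List.range p.1.1.length).all fun j =>
        !(p.2.getD j false) || !(ent p.1.1 i j))) hn ?_
    have hy : TM2Lib.Poly (fun q : (X × List Bool) × Un => q.1.2.getD q.2.n false) :=
      TM2Lib.Poly.getD TM2Lib.Poly.id.fst'.snd' (UPoly.n.comp TM2Lib.Poly.snd)
        (TM2Lib.Poly.const _)
    have hm : TM2Lib.Poly (fun q : (X × List Bool) × Un => q.1.1.2.1.getD q.2.n false) :=
      TM2Lib.Poly.getD TM2Lib.Poly.id.fst'.fst'.snd'.fst' (UPoly.n.comp TM2Lib.Poly.snd)
        (TM2Lib.Poly.const _)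
    refine TM2Lib.Poly.or hy.not (TM2Lib.Poly.and hm ?_)
    refine range_all (h := fun (q : (X × List Bool) × Un) j =>
      !(q.1.2.getD j false) || !(ent q.1.1.1 q.2.n j)) (hn.comp TM2Lib.Poly.fst) ?_
    have hy2 : TM2Lib.Poly (fun q : ((X × List Bool) × Un) × Un =>
        q.1.1.2.getD q.2.n false) :=
      TM2Lib.Poly.getD TM2Lib.Poly.id.fst'.fst'.snd' (UPoly.n.comp TM2Lib.Poly.snd)
        (TM2Lib.Poly.const _)
    exact TM2Lib.Poly.or hy2.not (poly_ent TM2Lib.Poly.id.fst'.fst'.fst'.fst'
      (UPoly.n.comp TM2Lib.Poly.id.fst'.snd') (UPoly.n.comp TM2Lib.Poly.snd)).not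
  · refine UPoly.le (UPoly.n.comp TM2Lib.Poly.id.fst'.snd'.snd') ?_
    refine range_count (h := fun (p : X × List Bool) i => p.2.getD i false) hn ?_
    exact TM2Lib.Poly.getD TM2Lib.Poly.id.fst'.snd' (UPoly.n.comp TM2Lib.Poly.snd)
        (TM2Lib.Poly.const _)

/-! ### decoding -/

/-- decode an instance -/
def decX (d : D) : X :=
  ((GW.toL (GW.dhd d)).map (fun r => (GW.toL r).map GW.decBool),
    ((GW.toL (GW.dhd (GW.dtl d))).map GW.decBool, ⟨(GW.toL (GW.dtl (GW.dtl d))).length⟩))

theorem decBools_enc (l : List Bool) : (GW.toL (enc l)).map GW.decBool = l := by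
  rw [GW.toL_enc_list, List.map_map]
  have : (GW.decBool ∘ enc : Bool → Bool) = id := funext fun b => GW.decBool_enc b
  rw [this, List.map_id]

theorem decX_enc (a : X) : decX (enc a) = a := by
  obtain ⟨A, m, k⟩ := a
  have e1 : (enc ((A, (m, k)) : X) : D) = D.cons (enc A) (D.cons (enc m) (enc k)) := rfl
  unfold decX
  rw [e1, GW.dhd_cons, GW.dtl_cons, GW.dhd_cons, GW.dtl_cons]
  have e2 : (GW.toL (enc A)).map (fun r => (GW.toL r).map GW.decBool) = A := by
    rw [GW.toL_enc_list, List.map_map]
    have : ((fun r => (GW.toL r).map GW.decBool) ∘ enc : List Bool → List Bool) = id :=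
      funext fun l => decBools_enc l
    rw [this, List.map_id]
  have e3 : (GW.toL (enc k)).length = k.n := by
    have : (enc k : D) = enc (un k.n) := rfl
    rw [this, GW.toL_enc_list, List.length_map]
    simp [un]
  rw [e2, decBools_enc, e3]

theorem poly_decX : TM2Lib.Poly decX := by
  have hB : ∀ {f : D → D}, TM2Lib.Poly f →
      TM2Lib.Poly (fun d => (GW.toL (f d)).map GW.decBool) := fun {f} hf =>
    TM2Lib.Poly.map (h := fun p : D × D => GW.decBool p.2) (GW.poly_toL hf)
      (GW.poly_decBool TM2Lib.Poly.snd)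
  refine TM2Lib.Poly.pair ?_ (TM2Lib.Poly.pair (hB (GW.poly_dhd (GW.poly_dtl TM2Lib.Poly.id))) ?_)
  · exact TM2Lib.Poly.map (h := fun p : D × D => (GW.toL p.2).map GW.decBool)
      (GW.poly_toL (GW.poly_dhd TM2Lib.Poly.id))
      (TM2Lib.Poly.map (h := fun q : (D × D) × D => GW.decBool q.2)
        (GW.poly_toL TM2Lib.Poly.snd) (GW.poly_decBool TM2Lib.Poly.snd))
  · exact UPoly.length (GW.poly_toL (GW.poly_dtl (GW.poly_dtl TM2Lib.Poly.id)))

/-! ### the language -/

/-- the language -/
def Lg : Set (List Bool) :=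
  {x | ∃ y : List Bool, y.length ≤ (Polynomial.X : Polynomial ℕ).eval x.length ∧
    chk (decX (GW.parse x)) y = true}

theorem inNP_Lg : InNP Lg := by
  refine ⟨fun z => chk (decX (GW.parse z.1)) z.2, Polynomial.X, ?_, fun x => Iff.rfl⟩
  have h1 : TM2Lib.Poly (fun z : List Bool × List Bool => chk (decX (GW.parse z.1)) z.2) :=
    TM2Lib.Poly.comp (g := fun p : X × List Bool => chk p.1 p.2) poly_chk
      (TM2Lib.Poly.pair (poly_decX.comp (GW.poly_parse TM2Lib.Poly.fst)) TM2Lib.Poly.snd)
  refine Comp.to_tm (GW.comp_bool (Comp.congr h1 (fun z => ?_) fun z => rfl))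
  show _ = D.encD (D.cons (D.ofBits z.1) (D.ofBits z.2))
  rw [GW.ofBits_eq_enc, GW.ofBits_eq_enc]
  rfl

theorem getD_map_range (n : ℕ) (f : ℕ → Bool) (i : ℕ) (hi : i < n) :
    ((List.range n).map f).getD i false = f i := by
  rw [List.getD_eq_getElem _ _ (by simpa using hi)]
  simp

theorem chk_trunc (a : X) (y : List Bool) :
    chk a ((List.range a.1.length).map fun i => y.getD i false) = chk a y := by
  have key : ∀ i ∈ List.range a.1.length,
      ((List.range a.1.length).map fun i => y.getD i false).getD i false = y.getD i false :=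
    fun i hi => getD_map_range _ _ i (List.mem_range.1 hi)
  unfold chk
  have e1 : ((List.range a.1.length).filter fun i =>
      ((List.range a.1.length).map fun i => y.getD i false).getD i false) =
      (List.range a.1.length).filter fun i => y.getD i false :=
    List.filter_congr key
  rw [e1]
  congr 1
  rw [Bool.eq_iff_iff, List.all_eq_true, List.all_eq_true]
  refine forall₂_congr fun i hi => ?_
  rw [key i hi]
  have e2 : ((List.range a.1.length).all fun j =>
      !(((List.range a.1.length).map fun i => y.getD i false).getD j false) ||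
        !(ent a.1 i j)) =
      (List.range a.1.length).all fun j => !(y.getD j false) || !(ent a.1 i j) := by
    rw [Bool.eq_iff_iff, List.all_eq_true, List.all_eq_true]
    refine forall₂_congr fun j hj => ?_
    rw [key j hj]
  rw [e2]

/-- the decision procedure -/
theorem exists_dec (h : PEqNP) : ∃ dec : X → Bool, TM2Lib.Poly dec ∧
    ∀ a, dec a = true ↔ ∃ y, chk a y = true := by
  obtain ⟨f, ⟨hf⟩, hfL⟩ := h Lg inNP_Lg
  refine ⟨fun a => f (D.encD (enc a)), ?_, ?_⟩
  · have h1 : Comp (id : List Bool → List Bool) (fun x => [f x]) := Comp.of_tm hf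
    exact Comp.reindex (GW.comp_bool' h1) (fun a : X => D.encD (enc a))
  · intro a
    rw [← hfL]
    constructor
    · rintro ⟨y, -, hy⟩
      rw [GW.parse_encD, decX_enc] at hy
      exact ⟨y, hy⟩
    · rintro ⟨y, hy⟩
      refine ⟨(List.range a.1.length).map fun i => y.getD i false, ?_, ?_⟩
      · rw [List.length_map, List.length_range, Polynomial.eval_X]
        have h1 := length_lt_sz a.1
        have h2 : sz a = sz a.1 + sz a.2 + 1 := sz_pair a.1 a.2
        have h3 : sz a = (D.encD (enc a)).length := rfl
        omega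
      · rw [GW.parse_encD, decX_enc, chk_trunc]
        exact hy

/-! ### semantics -/

section sem

variable {n : ℕ}

/-- the set of a mask -/
def fin (n : ℕ) (m : List Bool) : Finset (Fin n) := univ.filter fun i => m.getD i false = true

theorem mem_fin (m : List Bool) (i : Fin n) : i ∈ fin n m ↔ m.getD i false = true := by
  simp [fin]

theorem length_filter_range (n : ℕ) (m : List Bool) :
    ((List.range n).filter fun i => m.getD i false).length = (fin n m).card := by
  have h1 : (List.range n) = (List.finRange n).map Fin.val := by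
    apply List.ext_getElem <;> simp
  have h2 : ((List.range n).filter fun i => m.getD i false) =
      ((List.finRange n).filter fun i : Fin n => m.getD i false).map Fin.val := by
    rw [h1, List.filter_map]
    rfl
  rw [h2, List.length_map, ← List.toFinset_card_of_nodup
    (List.Nodup.filter _ (List.nodup_finRange n))]
  congr 1
  ext i
  rw [List.mem_toFinset, List.mem_filter, mem_fin]
  simp

theorem fin_map (p : Fin n → Prop) [DecidablePred p] :
    fin n ((List.range n).map fun i => decide (∃ h : i < n, p ⟨i, h⟩)) =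
      univ.filter p := by
  ext i
  rw [mem_fin, getD_map_range _ _ _ i.2, decide_eq_true_iff]
  simp

variable (H : SimpleGraph (Fin n))

theorem length_adjRows : (adjRows ⟨n, H⟩).length = n := by simp [adjRows]

theorem ent_adjRows (i j : Fin n) : ent (adjRows ⟨n, H⟩) i j = true ↔ H.Adj i j := by
  classical
  have key : ∀ {β : Type} (f : Fin n → β) (i : Fin n) (d : β),
      (List.ofFn f).getD i d = f i := by
    intro β f i d
    rw [List.getD_eq_getElem _ _ (by rw [List.length_ofFn]; exact i.2), List.getElem_ofFn]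
  unfold ent adjRows
  rw [key, key, decide_eq_true_iff]

theorem chk_iff (m : List Bool) (k : ℕ) (y : List Bool) :
    chk (adjRows ⟨n, H⟩, (m, ⟨k⟩)) y = true ↔
      fin n y ⊆ fin n m ∧ H.IsIndepSet (fin n y : Set (Fin n)) ∧ k ≤ (fin n y).card := by
  unfold chk
  simp only [length_adjRows]
  rw [Bool.and_eq_true, decide_eq_true_iff, length_filter_range, ← and_assoc]
  apply and_congr_left
  intro _
  rw [List.all_eq_true]
  constructor
  · intro h
    have h' : ∀ i : Fin n, y.getD i false = true → m.getD i false = true ∧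
        ∀ j : Fin n, y.getD j false = true → ¬ H.Adj i j := by
      intro i hi
      have h1 := h i (List.mem_range.2 i.2)
      rw [hi, Bool.not_true, Bool.false_or, Bool.and_eq_true, List.all_eq_true] at h1
      refine ⟨h1.1, fun j hj hadj => ?_⟩
      have h2 := h1.2 j (List.mem_range.2 j.2)
      rw [hj, Bool.not_true, Bool.false_or, (ent_adjRows H i j).2 hadj] at h2
      exact Bool.false_ne_true h2
    constructor
    · intro i hi
      rw [mem_fin] at hi ⊢
      exact (h' i hi).1
    · intro i hi j hj _
      rw [Finset.mem_coe, mem_fin] at hi hj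
      exact (h' i hi).2 j hj
  · rintro ⟨h1, h2⟩ i hi
    by_cases hy : y.getD i false = true
    · rw [hy, Bool.not_true, Bool.false_or, Bool.and_eq_true, List.all_eq_true]
      have hin : i < n := List.mem_range.1 hi
      have hif : (⟨i, hin⟩ : Fin n) ∈ fin n y := (mem_fin y ⟨i, hin⟩).2 hy
      refine ⟨(mem_fin m ⟨i, hin⟩).1 (h1 hif), ?_⟩
      intro j hj
      have hjn : j < n := List.mem_range.1 hj
      by_cases hyj : y.getD j false = true
      · rw [hyj, Bool.not_true, Bool.false_or, Bool.not_eq_true']
        rw [← Bool.not_eq_true]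
        intro hadj
        have hadj' := (ent_adjRows H ⟨i, hin⟩ ⟨j, hjn⟩).1 hadj
        exact h2 (Finset.mem_coe.2 hif) (Finset.mem_coe.2 ((mem_fin y ⟨j, hjn⟩).2 hyj))
          hadj'.ne hadj'
      · rw [Bool.not_eq_true] at hyj
        rw [hyj]
        rfl
    · rw [Bool.not_eq_true] at hy
      rw [hy]
      rfl

/-- the mask contains an independent set of size at least `k` -/
def PF (k : ℕ) (M : Finset (Fin n)) : Prop :=
  ∃ I : Finset (Fin n), I ⊆ M ∧ H.IsIndepSet (I : Set (Fin n)) ∧ k ≤ I.card

theorem exists_chk_iff (m : List Bool) (k : ℕ) :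
    (∃ y, chk (adjRows ⟨n, H⟩, (m, ⟨k⟩)) y = true) ↔ PF H k (fin n m) := by
  classical
  constructor
  · rintro ⟨y, hy⟩
    exact ⟨fin n y, (chk_iff H m k y).1 hy⟩
  · rintro ⟨I, hI⟩
    refine ⟨(List.range n).map fun i => decide (∃ h : i < n, (⟨i, h⟩ : Fin n) ∈ I), ?_⟩
    rw [chk_iff, fin_map (fun i => i ∈ I)]
    have : (univ.filter fun i => i ∈ I) = I := by
      ext i
      simp
    rw [this]
    exact hI

theorem PF_mono {k : ℕ} {M M' : Finset (Fin n)} (h : M ⊆ M') (hM : PF H k M) : PF H k M' := by
  obtain ⟨I, hI, h1⟩ := hM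
  exact ⟨I, hI.trans h, h1⟩

theorem PF_univ (k : ℕ) : PF H k univ ↔ k ≤ H.indepNum := by
  constructor
  · rintro ⟨I, -, h1, h2⟩
    exact h2.trans h1.card_le_indepNum
  · intro h
    obtain ⟨s, hs⟩ := H.exists_isNIndepSet_indepNum
    exact ⟨s, Finset.subset_univ _, hs.isIndepSet, by rw [hs.card_eq]; exact h⟩

end sem

/-! ### the algorithm -/

section alg

variable (dec : X → Bool)

/-- everything -/
def full (A : List (List Bool)) : List Bool := A.map fun _ => true

/-- remove a vertex -/
def del (A : List (List Bool)) (m : List Bool) (i : ℕ) : List Bool :=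
  (List.range A.length).map fun j => m.getD j false && !(decide (j = i))

/-- the independence number -/
def alp (A : List (List Bool)) : ℕ :=
  ((List.range A.length).filter fun k => dec (A, (full A, ⟨k + 1⟩))).length

/-- one step -/
def stp (A : List (List Bool)) (m : List Bool) (i : ℕ) : List Bool :=
  if dec (A, (del A m i, ⟨alp dec A⟩)) then del A m i else m

/-- the final mask -/
def fm (A : List (List Bool)) : List Bool := (List.range A.length).foldl (stp dec A) (full A)

/-- the output -/
def out (A : List (List Bool)) : List ℕ :=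
  (List.range A.length).filter fun i => (fm dec A).getD i false

variable {dec}

theorem poly_full {α : Type} [Enc α] {A : α → List (List Bool)} (hA : TM2Lib.Poly A) :
    TM2Lib.Poly (fun a => full (A a)) :=
  TM2Lib.Poly.map (h := fun _ : α × List Bool => true) hA (TM2Lib.Poly.const _)

theorem poly_del {α : Type} [Enc α] {A : α → List (List Bool)} {m : α → List Bool} {i : α → ℕ}
    (hA : TM2Lib.Poly A) (hm : TM2Lib.Poly m) (hi : UPoly i) :
    TM2Lib.Poly (fun a => del (A a) (m a) (i a)) := by
  refine range_map (h := fun a j => (m a).getD j false && !(decide (j = i a)))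
    (UPoly.length hA) ?_
  exact TM2Lib.Poly.and (TM2Lib.Poly.getD (hm.comp TM2Lib.Poly.fst)
    (UPoly.n.comp TM2Lib.Poly.snd) (TM2Lib.Poly.const _))
    (UPoly.eq (UPoly.n.comp TM2Lib.Poly.snd) (hi.comp TM2Lib.Poly.fst)).not

theorem upoly_alp (hd : TM2Lib.Poly dec) {α : Type} [Enc α] {A : α → List (List Bool)}
    (hA : TM2Lib.Poly A) : UPoly (fun a => alp dec (A a)) := by
  refine range_count (h := fun a k => dec (A a, (full (A a), ⟨k + 1⟩))) (UPoly.length hA) ?_
  have h1 : UPoly (fun p : α × Un => p.2.n + 1) :=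
    (UPoly.n.comp TM2Lib.Poly.snd).add (UPoly.const 1)
  exact hd.comp ((hA.comp TM2Lib.Poly.fst).pair
    (((poly_full hA).comp TM2Lib.Poly.fst).pair h1))

theorem poly_stp (hd : TM2Lib.Poly dec) {α : Type} [Enc α] {A : α → List (List Bool)}
    {m : α → List Bool} {i : α → ℕ} (hA : TM2Lib.Poly A) (hm : TM2Lib.Poly m) (hi : UPoly i) :
    TM2Lib.Poly (fun a => stp dec (A a) (m a) (i a)) := by
  have h1 := poly_del hA hm hi
  exact TM2Lib.Poly.ite (hd.comp (hA.pair (h1.pair (upoly_alp hd hA)))) h1 hm

theorem sz_bools (l : List Bool) : sz l ≤ 4 * l.length + 1 := by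
  induction l with
  | nil => simp
  | cons b l ih =>
    rw [sz_cons, List.length_cons]
    have := TM2Lib.Poly.sz_bool_le b
    omega

theorem length_foldl (A : List (List Bool)) (l : List ℕ) : ∀ m : List Bool,
    m.length = A.length → (l.foldl (stp dec A) m).length = A.length := by
  induction l with
  | nil => intro m hm; exact hm
  | cons i l ih =>
    intro m hm
    rw [List.foldl_cons]
    apply ih
    unfold stp
    split_ifs
    · simp [del]
    · exact hm

theorem poly_fm (hd : TM2Lib.Poly dec) : TM2Lib.Poly (fm dec) := by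
  have h1 := TM2Lib.Poly.foldl (α := List (List Bool)) (σ := List Bool)
    (f := fun A => (List.range A.length).map Un.mk)
    (g := full) (h := fun p : List (List Bool) × (List Bool × Un) => stp dec p.1 p.2.1 p.2.2.n)
    (TM2Lib.Poly.range (UPoly.length TM2Lib.Poly.id)) (poly_full TM2Lib.Poly.id)
    (poly_stp hd TM2Lib.Poly.fst TM2Lib.Poly.id.snd'.fst'
      (UPoly.n.comp TM2Lib.Poly.id.snd'.snd')) (4 * Polynomial.X + 1) (by
      intro A k
      rw [← List.map_take, List.foldl_map]
      have h2 := length_foldl (dec := dec) A ((List.range A.length).take k) (full A)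
        (by simp [full])
      have h3 := sz_bools (((List.range A.length).take k).foldl (stp dec A) (full A))
      rw [h2] at h3
      have h4 := length_lt_sz A
      simp only [Polynomial.eval_add, Polynomial.eval_mul, Polynomial.eval_ofNat,
        Polynomial.eval_X, Polynomial.eval_one]
      refine h3.trans ?_
      omega)
  refine h1.of_eq fun A => ?_
  rw [List.foldl_map]
  rfl

theorem poly_out (hd : TM2Lib.Poly dec) : TM2Lib.Poly (out dec) := by
  have h1 : TM2Lib.Poly (fun A => ((List.range A.length).filter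
      fun i => (fm dec A).getD i false).map Un.mk) :=
    range_filter (h := fun A i => (fm dec A).getD i false) (UPoly.length TM2Lib.Poly.id)
      (TM2Lib.Poly.getD ((poly_fm hd).comp TM2Lib.Poly.fst) (UPoly.n.comp TM2Lib.Poly.snd)
        (TM2Lib.Poly.const _))
  have h2 : TM2Lib.Poly (fun p : List (List Bool) × Un => p.2.n) :=
    TM2Lib.Poly.NPC.of_un (UPoly.list (UPoly.n.comp TM2Lib.Poly.snd))
  refine (TM2Lib.Poly.map (h := fun p : List (List Bool) × Un => p.2.n) h1 h2).of_eq fun A => ?_
  rw [List.map_map]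
  exact List.map_id _

end alg

/-! ### correctness -/

section correct

variable {dec : X → Bool} (hdec : ∀ a, dec a = true ↔ ∃ y, chk a y = true) {n : ℕ}
  (H : SimpleGraph (Fin n))

theorem fin_full : fin n (full (adjRows ⟨n, H⟩)) = univ := by
  ext i
  rw [mem_fin]
  unfold full
  rw [List.getD_eq_getElem _ _ (by rw [List.length_map, length_adjRows]; exact i.2)]
  simp

theorem fin_del (m : List Bool) (i : ℕ) (hi : i < n) :
    fin n (del (adjRows ⟨n, H⟩) m i) = (fin n m).erase ⟨i, hi⟩ := by
  ext j
  rw [mem_fin]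
  unfold del
  rw [length_adjRows, getD_map_range _ _ _ j.2, Finset.mem_erase, mem_fin, Bool.and_eq_true,
    Bool.not_eq_true', decide_eq_false_iff_not, and_comm]
  have : (j : ℕ) = i ↔ j = ⟨i, hi⟩ := ⟨fun h => Fin.ext h, fun h => congrArg Fin.val h⟩
  rw [this]

include hdec

theorem alp_eq : alp dec (adjRows ⟨n, H⟩) = H.indepNum := by
  unfold alp
  rw [length_adjRows]
  have h1 : (List.range n).filter (fun k => dec (adjRows ⟨n, H⟩, (full (adjRows ⟨n, H⟩), ⟨k + 1⟩))) =
      (List.range n).filter (fun k => decide (k < H.indepNum)) := by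
    apply List.filter_congr
    intro k _
    rw [Bool.eq_iff_iff, hdec, exists_chk_iff, fin_full, PF_univ, decide_eq_true_iff]
    exact Iff.rfl
  rw [h1]
  have h2 : H.indepNum ≤ n := by
    obtain ⟨s, hs⟩ := H.exists_isNIndepSet_indepNum
    rw [← hs.card_eq]
    exact (Finset.card_le_univ s).trans (by simp)
  have key : ∀ m a : ℕ, ((List.range m).filter (fun k => decide (k < a))).length = min m a := by
    intro m a
    induction m with
    | zero => simp
    | succ m ih =>
      rw [List.range_succ, List.filter_append, List.length_append, ih]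
      by_cases h : m < a
      · rw [List.filter_cons_of_pos (by simpa using h)]
        simp only [List.filter_nil, List.length_cons, List.length_nil]
        omega
      · rw [List.filter_cons_of_neg (by simpa using h)]
        simp only [List.filter_nil, List.length_nil]
        omega
  rw [key]
  omega

theorem fin_stp (m : List Bool) (i : ℕ) (hi : i < n) :
    (PF H H.indepNum ((fin n m).erase ⟨i, hi⟩) ∧
      fin n (stp dec (adjRows ⟨n, H⟩) m i) = (fin n m).erase ⟨i, hi⟩) ∨
    (¬ PF H H.indepNum ((fin n m).erase ⟨i, hi⟩) ∧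
      fin n (stp dec (adjRows ⟨n, H⟩) m i) = fin n m) := by
  unfold stp
  rw [alp_eq hdec]
  by_cases h : dec (adjRows ⟨n, H⟩, (del (adjRows ⟨n, H⟩) m i, ⟨H.indepNum⟩)) = true
  · left
    rw [if_pos h, fin_del H m i hi]
    rw [hdec, exists_chk_iff, fin_del H m i hi] at h
    exact ⟨h, rfl⟩
  · right
    rw [if_neg h]
    rw [hdec, exists_chk_iff, fin_del H m i hi] at h
    exact ⟨h, rfl⟩

theorem foldl_spec (l : List ℕ) : ∀ (m : List Bool), (∀ i ∈ l, i < n) →
    PF H H.indepNum (fin n m) →
    fin n (l.foldl (stp dec (adjRows ⟨n, H⟩)) m) ⊆ fin n m ∧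
    PF H H.indepNum (fin n (l.foldl (stp dec (adjRows ⟨n, H⟩)) m)) ∧
    ∀ i : Fin n, (i : ℕ) ∈ l → i ∈ fin n (l.foldl (stp dec (adjRows ⟨n, H⟩)) m) →
      ¬ PF H H.indepNum ((fin n (l.foldl (stp dec (adjRows ⟨n, H⟩)) m)).erase i) := by
  induction l with
  | nil =>
    intro m _ hm
    refine ⟨Finset.Subset.refl _, hm, ?_⟩
    intro i hi
    simp at hi
  | cons k l ih =>
    intro m hl hm
    have hk : k < n := hl k List.mem_cons_self
    rw [List.foldl_cons]
    rcases fin_stp hdec H m k hk with ⟨h1, h2⟩ | ⟨h1, h2⟩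
    · obtain ⟨h3, h4, h5⟩ := ih (stp dec (adjRows ⟨n, H⟩) m k)
        (fun i hi => hl i (List.mem_cons_of_mem _ hi)) (by rw [h2]; exact h1)
      refine ⟨h3.trans (by rw [h2]; exact Finset.erase_subset _ _), h4, ?_⟩
      intro i hi hif
      rcases List.mem_cons.1 hi with hik | hil
      · exfalso
        have h6 := h3 hif
        rw [h2, Finset.mem_erase] at h6
        exact h6.1 (Fin.ext hik)
      · exact h5 i hil hif
    · obtain ⟨h3, h4, h5⟩ := ih (stp dec (adjRows ⟨n, H⟩) m k)
        (fun i hi => hl i (List.mem_cons_of_mem _ hi)) (by rw [h2]; exact hm)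
      refine ⟨h3.trans (by rw [h2]), h4, ?_⟩
      intro i hi hif
      rcases List.mem_cons.1 hi with hik | hil
      · intro hc
        apply h1
        have : (⟨k, hk⟩ : Fin n) = i := Fin.ext hik.symm
        rw [this]
        refine PF_mono H (Finset.erase_subset_erase i ?_) hc
        rw [h2] at h3
        exact h3
      · exact h5 i hil hif

theorem fm_spec : H.IsIndepSet (fin n (fm dec (adjRows ⟨n, H⟩)) : Set (Fin n)) ∧
    H.indepNum ≤ (fin n (fm dec (adjRows ⟨n, H⟩))).card := by
  have h0 : PF H H.indepNum (fin n (full (adjRows ⟨n, H⟩))) := by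
    rw [fin_full, PF_univ]
  obtain ⟨-, ⟨I, hI, h1, h2⟩, h3⟩ := foldl_spec hdec H (List.range (adjRows ⟨n, H⟩).length)
    (full (adjRows ⟨n, H⟩)) (fun i hi => by
      rw [length_adjRows] at hi
      exact List.mem_range.1 hi) h0
  have hM : fin n (fm dec (adjRows ⟨n, H⟩)) = I := by
    apply Finset.Subset.antisymm _ hI
    intro v hv
    by_contra hvI
    refine h3 v (by rw [length_adjRows]; exact List.mem_range.2 v.2) hv ⟨I, ?_, h1, h2⟩
    intro w hw
    rw [Finset.mem_erase]
    exact ⟨fun h => hvI (h ▸ hw), hI hw⟩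
  rw [hM]
  exact ⟨h1, h2⟩

end correct

end Sr

open Sr in
/-- **Module S** -/
theorem modS : ModS := by
  intro hPNP
  obtain ⟨dec, hd, hdec⟩ := exists_dec hPNP
  refine ⟨fun G => out dec (adjRows G), ?_, ?_⟩
  · have h1 : TM2Lib.Poly adjRows := TM2Lib.Poly.of_enc fun _ => rfl
    exact Comp.to_tm ((poly_out hd).comp h1)
  · rintro ⟨n, H⟩
    have hlen := length_adjRows H
    obtain ⟨h1, h2⟩ := fm_spec hdec H
    have hout : out dec (adjRows ⟨n, H⟩) = ((List.finRange n).filter
        fun i : Fin n => (fm dec (adjRows ⟨n, H⟩)).getD i false).map Fin.val := by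
      unfold out
      rw [hlen]
      have h3 : (List.range n) = (List.finRange n).map Fin.val := by
        apply List.ext_getElem <;> simp
      rw [h3, List.filter_map]
      rfl
    constructor
    · refine ⟨_, hout, List.Nodup.filter _ (List.nodup_finRange n), ?_⟩
      have h4 : {v : Fin n | v ∈ (List.finRange n).filter
          fun i : Fin n => (fm dec (adjRows ⟨n, H⟩)).getD i false} =
          (fin n (fm dec (adjRows ⟨n, H⟩)) : Set (Fin n)) := by
        ext v
        rw [Finset.mem_coe, mem_fin, Set.mem_ofPred_eq, List.mem_filter]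
        simp
      show H.IsIndepSet _
      rw [h4]
      exact h1
    · rw [one_mul]
      have h5 : (out dec (adjRows ⟨n, H⟩)).length = (fin n (fm dec (adjRows ⟨n, H⟩))).card := by
        unfold out
        rw [hlen, length_filter_range]
      show (H.indepNum : ℝ) ≤ ((out dec (adjRows ⟨n, H⟩)).length : ℝ)
      rw [h5]
      exact_mod_cast h2

end

end Pool.Agent.MP10a207
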