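import Pool.Agent.MP10a207.ModC
import Pool.Agent.MP10a207.ModS
import Pool.Agent.MP10a207.AlgRed
import Pool.Agent.PCP.ModP
import Pool.Agent.PCP.ModL
import Pool.Agent.PCP.ModR
import Pool.Agent.PCP.ModM
import Pool.Agent.PCP.ModCL
import Pool.Agent.PCP.ModF
import Pool.Agent.PCP.ModPow

/-!
# Assembly: for `r > 1`, constant-factor approximation is possible iff `P = NP`
-/

namespace Pool.Agent.MP10a207

open Pool.Agent.TM2Lib

theorem pEqNP_of_mis (c : ℝ) (hc : 0 < c) (h : MISApprox c) : PEqNP := by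
  have h1 : PCP.MISApx c := h
  exact PCP.mis_hard PCP.modP PCP.modL (PCP.modR PCP.modM) PCP.modM PCP.modCL PCP.modF
    PCP.modPow c hc h1

theorem pEqNP_of_ris (r : ℚ) (hr : 1 < r) (c : ℝ) (hc : 0 < c) (h : RISApprox r c) : PEqNP :=
  pEqNP_of_mis c hc (mis_of_ris r hr c h)

theorem ris_mono (r : ℚ) {c c' : ℝ} (h : RISApprox r c) (hc : c' ≤ c) : RISApprox r c' := by
  obtain ⟨f, hf, hs⟩ := h
  refine ⟨f, hf, fun G => ⟨(hs G).1, fun J hJ => le_trans ?_ ((hs G).2 J hJ)⟩⟩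
  gcongr

theorem ris_of_pEqNP (r : ℚ) (hr : 0 < r) (h : PEqNP) : RISApprox r 1 :=
  modC 1 r hr (modS h)

end Pool.Agent.MP10a207
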