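import Pool.Agent.MP10a207.ConfGraph
import Pool.Agent.TM2Lib.Unary2

/-!
# Maximum `r`-independent sets reduce to maximum independent sets
-/

namespace Pool.Agent.MP10a207

open scoped ENNReal
open Pool.Agent.TM2Lib

section math

variable {p q : ℕ}

theorem toPt_injective (hq : 0 < q) {n : ℕ} {a b c d : Fin n} {s t : ℕ}
    (h : toPt (Q := 2 * q) a b s = toPt (Q := 2 * q) c d t) : a = c ∧ b = d ∧ s = t := by
  have hq' : (q : ℝ) ≠ 0 := by positivity
  unfold toPt at h
  rw [Pt.mk.injEq] at h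
  refine ⟨h.1, h.2.1, ?_⟩
  have h3 := h.2.2
  push_cast at h3
  field_simp at h3
  exact_mod_cast h3

theorem ptDist_self_le {V : Type*} [DecidableEq V] (G : SimpleGraph V) (x : Pt V) :
    ptDist G x x = 0 := by
  unfold ptDist inner
  simp

theorem valid_iff (G : Graph) (a b : Fin G.1) (s : Fin (2 * q + 1)) :
    valid (2 * q) (adjRows G) ((a : ℕ), (b : ℕ), s) = true ↔
      (G.2.Adj a b ∨ (a = b ∧ (s : ℕ) = 0)) := by
  unfold valid
  rw [Bool.or_eq_true, ent_adjRows, Bool.and_eq_true, decide_eq_true_iff, decide_eq_true_iff]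
  simp only [Fin.val_inj]

theorem isPt_toPt (hq : 0 < q) (G : Graph) (a b : Fin G.1) (s : Fin (2 * q + 1))
    (h : G.2.Adj a b ∨ (a = b ∧ (s : ℕ) = 0)) : IsPt G.2 (toPt (Q := 2 * q) a b s) := by
  have hq' : (0 : ℝ) < (q : ℝ) := by exact_mod_cast hq
  rcases h with h | ⟨h1, h2⟩
  · refine Or.inl ⟨h, ?_, ?_⟩
    · show (0 : ℝ) ≤ ((s : ℕ) : ℝ) / ((2 * q : ℕ) : ℝ)
      positivity
    · show ((s : ℕ) : ℝ) / ((2 * q : ℕ) : ℝ) ≤ 1
      rw [div_le_one (by positivity)]
      have := s.2
      exact_mod_cast Nat.lt_succ_iff.1 this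
  · refine Or.inr ⟨h1, ?_⟩
    show ((s : ℕ) : ℝ) / ((2 * q : ℕ) : ℝ) = 0
    rw [h2]
    simp

/-- the rounded numerator -/
noncomputable def num (q : ℕ) (t : ℝ) : Fin (2 * q + 1) := Fin.ofNat (2 * q + 1) (rho (q * t)).toNat

theorem num_val (hq : 0 < q) {t : ℝ} (h0 : 0 ≤ t) (h1 : t ≤ 1) :
    ((num q t : Fin (2 * q + 1)) : ℕ) / ((2 * q : ℕ) : ℝ) = rd q t := by
  have hq' : (0 : ℝ) < (q : ℝ) := by exact_mod_cast hq
  have e0 := rd_nonneg hq h0
  have e1 := rd_le_one hq h1
  have h2 : 0 ≤ rho (q * t) := by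
    unfold rd at e0
    rw [le_div_iff₀ (by positivity)] at e0
    have : (0 : ℝ) ≤ (rho (q * t) : ℝ) := by linarith
    exact_mod_cast this
  have h3 : rho (q * t) ≤ 2 * q := by
    unfold rd at e1
    rw [div_le_one (by positivity)] at e1
    exact_mod_cast e1
  have h4 : ((num q t : Fin (2 * q + 1)) : ℕ) = (rho (q * t)).toNat := by
    unfold num
    show (rho (q * t)).toNat % (2 * q + 1) = _
    apply Nat.mod_eq_of_lt
    omega
  rw [h4]
  unfold rd
  have h5 : (((rho (q * t)).toNat : ℕ) : ℝ) = (rho (q * t) : ℝ) := by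
    have : (((rho (q * t)).toNat : ℕ) : ℤ) = rho (q * t) := Int.toNat_of_nonneg h2
    exact_mod_cast this
  rw [h5]
  push_cast
  rfl

/-- the conflict graph has an independent set as large as every `r`-independent set -/
theorem le_indepNum (hp : 0 < p) (hq : 0 < q) (G : Graph) (J : Finset (Pt (Fin G.1)))
    (hJ : RIndep G.2 ((p : ℝ) / q) J) :
    J.card ≤ (confGraph p (2 * q) (adjRows G)).2.indepNum := by
  classical
  have hq' : (0 : ℝ) < (q : ℝ) := by exact_mod_cast hq
  have hp' : (0 : ℝ) < (p : ℝ) := by exact_mod_cast hp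
  have hr : 2 * ((p : ℝ) / q) = (2 * p : ℝ) / q := by ring
  obtain ⟨h1, h2⟩ := hJ
  rw [hr] at h2
  let tr : Pt (Fin G.1) → Tr (2 * q) := fun x => ((x.a : ℕ), (x.b : ℕ), num q x.t)
  have htr : ∀ x ∈ J, toPt (Q := 2 * q) x.a x.b (num q x.t) = rdPt q x := by
    intro x hx
    obtain ⟨e0, e1⟩ := isPt_range hq (h1 x hx)
    unfold toPt rdPt
    rw [Pt.mk.injEq]
    exact ⟨rfl, rfl, num_val hq e0 e1⟩
  have hmem : ∀ x ∈ J, tr x ∈ cl (2 * q) (adjRows G) := by
    intro x hx
    rw [mem_cl, length_adjRows]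
    refine ⟨x.a.2, x.b.2, ?_⟩
    rw [valid_iff]
    rcases h1 x hx with ⟨h3, _, _⟩ | ⟨h3, h4⟩
    · exact Or.inl h3
    · refine Or.inr ⟨h3, ?_⟩
      have e1 := num_val (t := x.t) hq (by rw [h4]) (by rw [h4]; norm_num)
      rw [h4, rd_zero hq] at e1
      have e2 : ((2 * q : ℕ) : ℝ) ≠ 0 := by positivity
      rw [div_eq_zero_iff] at e1
      rcases e1 with e1 | e1
      · rw [h4]
        exact_mod_cast e1
      · exact absurd e1 e2
  have hget : ∀ x : {x // x ∈ J}, ∃ i : Fin (confGraph p (2 * q) (adjRows G)).1,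
      (cl (2 * q) (adjRows G)).get i = tr x.1 := fun x => List.mem_iff_get.1 (hmem x.1 x.2)
  choose f hf2 using hget
  have hfar : ∀ x ∈ J, ∀ y ∈ J, x ≠ y → ¬ near p (2 * q) (adjRows G) (tr x) (tr y) = true := by
    intro x hx y hy hxy hn
    rw [near_iff (p := p) hq G x.a x.b y.a y.b (num q x.t) (num q y.t), htr x hx, htr y hy] at hn
    exact absurd (ptDist_rdPt hq (h1 x hx) (h1 y hy) (h2 x hx y hy hxy)) (not_le.2 hn)
  have hinj : Function.Injective f := by
    rintro ⟨x, hx⟩ ⟨y, hy⟩ hxy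
    by_contra hne
    have hne' : x ≠ y := fun h => hne (Subtype.ext h)
    have e1 : tr x = tr y := by
      rw [← hf2 ⟨x, hx⟩, ← hf2 ⟨y, hy⟩, hxy]
    have e2 := hfar x hx y hy hne'
    apply e2
    rw [← e1, near_iff (p := p) hq G x.a x.b x.a x.b (num q x.t) (num q x.t), ptDist_self_le]
    rw [ENNReal.ofReal_pos]
    positivity
  have hind : (confGraph p (2 * q) (adjRows G)).2.IsIndepSet
      ((Finset.univ.image f : Finset _) : Set _) := by
    intro i hi j hj hij
    rw [Finset.mem_coe, Finset.mem_image] at hi hj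
    obtain ⟨⟨x, hx⟩, _, rfl⟩ := hi
    obtain ⟨⟨y, hy⟩, _, rfl⟩ := hj
    have hne : x ≠ y := fun h => hij (by subst h; rfl)
    intro hadj
    have e1 : adjB p (2 * q) (adjRows G) ((cl (2 * q) (adjRows G)).get (f ⟨x, hx⟩))
      ((cl (2 * q) (adjRows G)).get (f ⟨y, hy⟩)) = true := hadj
    rw [hf2, hf2] at e1
    unfold adjB at e1
    rw [Bool.and_eq_true, Bool.or_eq_true] at e1
    rcases e1.2 with e2 | e2
    · exact hfar x hx y hy hne e2
    · exact hfar y hy x hx hne.symm e2
  have hcard := hind.card_le_indepNum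
  rw [Finset.card_image_of_injective _ hinj, Finset.card_univ, Fintype.card_coe] at hcard
  exact hcard

end math

/-! ### the algorithm -/

/-- the item of a candidate -/
def item (q : ℕ) (w : Tr (2 * q)) : Item := (w.1, w.2.1, (w.2.2 : ℕ), 2 * q)

/-- the output: the items of the selected candidates -/
def outp (q : ℕ) (l : List (Tr (2 * q))) (sol : List ℕ) : List Item :=
  ((List.range l.length).filter fun i => sol.any fun j => decide (i = j)).map
    fun i => item q (l.getD i (0, 0, 0))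

theorem outp_length (q : ℕ) (l : List (Tr (2 * q))) (P : List (Fin l.length)) (hP : P.Nodup) :
    (outp q l (P.map Fin.val)).length = P.length := by
  unfold outp
  rw [List.length_map]
  have h1 : (((List.range l.length).filter fun i => (P.map Fin.val).any fun j =>
      decide (i = j))).Perm (P.map Fin.val) := by
    rw [List.perm_ext_iff_of_nodup (List.nodup_range.filter _)
      ((List.nodup_map_iff Fin.val_injective).2 hP)]
    intro i
    rw [List.mem_filter, List.mem_range, List.any_eq_true]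
    constructor
    · rintro ⟨_, j, hj, hij⟩
      rw [decide_eq_true_iff] at hij
      rw [hij]
      exact hj
    · intro hi
      refine ⟨?_, i, hi, by simp⟩
      rw [List.mem_map] at hi
      obtain ⟨j, _, rfl⟩ := hi
      exact j.2
  rw [h1.length_eq, List.length_map]

section poly
variable {α : Type} [Enc α]

theorem poly_ent {A : α → List (List Bool)} {a c : α → ℕ} (hA : Poly A) (ha : UPoly a)
    (hc : UPoly c) : Poly (fun x => ent (A x) (a x) (c x)) :=
  Poly.getD (Poly.getD hA ha (TM2Lib.Poly.const [])) hc (TM2Lib.Poly.const false)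

theorem poly_reach {A : α → List (List Bool)} (hA : Poly A) (j : ℕ) : ∀ {α' : Type} [Enc α']
    {e : α' → α} (_ : Poly e) {a c : α' → ℕ} (_ : UPoly a) (_ : UPoly c),
    Poly (fun x => reach (A (e x)) j (a x) (c x)) := by
  induction j with
  | zero => intro α' _ e he a c ha hc; exact UPoly.eq ha hc
  | succ j ih =>
    intro α' _ e he a c ha hc
    have h1 : Poly (fun x => ((List.range (A (e x)).length).map Un.mk).any
        (fun u => reach (A (e x)) j (a x) u.n && ent (A (e x)) u.n (c x))) :=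
      Poly.any (h := fun p : α' × Un => reach (A (e p.1)) j (a p.1) p.2.n &&
        ent (A (e p.1)) p.2.n (c p.1)) (Poly.range (UPoly.length (hA.comp he)))
        ((ih (he.comp Poly.fst) (ha.comp Poly.fst) (UPoly.n.comp Poly.snd)).and
          (poly_ent (hA.comp (he.comp Poly.fst)) (UPoly.n.comp Poly.snd) (hc.comp Poly.fst)))
    refine ((ih he ha hc).or h1).of_eq fun x => ?_
    rw [reach, List.any_map]
    rfl

theorem poly_route (p Q : ℕ) {A : α → List (List Bool)} (hA : Poly A) {a c s t : α → ℕ}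
    (ha : UPoly a) (hc : UPoly c) (hs : UPoly s) (ht : UPoly t) :
    Poly (fun x => route p Q (A x) (a x) (c x) (s x) (t x)) := by
  have key : ∀ l : List ℕ, Poly (fun x => l.any fun j => reach (A x) j (a x) (c x) &&
      decide (s x + j * Q + t x < 4 * p)) := by
    intro l
    induction l with
    | nil => exact (TM2Lib.Poly.const false).of_eq fun x => rfl
    | cons j l ih =>
      refine (((poly_reach hA j Poly.id ha hc).and (UPoly.lt ((hs.add (UPoly.const (j * Q))).add ht)
        (UPoly.const (4 * p)))).or ih).of_eq fun x => ?_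
      rw [List.any_cons]
  exact key _

/-- candidates as data -/
def td {Q : ℕ} (w : Tr Q) : Un × (Un × Fc (Fin (Q + 1))) := (⟨w.1⟩, (⟨w.2.1⟩, ⟨w.2.2⟩))

/-- data as candidates -/
def dt {Q : ℕ} (z : Un × (Un × Fc (Fin (Q + 1)))) : Tr Q := (z.1.n, z.2.1.n, z.2.2.val)

@[simp] theorem dt_td {Q : ℕ} (w : Tr Q) : dt (td w) = w := rfl

section dt
variable {Q : ℕ} {w : α → Un × (Un × Fc (Fin (Q + 1)))} (hw : Poly w)
include hw

theorem udt1 : UPoly (fun x => (dt (w x)).1) := UPoly.n.comp hw.fst'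
theorem udt2 : UPoly (fun x => (dt (w x)).2.1) := UPoly.n.comp hw.snd'.fst'
theorem fdt3 : FPoly (fun x => (dt (w x)).2.2) := hw.snd'.snd'
theorem udt3 : UPoly (fun x => ((dt (w x)).2.2 : ℕ)) := (fdt3 hw).umap fun i => (i : ℕ)

end dt

theorem poly_near (p Q : ℕ) {A : α → List (List Bool)} (hA : Poly A)
    {w w' : α → Un × (Un × Fc (Fin (Q + 1)))} (hw : Poly w) (hw' : Poly w') :
    Poly (fun x => near p Q (A x) (dt (w x)) (dt (w' x))) := by
  have a1 := udt1 hw
  have a2 := udt2 hw
  have a3 := udt3 hw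
  have b1 := udt1 hw'
  have b2 := udt2 hw'
  have b3 := udt3 hw'
  have a3' := (UPoly.const (α := α) Q).sub a3
  have b3' := (UPoly.const (α := α) Q).sub b3
  have c4 := UPoly.const (α := α) (4 * p)
  have cQ := UPoly.const (α := α) Q
  unfold near
  exact (Poly.ite ((a1.eq b1).and (a2.eq b2)) ((a3.lt (b3.add c4)).and (b3.lt (a3.add c4)))
    (Poly.ite ((a1.eq b2).and (a2.eq b1)) (((a3.add b3).lt (cQ.add c4)).and
      (cQ.lt ((a3.add b3).add c4))) (TM2Lib.Poly.const false))).or
    (((poly_route p Q hA a1 b1 a3 b3).or (poly_route p Q hA a1 b2 a3 b3')).or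
      ((poly_route p Q hA a2 b1 a3' b3).or (poly_route p Q hA a2 b2 a3' b3')))

theorem poly_adjB (p Q : ℕ) {A : α → List (List Bool)} (hA : Poly A)
    {w w' : α → Un × (Un × Fc (Fin (Q + 1)))} (hw : Poly w) (hw' : Poly w') :
    Poly (fun x => adjB p Q (A x) (dt (w x)) (dt (w' x))) :=
  ((((udt1 hw).eq (udt1 hw')).and ((udt2 hw).eq (udt2 hw'))).and
    ((udt3 hw).eq (udt3 hw'))).not.and ((poly_near p Q hA hw hw').or (poly_near p Q hA hw' hw))

theorem poly_cl (Q : ℕ) {A : α → List (List Bool)} (hA : Poly A) :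
    Poly (fun x => (cl Q (A x)).map td) := by
  have hn : UPoly (fun x => (A x).length) := UPoly.length hA
  -- the list of all triples
  have h1 : Poly (fun x => ((List.range (A x).length).map Un.mk).flatMap fun u =>
      ((List.range (A x).length).map Un.mk).flatMap fun v =>
        (List.finRange (Q + 1)).map fun i => ((u, (v, ⟨i⟩)) : Un × (Un × Fc (Fin (Q + 1))))) := by
    refine Poly.flatMap (h := fun z : α × Un => ((List.range (A z.1).length).map Un.mk).flatMap
      fun v => (List.finRange (Q + 1)).map fun i =>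
        ((z.2, (v, ⟨i⟩)) : Un × (Un × Fc (Fin (Q + 1))))) (Poly.range hn) ?_
    refine Poly.flatMap (h := fun z : (α × Un) × Un => (List.finRange (Q + 1)).map fun i =>
        ((z.1.2, (z.2, ⟨i⟩)) : Un × (Un × Fc (Fin (Q + 1))))) (Poly.range (hn.comp Poly.fst)) ?_
    have h2 := Poly.ofFn (f := fun (i : Fin (Q + 1)) (z : (α × Un) × Un) =>
      ((z.1.2, (z.2, ⟨i⟩)) : Un × (Un × Fc (Fin (Q + 1)))))
      (fun i => Poly.id.fst'.snd'.pair (Poly.id.snd'.pair (TM2Lib.Poly.const _)))
    exact h2.of_eq fun z => List.ofFn_eq_map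
  have h3 := Poly.filter (h := fun z : α × (Un × (Un × Fc (Fin (Q + 1)))) =>
    valid Q (A z.1) (dt z.2)) h1 (by
      have hz : Poly (fun z : α × (Un × (Un × Fc (Fin (Q + 1)))) => z.2) := Poly.snd
      exact (poly_ent (hA.comp Poly.fst) (udt1 hz) (udt2 hz)).or
        (((udt1 hz).eq (udt2 hz)).and ((udt3 hz).eq (UPoly.const 0))))
  refine h3.of_eq fun x => ?_
  unfold cl
  have h4 : ∀ l : List (Tr Q), (l.filter (valid Q (A x))).map td =
      (l.map td).filter (fun z => valid Q (A x) (dt z)) := by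
    intro l
    induction l with
    | nil => rfl
    | cons w l ih =>
      rw [List.filter_cons, List.map_cons, List.filter_cons, dt_td]
      split_ifs
      · rw [List.map_cons, ih]
      · exact ih
  rw [h4]
  congr 1
  show _ = (List.flatMap _ _).map td
  rw [List.map_flatMap, List.flatMap_map]
  congr 1
  funext a
  rw [List.map_map]
  show _ = (List.flatMap _ _).map _
  rw [List.map_flatMap, List.flatMap_map]
  congr 1
  funext b
  rw [List.map_map]
  rfl

theorem poly_confRows (p Q : ℕ) {A : α → List (List Bool)} (hA : Poly A) :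
    Poly (fun x => confRows p Q (A x)) := by
  have h1 := TM2Lib.Poly.map (h := fun z : α × (Un × (Un × Fc (Fin (Q + 1)))) =>
    ((cl Q (A z.1)).map td).map fun w' => adjB p Q (A z.1) (dt z.2) (dt w')) (poly_cl Q hA)
    (TM2Lib.Poly.map (h := fun y : (α × (Un × (Un × Fc (Fin (Q + 1))))) × (Un × (Un × Fc (Fin (Q + 1)))) =>
      adjB p Q (A y.1.1) (dt y.1.2) (dt y.2)) (poly_cl Q (hA.comp Poly.fst))
      (poly_adjB p Q (hA.comp Poly.id.fst'.fst') Poly.id.fst'.snd' Poly.id.snd'))
  refine h1.of_eq fun x => ?_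
  unfold confRows
  rw [List.map_map]
  congr 1
  funext w
  show (((cl Q (A x)).map td).map fun w' => adjB p Q (A x) (dt (td w)) (dt w')) = _
  rw [List.map_map]
  rfl

theorem poly_outp (q : ℕ) {l : α → List (Tr (2 * q))} {sol : α → List ℕ}
    (hl : Poly (fun x => (l x).map td)) (hs : Poly sol) :
    Poly (fun x => outp q (l x) (sol x)) := by
  have hlen : UPoly (fun x => (l x).length) :=
    (UPoly.length hl).of_eq fun x => by rw [List.length_map]
  have hz : Poly (fun z : α × Un => ((l z.1).map td).getD z.2.n (td (0, 0, 0))) :=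
    Poly.getD (hl.comp Poly.fst) (UPoly.n.comp Poly.snd) (TM2Lib.Poly.const _)
  have h1 := TM2Lib.Poly.map (h := fun z : α × Un =>
      item q (dt (((l z.1).map td).getD z.2.n (td (0, 0, 0)))))
    (f := fun x => ((List.range (l x).length).map Un.mk).filter fun u =>
      (sol x).any fun j => decide (u.n = j))
    (Poly.filter (h := fun z : α × Un => (sol z.1).any fun j => decide (z.2.n = j))
      (Poly.range hlen) (Poly.any (h := fun y : (α × Un) × ℕ => decide (y.1.2.n = y.2))
        (hs.comp Poly.fst) (Poly.nat_eq (UPoly.toNat (UPoly.n.comp Poly.id.fst'.snd'))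
          Poly.id.snd')))
    ((UPoly.toNat (udt1 hz)).pair ((UPoly.toNat (udt2 hz)).pair
      ((UPoly.toNat (udt3 hz)).pair (TM2Lib.Poly.const (2 * q)))))
  refine h1.of_eq fun x => ?_
  unfold outp
  rw [List.filter_map, List.map_map]
  congr 1
  funext i
  show item q (dt (((l x).map td).getD i (td (0, 0, 0)))) = _
  rw [List.getD_map, dt_td]

end poly

theorem forall₂_pmap {β γ δ : Type} {R : δ → γ → Prop} {p : β → Prop} (F : β → δ)
    (f : ∀ b, p b → γ) (h : ∀ b hb, R (F b) (f b hb)) :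
    ∀ (l : List β) (H : ∀ b ∈ l, p b), List.Forall₂ R (l.map F) (l.pmap f H) := by
  intro l
  induction l with
  | nil => intro H; exact List.Forall₂.nil
  | cons b l ih => intro H; exact List.Forall₂.cons (h _ _) (ih _)

section ptOf
variable {q : ℕ} (G : Graph)

/-- the point of a candidate -/
noncomputable def ptOf (q : ℕ) (w : Tr (2 * q)) (h : w ∈ cl (2 * q) (adjRows G)) :
    Pt (Fin G.1) :=
  toPt (Q := 2 * q)
    ⟨w.1, by
      have := ((mem_cl _ _ _).1 h).1
      rwa [length_adjRows] at this⟩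
    ⟨w.2.1, by
      have := ((mem_cl _ _ _).1 h).2.1
      rwa [length_adjRows] at this⟩ (w.2.2 : ℕ)

theorem describes_ptOf (hq : 0 < q) (w : Tr (2 * q)) (h : w ∈ cl (2 * q) (adjRows G)) :
    Describes (item q w) (ptOf G q w h) :=
  ⟨rfl, rfl, by show 0 < 2 * q; omega, rfl⟩

theorem isPt_ptOf (hq : 0 < q) (w : Tr (2 * q)) (h : w ∈ cl (2 * q) (adjRows G)) :
    IsPt G.2 (ptOf G q w h) := by
  obtain ⟨h1, h2, h3⟩ := (mem_cl _ _ _).1 h
  rw [length_adjRows] at h1 h2
  exact isPt_toPt hq G ⟨w.1, h1⟩ ⟨w.2.1, h2⟩ w.2.2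
    ((valid_iff G ⟨w.1, h1⟩ ⟨w.2.1, h2⟩ w.2.2).1 h3)

theorem ptOf_injective (hq : 0 < q) (w w' : Tr (2 * q)) (h : w ∈ cl (2 * q) (adjRows G))
    (h' : w' ∈ cl (2 * q) (adjRows G)) (he : ptOf G q w h = ptOf G q w' h') : w = w' := by
  obtain ⟨h1, h2, h3⟩ := toPt_injective hq he
  exact Prod.ext (Fin.mk.inj h1) (Prod.ext (Fin.mk.inj h2) (Fin.ext h3))

theorem near_of_lt {p : ℕ} (hq : 0 < q) (w w' : Tr (2 * q)) (h : w ∈ cl (2 * q) (adjRows G))
    (h' : w' ∈ cl (2 * q) (adjRows G))
    (hlt : ptDist G.2 (ptOf G q w h) (ptOf G q w' h') < ENNReal.ofReal ((2 * p : ℝ) / q)) :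
    near p (2 * q) (adjRows G) w w' = true := by
  obtain ⟨h1, h2, _⟩ := (mem_cl _ _ _).1 h
  obtain ⟨h1', h2', _⟩ := (mem_cl _ _ _).1 h'
  rw [length_adjRows] at h1 h2 h1' h2'
  exact (near_iff hq G ⟨w.1, h1⟩ ⟨w.2.1, h2⟩ ⟨w'.1, h1'⟩ ⟨w'.2.1, h2'⟩ w.2.2 w'.2.2).2 hlt

end ptOf

/-- **Module C** -/
theorem modC : ModC := by
  classical
  intro c r hr hMIS
  obtain ⟨g, ⟨hg⟩, hgs⟩ := hMIS
  have hgP : Poly g := Comp.of_tm (ea := (code : Graph → List Bool))
    (eb := (code : List ℕ → List Bool)) hg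
  obtain ⟨p, hp⟩ : ∃ p : ℕ, r.num = p := ⟨r.num.toNat, (Int.toNat_of_nonneg
    (Rat.num_nonneg.2 hr.le)).symm⟩
  obtain ⟨q, hq⟩ : ∃ q : ℕ, q = r.den := ⟨_, rfl⟩
  have hq0 : 0 < q := by
    rw [hq]
    exact r.den_pos
  have hp0 : 0 < p := by
    have := Rat.num_pos.2 hr
    rw [hp] at this
    exact_mod_cast this
  have hrpq : (r : ℝ) = (p : ℝ) / q := by
    rw [Rat.cast_def, hp, hq]
    push_cast
    rfl
  have hr2 : 2 * (r : ℝ) = (2 * p : ℝ) / q := by
    rw [hrpq]
    ring
  have hrows : Poly adjRows := Poly.of_enc fun _ => rfl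
  -- the conflict graph in polynomial time
  have hK : Poly (fun G : Graph => confGraph p (2 * q) (adjRows G)) := by
    refine (poly_confRows p (2 * q) hrows).congr (fun _ => rfl) fun G => ?_
    show D.encD (Enc.enc (confRows p (2 * q) (adjRows G))) =
      D.encD (Enc.enc (adjRows (confGraph p (2 * q) (adjRows G))))
    rw [adjRows_confGraph]
  refine ⟨fun G => outp q (cl (2 * q) (adjRows G)) (g (confGraph p (2 * q) (adjRows G))),
    Comp.to_tm (ea := (code : Graph → List Bool)) (eb := (code : List Item → List Bool))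
      (poly_outp q (poly_cl (2 * q) hrows) (hgP.comp hK)), ?_⟩
  intro G
  obtain ⟨⟨P, hP1, hP2, hP3⟩, hP4⟩ := hgs (confGraph p (2 * q) (adjRows G))
  have hlen : (outp q (cl (2 * q) (adjRows G)) (g (confGraph p (2 * q) (adjRows G)))).length =
      (g (confGraph p (2 * q) (adjRows G))).length := by
    rw [hP1, List.length_map]
    exact outp_length q _ P hP2
  refine ⟨?_, ?_⟩
  · -- the selected indices
    have hsub : ∀ i ∈ (List.range (cl (2 * q) (adjRows G)).length).filter (fun i =>
        (g (confGraph p (2 * q) (adjRows G))).any fun j => decide (i = j)),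
          i < (cl (2 * q) (adjRows G)).length := by
      intro i hi
      rw [List.mem_filter, List.mem_range] at hi
      exact hi.1
    have hsol : ∀ i ∈ (List.range (cl (2 * q) (adjRows G)).length).filter (fun i =>
        (g (confGraph p (2 * q) (adjRows G))).any fun j => decide (i = j)),
          ∃ k : Fin (confGraph p (2 * q) (adjRows G)).1, (k : ℕ) = i ∧ k ∈ P := by
      intro i hi
      rw [List.mem_filter, List.any_eq_true, hP1] at hi
      obtain ⟨_, j, hj, hij⟩ := hi
      rw [decide_eq_true_iff] at hij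
      rw [List.mem_map] at hj
      obtain ⟨k, hk, rfl⟩ := hj
      exact ⟨k, hij.symm, hk⟩
    refine ⟨List.pmap (fun i (h : i < (cl (2 * q) (adjRows G)).length) =>
      ptOf G q ((cl (2 * q) (adjRows G))[i]) (List.getElem_mem h)) _ hsub, ?_, ?_, ?_, ?_⟩
    · refine forall₂_pmap _ _ (fun i hi => ?_) _ hsub
      rw [List.getD_eq_getElem _ _ hi]
      exact describes_ptOf G hq0 _ _
    · refine List.Nodup.pmap ?_ (List.nodup_range.filter _)
      intro i hi j hj hij
      have h1 := ptOf_injective G hq0 _ _ _ _ hij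
      exact (List.Nodup.getElem_inj_iff (nodup_cl (2 * q) (adjRows G))).1 h1
    · intro x hx
      rw [List.mem_pmap] at hx
      obtain ⟨i, _, rfl⟩ := hx
      exact isPt_ptOf G hq0 _ _
    · intro x hx y hy hxy
      rw [List.mem_pmap] at hx hy
      obtain ⟨i, hi, rfl⟩ := hx
      obtain ⟨j, hj, rfl⟩ := hy
      obtain ⟨k, hk, hkP⟩ := hsol i hi
      obtain ⟨l, hl, hlP⟩ := hsol j hj
      have hkl : k ≠ l := by
        intro h
        apply hxy
        have : i = j := by rw [← hk, ← hl, h]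
        subst this
        rfl
      by_contra hlt
      rw [not_le, hr2] at hlt
      apply hP3 hkP hlP hkl
      show adjB p (2 * q) (adjRows G) ((cl (2 * q) (adjRows G)).get k)
        ((cl (2 * q) (adjRows G)).get l) = true
      have hki : (cl (2 * q) (adjRows G)).get k =
          (cl (2 * q) (adjRows G))[i]'(hsub i hi) := by
        subst hk
        rfl
      have hlj : (cl (2 * q) (adjRows G)).get l =
          (cl (2 * q) (adjRows G))[j]'(hsub j hj) := by
        subst hl
        rfl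
      have hne : (cl (2 * q) (adjRows G))[i]'(hsub i hi) ≠
          (cl (2 * q) (adjRows G))[j]'(hsub j hj) := by
        intro h
        have h1 := (List.Nodup.getElem_inj_iff (nodup_cl (2 * q) (adjRows G))).1 h
        apply hkl
        apply Fin.ext
        rw [hk, hl, h1]
      rw [hki, hlj]
      unfold adjB
      rw [Bool.and_eq_true, Bool.or_eq_true]
      refine ⟨?_, Or.inl (near_of_lt G hq0 _ _ _ _ hlt)⟩
      rw [Bool.not_eq_true', Bool.and_eq_false_iff, Bool.and_eq_false_iff,
        decide_eq_false_iff_not, decide_eq_false_iff_not, decide_eq_false_iff_not]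
      by_contra hcon
      rw [not_or, not_or, not_not, not_not, not_not] at hcon
      exact hne (Prod.ext hcon.1.1 (Prod.ext hcon.1.2 (Fin.ext hcon.2)))
  · intro J hJ
    rw [hlen]
    rw [hrpq] at hJ
    have h1 := le_indepNum hp0 hq0 G J hJ
    rcases le_or_gt 0 c with hc | hc
    · refine le_trans ?_ hP4
      gcongr
    · refine le_trans ?_ (Nat.cast_nonneg _)
      exact mul_nonpos_of_nonpos_of_nonneg hc.le (Nat.cast_nonneg _)

end Pool.Agent.MP10a207
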