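import Pool.Agent.MP10a207.ModS

/-!
# Common tools for the easy approximation algorithms (modules E1 and E2)
-/

set_option linter.unusedSectionVars false

namespace Pool.Agent.MP10a207

open Pool.Agent.TM2Lib Finset
open scoped ENNReal

noncomputable section

namespace E

/-! ### distances -/

section dist

variable {V : Type*} [DecidableEq V] {G : SimpleGraph V} {p q : Pt V}

theorem ptDist_le1 : ptDist G p q ≤
    ENNReal.ofReal p.t + (G.edist p.a q.a : ℝ≥0∞) + ENNReal.ofReal q.t :=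
  (min_le_right _ _).trans ((min_le_left _ _).trans (min_le_left _ _))

theorem ptDist_le2 : ptDist G p q ≤
    ENNReal.ofReal p.t + (G.edist p.a q.b : ℝ≥0∞) + ENNReal.ofReal (1 - q.t) :=
  (min_le_right _ _).trans ((min_le_left _ _).trans (min_le_right _ _))

theorem ptDist_le3 : ptDist G p q ≤
    ENNReal.ofReal (1 - p.t) + (G.edist p.b q.a : ℝ≥0∞) + ENNReal.ofReal q.t :=
  (min_le_right _ _).trans ((min_le_right _ _).trans (min_le_left _ _))

theorem ptDist_le4 : ptDist G p q ≤
    ENNReal.ofReal (1 - p.t) + (G.edist p.b q.b : ℝ≥0∞) + ENNReal.ofReal (1 - q.t) :=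
  (min_le_right _ _).trans ((min_le_right _ _).trans (min_le_right _ _))

theorem ptDist_le_inner1 (h1 : p.a = q.a) (h2 : p.b = q.b) :
    ptDist G p q ≤ ENNReal.ofReal |p.t - q.t| := by
  refine (min_le_left _ _).trans ?_
  rw [inner, if_pos ⟨h1, h2⟩]

theorem ptDist_le_inner2 (h0 : p.a ≠ q.a) (h1 : p.a = q.b) (h2 : p.b = q.a) :
    ptDist G p q ≤ ENNReal.ofReal |p.t - (1 - q.t)| := by
  refine (min_le_left _ _).trans ?_
  rw [inner, if_neg (fun h => h0 h.1), if_pos ⟨h1, h2⟩]

/-- lower bound of the distance of two points that are not on a common edge -/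
theorem le_ptDist {x : ℝ≥0∞} (hin1 : ¬ (p.a = q.a ∧ p.b = q.b)) (hin2 : ¬ (p.a = q.b ∧ p.b = q.a))
    (h1 : x ≤ ENNReal.ofReal p.t + (G.edist p.a q.a : ℝ≥0∞) + ENNReal.ofReal q.t)
    (h2 : x ≤ ENNReal.ofReal p.t + (G.edist p.a q.b : ℝ≥0∞) + ENNReal.ofReal (1 - q.t))
    (h3 : x ≤ ENNReal.ofReal (1 - p.t) + (G.edist p.b q.a : ℝ≥0∞) + ENNReal.ofReal q.t)
    (h4 : x ≤ ENNReal.ofReal (1 - p.t) + (G.edist p.b q.b : ℝ≥0∞) + ENNReal.ofReal (1 - q.t)) :
    x ≤ ptDist G p q := by
  unfold ptDist inner outer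
  rw [if_neg hin1, if_neg hin2]
  exact le_min le_top (le_min (le_min h1 h2) (le_min h3 h4))

end dist

/-! ### lists of pairs -/

section lists

variable {n : ℕ}

/-- a vertex as a unary number -/
def io (i : Fin n) : Un := ⟨i⟩

/-- the vertices as unary numbers -/
def rangeU (n : ℕ) : List Un := (List.range n).map Un.mk

/-- the pairs of vertices -/
def pairsU (n : ℕ) : List (Un × Un) :=
  (rangeU n).flatMap fun b => (rangeU n).map fun c => (b, c)

/-- the pairs of vertices -/
def pairsF (n : ℕ) : List (Fin n × Fin n) :=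
  (List.finRange n).flatMap fun b => (List.finRange n).map fun c => (b, c)

theorem rangeU_eq (n : ℕ) : rangeU n = (List.finRange n).map io := by
  apply List.ext_getElem <;> simp [rangeU, io]

theorem pairsU_eq (n : ℕ) : pairsU n = (pairsF n).map (fun p => (io p.1, io p.2)) := by
  unfold pairsU pairsF
  rw [rangeU_eq, List.map_flatMap, List.flatMap_map]
  congr 1
  funext b
  rw [List.map_map, List.map_map]
  rfl

theorem mem_pairsF (p : Fin n × Fin n) : p ∈ pairsF n := by
  unfold pairsF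
  simp only [List.mem_flatMap, List.mem_map, List.mem_finRange, true_and]
  exact ⟨p.1, p.2, rfl⟩

theorem nodup_pairsF : (pairsF n).Nodup :=
  List.Nodup.product (List.nodup_finRange n) (List.nodup_finRange n)

theorem ent_eq (H : SimpleGraph (Fin n)) [DecidableRel H.Adj] (i j : Fin n) :
    Sr.ent (adjRows ⟨n, H⟩) (io i).n (io j).n = decide (H.Adj i j) := by
  rw [Bool.eq_iff_iff, decide_eq_true_iff]
  exact Sr.ent_adjRows H i j

theorem poly_pairsU {α : Type} [Enc α] {f : α → ℕ} (hf : UPoly f) :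
    TM2Lib.Poly (fun a => pairsU (f a)) :=
  TM2Lib.Poly.NPC.product (TM2Lib.Poly.range hf) (TM2Lib.Poly.range hf)

/-- from unary to binary -/
theorem poly_n {α : Type} [Enc α] {f : α → Un} (hf : TM2Lib.Poly f) :
    TM2Lib.Poly (fun a => (f a).n) :=
  TM2Lib.Poly.NPC.of_un (UPoly.list hf)

end lists

/-! ### items -/

section items

variable {n : ℕ}

/-- the midpoint of an edge -/
def midI (p : Un × Un) : Item := (p.1.n, p.2.n, 1, 2)

/-- a vertex -/
def vtxI (p : Un) : Item := (p.n, p.n, 0, 1)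

/-- the midpoint of an edge -/
def midP (p : Fin n × Fin n) : Pt (Fin n) := ⟨p.1, p.2, 1 / 2⟩

/-- a vertex -/
def vtxP (v : Fin n) : Pt (Fin n) := ⟨v, v, 0⟩

theorem desc_mid (p : Fin n × Fin n) : Describes (midI (io p.1, io p.2)) (midP p) := by
  refine ⟨rfl, rfl, ?_, ?_⟩
  · show 0 < 2
    norm_num
  · show (1 / 2 : ℝ) = ((1 : ℕ) : ℝ) / ((2 : ℕ) : ℝ)
    norm_num

theorem desc_vtx (v : Fin n) : Describes (vtxI (io v)) (vtxP v) := by
  refine ⟨rfl, rfl, ?_, ?_⟩
  · show 0 < 1
    norm_num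
  · show (0 : ℝ) = ((0 : ℕ) : ℝ) / ((1 : ℕ) : ℝ)
    norm_num

theorem desc_mids (l : List (Fin n × Fin n)) :
    List.Forall₂ Describes ((l.map fun p => (io p.1, io p.2)).map midI) (l.map midP) := by
  rw [List.map_map, List.forall₂_map_left_iff, List.forall₂_map_right_iff, List.forall₂_same]
  intro p _
  exact desc_mid p

theorem desc_vtxs (l : List (Fin n)) :
    List.Forall₂ Describes ((l.map io).map vtxI) (l.map vtxP) := by
  rw [List.map_map, List.forall₂_map_left_iff, List.forall₂_map_right_iff, List.forall₂_same]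
  intro p _
  exact desc_vtx p

theorem midP_inj : Function.Injective (midP : Fin n × Fin n → Pt (Fin n)) := by
  intro p q h
  have h1 := congrArg Pt.a h
  have h2 := congrArg Pt.b h
  exact Prod.ext h1 h2

theorem vtxP_inj : Function.Injective (vtxP : Fin n → Pt (Fin n)) := by
  intro p q h
  exact congrArg Pt.a h

theorem poly_midI : TM2Lib.Poly midI :=
  (poly_n TM2Lib.Poly.id.fst').pair ((poly_n TM2Lib.Poly.id.snd').pair
    ((TM2Lib.Poly.const (1 : ℕ)).pair (TM2Lib.Poly.const (2 : ℕ))))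

theorem poly_vtxI : TM2Lib.Poly vtxI :=
  (poly_n TM2Lib.Poly.id).pair ((poly_n TM2Lib.Poly.id).pair
    ((TM2Lib.Poly.const (0 : ℕ)).pair (TM2Lib.Poly.const (1 : ℕ))))

end items

end E

end

end Pool.Agent.MP10a207
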