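import Pool.Agent.MP10a207.ModE

/-!
# Module E1: `0 < r ≤ 1/2`, midpoints of all edges
-/

set_option linter.unusedSectionVars false

namespace Pool.Agent.MP10a207

open Pool.Agent.TM2Lib Finset
open scoped ENNReal

noncomputable section

namespace E1

open E

/-! ### the algorithm -/

/-- the edges -/
def eds (A : List (List Bool)) : List (Un × Un) :=
  (pairsU A.length).filter fun p => decide (p.1.n < p.2.n) && Sr.ent A p.1.n p.2.n

/-- the isolated vertices -/
def iso (A : List (List Bool)) : List Un :=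
  (rangeU A.length).filter fun v => (rangeU A.length).all fun w => !(Sr.ent A v.n w.n)

/-- the output -/
def out (A : List (List Bool)) : List Item := (eds A).map midI ++ (iso A).map vtxI

theorem poly_eds : TM2Lib.Poly eds :=
  TM2Lib.Poly.filter (h := fun q : List (List Bool) × (Un × Un) =>
    decide (q.2.1.n < q.2.2.n) && Sr.ent q.1 q.2.1.n q.2.2.n)
    (poly_pairsU (UPoly.length TM2Lib.Poly.id))
    (TM2Lib.Poly.and (UPoly.lt (UPoly.n.comp TM2Lib.Poly.id.snd'.fst')
      (UPoly.n.comp TM2Lib.Poly.id.snd'.snd'))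
      (Sr.poly_ent TM2Lib.Poly.fst (UPoly.n.comp TM2Lib.Poly.id.snd'.fst')
        (UPoly.n.comp TM2Lib.Poly.id.snd'.snd')))

theorem poly_iso : TM2Lib.Poly iso := by
  have hr : TM2Lib.Poly (fun A : List (List Bool) => rangeU A.length) :=
    TM2Lib.Poly.range (UPoly.length TM2Lib.Poly.id)
  refine TM2Lib.Poly.filter (h := fun q : List (List Bool) × Un =>
    (rangeU q.1.length).all fun w => !(Sr.ent q.1 q.2.n w.n)) hr ?_
  refine TM2Lib.Poly.all (h := fun t : (List (List Bool) × Un) × Un =>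
    !(Sr.ent t.1.1 t.1.2.n t.2.n)) (hr.comp TM2Lib.Poly.fst) ?_
  exact (Sr.poly_ent TM2Lib.Poly.id.fst'.fst' (UPoly.n.comp TM2Lib.Poly.id.fst'.snd')
    (UPoly.n.comp TM2Lib.Poly.snd)).not

theorem poly_out : TM2Lib.Poly out :=
  TM2Lib.Poly.append
    (TM2Lib.Poly.map (h := fun q : List (List Bool) × (Un × Un) => midI q.2) poly_eds
      (poly_midI.comp TM2Lib.Poly.snd))
    (TM2Lib.Poly.map (h := fun q : List (List Bool) × Un => vtxI q.2) poly_iso
      (poly_vtxI.comp TM2Lib.Poly.snd))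

/-! ### semantics -/

section sem

variable {n : ℕ} (H : SimpleGraph (Fin n)) [DecidableRel H.Adj]

/-- the edges -/
def edF : List (Fin n × Fin n) :=
  (pairsF n).filter fun p => decide (p.1 < p.2) && decide (H.Adj p.1 p.2)

/-- the isolated vertices -/
def isF : List (Fin n) := (List.finRange n).filter fun v => decide (∀ w, ¬ H.Adj v w)

theorem eds_eq : eds (adjRows ⟨n, H⟩) = (edF H).map fun p => (io p.1, io p.2) := by
  unfold eds edF
  rw [Sr.length_adjRows, pairsU_eq, List.filter_map]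
  congr 1
  apply List.filter_congr
  intro p _
  simp only [Function.comp]
  rw [ent_eq]
  rfl

theorem iso_eq : iso (adjRows ⟨n, H⟩) = (isF H).map io := by
  unfold iso isF
  rw [Sr.length_adjRows, rangeU_eq, List.filter_map]
  congr 1
  apply List.filter_congr
  intro v _
  simp only [Function.comp]
  rw [Bool.eq_iff_iff, decide_eq_true_iff, List.all_eq_true]
  constructor
  · intro h w hadj
    have h1 := h (io w) (List.mem_map.2 ⟨w, List.mem_finRange w, rfl⟩)
    rw [ent_eq] at h1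
    simp [hadj] at h1
  · intro h x hx
    obtain ⟨w, -, rfl⟩ := List.mem_map.1 hx
    rw [ent_eq]
    simp [h w]

theorem mem_edF {p : Fin n × Fin n} : p ∈ edF H ↔ p.1 < p.2 ∧ H.Adj p.1 p.2 := by
  unfold edF
  rw [List.mem_filter, Bool.and_eq_true, decide_eq_true_iff, decide_eq_true_iff]
  exact ⟨fun h => h.2, fun h => ⟨mem_pairsF p, h⟩⟩

theorem mem_isF {v : Fin n} : v ∈ isF H ↔ ∀ w, ¬ H.Adj v w := by
  unfold isF
  rw [List.mem_filter, decide_eq_true_iff]
  exact ⟨fun h => h.2, fun h => ⟨List.mem_finRange v, h⟩⟩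

theorem nodup_edF : (edF H).Nodup := List.Nodup.filter _ nodup_pairsF

theorem nodup_isF : (isF H).Nodup := List.Nodup.filter _ (List.nodup_finRange n)

/-! ### upper bound -/

/-- `p` is the point of the edge `e` at distance `s` from the first endpoint -/
def On (e : Fin n × Fin n) (s : ℝ) (p : Pt (Fin n)) : Prop :=
  p = ⟨e.1, e.2, s⟩ ∨ p = ⟨e.2, e.1, 1 - s⟩ ∨ (s = 0 ∧ p = ⟨e.1, e.1, 0⟩) ∨
    (s = 1 ∧ p = ⟨e.2, e.2, 0⟩)

omit [DecidableRel H.Adj] in
theorem self_le {a b c : ℝ} (ha : 0 ≤ a) (hb : 0 ≤ b) (h : a + b ≤ c) (v : Fin n) :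
    ENNReal.ofReal a + (H.edist v v : ℝ≥0∞) + ENNReal.ofReal b ≤ ENNReal.ofReal c := by
  rw [SimpleGraph.edist_self, ENat.toENNReal_zero, add_zero, ← ENNReal.ofReal_add ha hb]
  exact ENNReal.ofReal_le_ofReal h

omit [DecidableRel H.Adj] in
theorem adj_le {v w : Fin n} (h : H.Adj v w) :
    ENNReal.ofReal 0 + (H.edist v w : ℝ≥0∞) + ENNReal.ofReal 0 ≤ ENNReal.ofReal 1 := by
  rw [SimpleGraph.edist_eq_one_iff_adj.2 h, ENNReal.ofReal_zero, zero_add, add_zero,
    ENNReal.ofReal_one]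
  norm_num

omit [DecidableRel H.Adj] in
theorem on_dist {e : Fin n × Fin n} (hadj : H.Adj e.1 e.2) {s s' : ℝ} (hs0 : 0 ≤ s)
    (hs1 : s ≤ 1) (hs0' : 0 ≤ s') (hs1' : s' ≤ 1) {p q : Pt (Fin n)} (hp : On e s p)
    (hq : On e s' q) : ptDist H p q ≤ ENNReal.ofReal |s - s'| := by
  have hne := hadj.ne
  rcases hp with rfl | rfl | ⟨rfl, rfl⟩ | ⟨rfl, rfl⟩
  · rcases hq with rfl | rfl | ⟨rfl, rfl⟩ | ⟨rfl, rfl⟩
    · exact ptDist_le_inner1 rfl rfl
    · refine (ptDist_le_inner2 hne rfl rfl).trans (le_of_eq ?_)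
      simp only
      rw [show s - (1 - (1 - s')) = s - s' by ring]
    · refine ptDist_le1.trans (self_le H hs0 le_rfl ?_ _)
      linarith [le_abs_self (s - 0)]
    · refine ptDist_le3.trans (self_le H (by simp only; linarith) le_rfl ?_ _)
      simp only
      linarith [neg_abs_le (s - 1)]
  · rcases hq with rfl | rfl | ⟨rfl, rfl⟩ | ⟨rfl, rfl⟩
    · refine (ptDist_le_inner2 hne.symm rfl rfl).trans (le_of_eq ?_)
      simp only
      rw [show 1 - s - (1 - s') = -(s - s') by ring, abs_neg]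
    · have h := ptDist_le_inner1 (G := H) (p := ⟨e.2, e.1, 1 - s⟩) (q := ⟨e.2, e.1, 1 - s'⟩)
        rfl rfl
      refine h.trans (le_of_eq ?_)
      simp only
      rw [show 1 - s - (1 - s') = -(s - s') by ring, abs_neg]
    · refine ptDist_le3.trans (self_le H (by simp only; linarith) le_rfl ?_ _)
      simp only
      linarith [le_abs_self (s - 0)]
    · refine ptDist_le1.trans (self_le H (by simp only; linarith) le_rfl ?_ _)
      simp only
      linarith [neg_abs_le (s - 1)]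
  · rcases hq with rfl | rfl | ⟨rfl, rfl⟩ | ⟨rfl, rfl⟩
    · refine ptDist_le1.trans (self_le H le_rfl hs0' ?_ _)
      linarith [neg_abs_le (0 - s')]
    · refine ptDist_le2.trans (self_le H le_rfl (by simp only; linarith) ?_ _)
      simp only
      linarith [neg_abs_le (0 - s')]
    · refine ptDist_le1.trans (self_le H le_rfl le_rfl ?_ _)
      simp
    · refine ptDist_le1.trans ((adj_le H hadj).trans (le_of_eq ?_))
      norm_num
  · rcases hq with rfl | rfl | ⟨rfl, rfl⟩ | ⟨rfl, rfl⟩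
    · refine ptDist_le2.trans (self_le H le_rfl (by simp only; linarith) ?_ _)
      simp only
      linarith [le_abs_self (1 - s')]
    · refine ptDist_le1.trans (self_le H le_rfl (by simp only; linarith) ?_ _)
      simp only
      linarith [le_abs_self (1 - s')]
    · refine ptDist_le1.trans ((adj_le H hadj.symm).trans (le_of_eq ?_))
      norm_num
    · refine ptDist_le1.trans (self_le H le_rfl le_rfl ?_ _)
      simp

/-- every point is an isolated vertex or lies on an edge of the list -/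
theorem cover {p : Pt (Fin n)} (hp : IsPt H p) :
    (∃ e ∈ edF H, ∃ s : ℝ, (0 ≤ s ∧ s ≤ 1) ∧ On e s p) ∨ ∃ v ∈ isF H, p = vtxP v := by
  have key : ∀ (a b : Fin n) (s : ℝ), H.Adj a b → 0 ≤ s → s ≤ 1 →
      (p = ⟨a, b, s⟩ ∨ (s = 0 ∧ p = ⟨a, a, 0⟩)) →
      ∃ e ∈ edF H, ∃ s : ℝ, (0 ≤ s ∧ s ≤ 1) ∧ On e s p := by
    intro a b s hab h0 h1 hps
    rcases lt_or_gt_of_ne hab.ne with hlt | hlt
    · refine ⟨(a, b), (mem_edF H).2 ⟨hlt, hab⟩, s, ⟨h0, h1⟩, ?_⟩
      rcases hps with hps | ⟨hs, hps⟩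
      · exact Or.inl hps
      · exact Or.inr (Or.inr (Or.inl ⟨hs, hps⟩))
    · refine ⟨(b, a), (mem_edF H).2 ⟨hlt, hab.symm⟩, 1 - s, ⟨by linarith, by linarith⟩, ?_⟩
      rcases hps with hps | ⟨hs, hps⟩
      · right; left
        rw [hps]
        simp
      · right; right; right
        exact ⟨by rw [hs]; ring, hps⟩
  obtain ⟨a, b, t⟩ := p
  rcases hp with ⟨h1, h2, h3⟩ | ⟨h1, h2⟩
  · exact Or.inl (key a b t h1 h2 h3 (Or.inl rfl))
  · simp only at h1 h2
    subst h1 h2
    by_cases h : ∀ w, ¬ H.Adj a w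
    · exact Or.inr ⟨a, (mem_isF H).2 h, rfl⟩
    · push Not at h
      obtain ⟨w, hw⟩ := h
      exact Or.inl (key a w 0 hw le_rfl zero_le_one (Or.inr ⟨rfl, rfl⟩))

omit [DecidableRel H.Adj] in
open Classical in
theorem card_edge {r : ℝ} (hr : 0 < r) {J : Finset (Pt (Fin n))} (hJ : RIndep H r J)
    {e : Fin n × Fin n} (hadj : H.Adj e.1 e.2) :
    (J.filter fun p => ∃ s : ℝ, (0 ≤ s ∧ s ≤ 1) ∧ On e s p).card ≤ ⌊1 / (2 * r)⌋₊ + 1 := by
  have hch : ∀ p : Pt (Fin n), ∃ s : ℝ,
      (∃ s : ℝ, (0 ≤ s ∧ s ≤ 1) ∧ On e s p) → (0 ≤ s ∧ s ≤ 1) ∧ On e s p := by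
    intro p
    by_cases h : ∃ s : ℝ, (0 ≤ s ∧ s ≤ 1) ∧ On e s p
    · obtain ⟨s, hs⟩ := h
      exact ⟨s, fun _ => hs⟩
    · exact ⟨0, fun h' => absurd h' h⟩
  choose S hS using hch
  have h2r : 0 < 2 * r := by linarith
  rw [← Finset.card_range (⌊1 / (2 * r)⌋₊ + 1)]
  refine Finset.card_le_card_of_injOn (fun p => ⌊S p / (2 * r)⌋₊) ?_ ?_
  · intro p hp
    have h1 := hS p (Finset.mem_filter.1 hp).2
    rw [Finset.mem_coe, Finset.mem_range, Nat.lt_succ_iff]
    apply Nat.floor_le_floor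
    gcongr
    exact h1.1.2
  · intro p hp q hq hpq
    by_contra hne
    rw [Finset.mem_coe, Finset.mem_filter] at hp hq
    have h1 := hS p hp.2
    have h2 := hS q hq.2
    have h3 := hJ.2 p hp.1 q hq.1 hne
    have h4 := on_dist H hadj h1.1.1 h1.1.2 h2.1.1 h2.1.2 h1.2 h2.2
    have h5 := h3.trans h4
    have h6 : 2 * r ≤ |S p - S q| := by
      by_contra hc
      push Not at hc
      have h7 : ENNReal.ofReal |S p - S q| < ENNReal.ofReal (2 * r) :=
        (ENNReal.ofReal_lt_ofReal_iff h2r).2 hc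
      exact absurd h5 (not_le.2 h7)
    have h8 : |S p / (2 * r) - S q / (2 * r)| < 1 := by
      simp only at hpq
      have a1 := Nat.floor_le (div_nonneg h1.1.1 h2r.le)
      have a2 := Nat.lt_floor_add_one (S p / (2 * r))
      have a3 := Nat.floor_le (div_nonneg h2.1.1 h2r.le)
      have a4 := Nat.lt_floor_add_one (S q / (2 * r))
      rw [hpq] at a1 a2
      rw [abs_lt]
      constructor <;> linarith
    rw [← sub_div, abs_div, abs_of_pos h2r, div_lt_one h2r] at h8
    linarith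

theorem card_le {r : ℝ} (hr : 0 < r) {J : Finset (Pt (Fin n))} (hJ : RIndep H r J) :
    J.card ≤ (⌊1 / (2 * r)⌋₊ + 1) * ((edF H).length + (isF H).length) := by
  classical
  have h1 : J ⊆ ((edF H).toFinset.biUnion fun e =>
      J.filter fun p => ∃ s : ℝ, (0 ≤ s ∧ s ≤ 1) ∧ On e s p) ∪
      (isF H).toFinset.image vtxP := by
    intro p hp
    rw [Finset.mem_union, Finset.mem_biUnion, Finset.mem_image]
    rcases cover H (hJ.1 p hp) with ⟨e, he, h⟩ | ⟨v, hv, h⟩
    · left
      exact ⟨e, List.mem_toFinset.2 he, Finset.mem_filter.2 ⟨hp, h⟩⟩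
    · right
      exact ⟨v, List.mem_toFinset.2 hv, h.symm⟩
  refine (Finset.card_le_card h1).trans ((Finset.card_union_le _ _).trans ?_)
  rw [mul_add]
  refine add_le_add ?_ ?_
  · refine (Finset.card_biUnion_le_card_mul _ _ _ fun e he =>
      card_edge H hr hJ ((mem_edF H).1 (List.mem_toFinset.1 he)).2).trans ?_
    rw [mul_comm]
    exact Nat.mul_le_mul_left _ (List.toFinset_card_le _)
  · refine Finset.card_image_le.trans ((List.toFinset_card_le _).trans ?_)
    exact Nat.le_mul_of_pos_left _ (Nat.succ_pos _)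

/-! ### distances -/

omit [DecidableRel H.Adj] in
theorem edist_isolated {v w : Fin n} (hv : ∀ x, ¬ H.Adj v x) (h : v ≠ w) :
    (H.edist v w : ℝ≥0∞) = ⊤ := by
  have h1 : H.edist v w = ⊤ := by
    by_contra hc
    obtain ⟨p⟩ := SimpleGraph.edist_ne_top_iff_reachable.1 hc
    cases p with
    | nil => exact h rfl
    | cons h' _ => exact hv _ h'
  rw [h1]
  rfl

theorem half : ENNReal.ofReal (1 / 2) + ENNReal.ofReal (1 / 2) = 1 := by
  rw [← ENNReal.ofReal_add (by norm_num) (by norm_num)]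
  norm_num

omit [DecidableRel H.Adj] in
theorem dist_mid {e e' : Fin n × Fin n} (h : e.1 < e.2) (h' : e'.1 < e'.2) (hne : e ≠ e') :
    1 ≤ ptDist H (midP e) (midP e') := by
  have hh' : (1 - 1 / 2 : ℝ) = 1 / 2 := by norm_num
  have key : ∀ x : ℝ≥0∞, 1 ≤ ENNReal.ofReal (1 / 2) + x + ENNReal.ofReal (1 / 2) := by
    intro x
    calc (1 : ℝ≥0∞) = ENNReal.ofReal (1 / 2) + ENNReal.ofReal (1 / 2) := half.symm
      _ ≤ _ := add_le_add (le_add_right le_rfl) le_rfl
  apply le_ptDist
  · rintro ⟨h1, h2⟩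
    exact hne (Prod.ext h1 h2)
  · rintro ⟨h1, h2⟩
    simp only [midP] at h1 h2
    rw [h1, h2] at h
    exact lt_asymm h h'
  all_goals
    simp only [midP]
    try rw [hh']
    exact key _

omit [DecidableRel H.Adj] in
theorem top_le_of {a b : ℝ≥0∞} {v w : Fin n} (h : (H.edist v w : ℝ≥0∞) = ⊤) :
    1 ≤ a + (H.edist v w : ℝ≥0∞) + b := by
  rw [h]
  simp

omit [DecidableRel H.Adj] in
theorem dist_mid_vtx {e : Fin n × Fin n} (hadj : H.Adj e.1 e.2) {v : Fin n}
    (hv : ∀ x, ¬ H.Adj v x) :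
    1 ≤ ptDist H (midP e) (vtxP v) ∧ 1 ≤ ptDist H (vtxP v) (midP e) := by
  have h1 : v ≠ e.1 := by
    rintro rfl
    exact hv _ hadj
  have h2 : v ≠ e.2 := by
    rintro rfl
    exact hv _ hadj.symm
  have e1 := edist_isolated H hv h1
  have e2 := edist_isolated H hv h2
  have e1' : (H.edist e.1 v : ℝ≥0∞) = ⊤ := by rw [SimpleGraph.edist_comm]; exact e1
  have e2' : (H.edist e.2 v : ℝ≥0∞) = ⊤ := by rw [SimpleGraph.edist_comm]; exact e2
  constructor
  · apply le_ptDist
    · rintro ⟨h, -⟩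
      exact h1 h.symm
    · rintro ⟨h, -⟩
      exact h1 h.symm
    · exact top_le_of H e1'
    · exact top_le_of H e1'
    · exact top_le_of H e2'
    · exact top_le_of H e2'
  · apply le_ptDist
    · rintro ⟨h, -⟩
      exact h1 h
    · rintro ⟨h, -⟩
      exact h2 h
    · exact top_le_of H e1
    · exact top_le_of H e2
    · exact top_le_of H e1
    · exact top_le_of H e2

omit [DecidableRel H.Adj] in
theorem dist_vtx {v w : Fin n} (hv : ∀ x, ¬ H.Adj v x) (h : v ≠ w) :
    1 ≤ ptDist H (vtxP v) (vtxP w) := by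
  have e1 := edist_isolated H hv h
  apply le_ptDist
  · rintro ⟨h1, -⟩
    exact h h1
  · rintro ⟨h1, -⟩
    exact h h1
  all_goals exact top_le_of H e1

end sem

end E1

open E E1 in
/-- **Module E1** -/
theorem modE1 : ModE1 := by
  classical
  intro r hr0 hr1
  have hr0' : (0 : ℝ) < (r : ℝ) := by exact_mod_cast hr0
  have hr1' : (r : ℝ) ≤ 1 / 2 := by
    have : (r : ℝ) ≤ ((1 / 2 : ℚ) : ℝ) := by exact_mod_cast hr1
    simpa using this
  have h2r : ENNReal.ofReal (2 * (r : ℝ)) ≤ 1 := by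
    rw [← ENNReal.ofReal_one]
    exact ENNReal.ofReal_le_ofReal (by linarith)
  have hK : (0 : ℝ) < ((⌊1 / (2 * (r : ℝ))⌋₊ + 1 : ℕ) : ℝ) := by exact_mod_cast Nat.succ_pos _
  refine ⟨1 / ((⌊1 / (2 * (r : ℝ))⌋₊ + 1 : ℕ) : ℝ), by positivity,
    fun G => E1.out (adjRows G), ?_, ?_⟩
  · have h1 : TM2Lib.Poly adjRows := TM2Lib.Poly.of_enc fun _ => rfl
    exact Comp.to_tm (E1.poly_out.comp h1)
  · rintro ⟨n, H⟩
    have hout : E1.out (adjRows ⟨n, H⟩) =
        ((edF H).map fun p => (io p.1, io p.2)).map midI ++ ((isF H).map io).map vtxI := by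
      unfold E1.out
      rw [eds_eq, iso_eq]
    have hlen : (E1.out (adjRows ⟨n, H⟩)).length = (edF H).length + (isF H).length := by
      rw [hout, List.length_append, List.length_map, List.length_map, List.length_map,
        List.length_map]
    refine ⟨⟨(edF H).map midP ++ (isF H).map vtxP, ?_, ?_, ?_, ?_⟩, ?_⟩
    · simp only
      rw [hout]
      exact List.rel_append (desc_mids _) (desc_vtxs _)
    · rw [List.nodup_append]
      refine ⟨(nodup_edF H).map midP_inj, (nodup_isF H).map vtxP_inj, ?_⟩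
      intro p hp q hq hpq
      obtain ⟨e, he, rfl⟩ := List.mem_map.1 hp
      obtain ⟨v, hv, rfl⟩ := List.mem_map.1 hq
      have h1 := congrArg Pt.t hpq
      simp [midP, vtxP] at h1
    · intro p hp
      rcases List.mem_append.1 hp with hp | hp
      · obtain ⟨e, he, rfl⟩ := List.mem_map.1 hp
        left
        refine ⟨((mem_edF H).1 he).2, ?_, ?_⟩ <;> simp only [midP] <;> norm_num
      · obtain ⟨v, hv, rfl⟩ := List.mem_map.1 hp
        right
        exact ⟨rfl, rfl⟩
    · intro p hp q hq hne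
      refine h2r.trans ?_
      rcases List.mem_append.1 hp with hp | hp
      · obtain ⟨e, he, rfl⟩ := List.mem_map.1 hp
        have he' := (mem_edF H).1 he
        rcases List.mem_append.1 hq with hq | hq
        · obtain ⟨e', he2, rfl⟩ := List.mem_map.1 hq
          exact E1.dist_mid H he'.1 ((mem_edF H).1 he2).1 (fun h => hne (by rw [h]))
        · obtain ⟨v, hv, rfl⟩ := List.mem_map.1 hq
          exact (dist_mid_vtx H he'.2 ((mem_isF H).1 hv)).1
      · obtain ⟨v, hv, rfl⟩ := List.mem_map.1 hp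
        rcases List.mem_append.1 hq with hq | hq
        · obtain ⟨e', he2, rfl⟩ := List.mem_map.1 hq
          exact (dist_mid_vtx H ((mem_edF H).1 he2).2 ((mem_isF H).1 hv)).2
        · obtain ⟨w, hw, rfl⟩ := List.mem_map.1 hq
          exact E1.dist_vtx H ((mem_isF H).1 hv) (fun h => hne (by rw [h]))
    · intro J hJ
      have h1 := E1.card_le H hr0' hJ
      simp only
      rw [hlen]
      have h2 : (J.card : ℝ) ≤ ((⌊1 / (2 * (r : ℝ))⌋₊ + 1 : ℕ) : ℝ) *
          (((edF H).length + (isF H).length : ℕ) : ℝ) := by exact_mod_cast h1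
      rw [one_div, inv_mul_le_iff₀ hK]
      exact h2

end

end Pool.Agent.MP10a207
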