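import Pool.Agent.MP10a207.ModE

/-!
# Module E2: `1/2 < r ≤ 1`, a greedy maximal matching
-/

set_option linter.unusedSectionVars false

namespace Pool.Agent.MP10a207

open Pool.Agent.TM2Lib Finset
open scoped ENNReal

noncomputable section

namespace E2

open E

/-! ### the algorithm -/

/-- the vertex `v` is not covered -/
def fr (M : List (Un × Un)) (v : Un) : Bool :=
  M.all fun e => !(decide (e.1.n = v.n)) && !(decide (e.2.n = v.n))

/-- one step of the greedy algorithm -/
def stp (A : List (List Bool)) (M : List (Un × Un)) (p : Un × Un) : List (Un × Un) :=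
  if Sr.ent A p.1.n p.2.n && (fr M p.1 && fr M p.2) then p :: M else M

/-- a maximal matching -/
def mat (A : List (List Bool)) : List (Un × Un) := (pairsU A.length).foldl (stp A) []

/-- the unmatched vertices -/
def unm (A : List (List Bool)) : List Un := (rangeU A.length).filter (fr (mat A))

/-- the output -/
def out (A : List (List Bool)) : List Item :=
  if decide ((unm A).length ≤ (mat A).length) then (mat A).map midI else (unm A).map vtxI

section poly

variable {α : Type} [Enc α]

theorem poly_fr {M : α → List (Un × Un)} {v : α → Un} (hM : TM2Lib.Poly M)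
    (hv : TM2Lib.Poly v) : TM2Lib.Poly (fun a => fr (M a) (v a)) := by
  refine TM2Lib.Poly.all (h := fun q : α × (Un × Un) =>
    !(decide (q.2.1.n = (v q.1).n)) && !(decide (q.2.2.n = (v q.1).n))) hM ?_
  have h1 : UPoly (fun q : α × (Un × Un) => (v q.1).n) :=
    UPoly.n.comp (hv.comp TM2Lib.Poly.fst)
  exact TM2Lib.Poly.and (UPoly.eq (UPoly.n.comp TM2Lib.Poly.id.snd'.fst') h1).not
    (UPoly.eq (UPoly.n.comp TM2Lib.Poly.id.snd'.snd') h1).not

theorem poly_stp {A : α → List (List Bool)} {M : α → List (Un × Un)} {p : α → Un × Un}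
    (hA : TM2Lib.Poly A) (hM : TM2Lib.Poly M) (hp : TM2Lib.Poly p) :
    TM2Lib.Poly (fun a => stp (A a) (M a) (p a)) :=
  TM2Lib.Poly.ite (TM2Lib.Poly.and (Sr.poly_ent hA (UPoly.n.comp hp.fst')
    (UPoly.n.comp hp.snd')) (TM2Lib.Poly.and (poly_fr hM hp.fst') (poly_fr hM hp.snd')))
    (hp.cons hM) hM

theorem poly_mat : TM2Lib.Poly mat := by
  have hp : TM2Lib.Poly (fun A : List (List Bool) => pairsU A.length) :=
    poly_pairsU (UPoly.length TM2Lib.Poly.id)
  obtain ⟨F, hF⟩ := hp.size
  refine TM2Lib.Poly.foldl_add (α := List (List Bool)) (σ := List (Un × Un))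
    (f := fun A => pairsU A.length) (g := fun _ => [])
    (h := fun q : List (List Bool) × (List (Un × Un) × (Un × Un)) => stp q.1 q.2.1 q.2.2)
    hp (TM2Lib.Poly.const []) (poly_stp TM2Lib.Poly.fst TM2Lib.Poly.id.snd'.fst'
      TM2Lib.Poly.id.snd'.snd') (F + 1) ?_
  intro A M p hpm
  have h1 := TM2Lib.Poly.sz_mem_le hpm
  have h2 := hF A
  simp only [Polynomial.eval_add, Polynomial.eval_one]
  unfold stp
  split_ifs
  · rw [sz_cons]
    omega
  · omega

theorem poly_unm : TM2Lib.Poly unm :=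
  TM2Lib.Poly.filter (h := fun q : List (List Bool) × Un => fr (mat q.1) q.2)
    (TM2Lib.Poly.range (UPoly.length TM2Lib.Poly.id))
    (poly_fr (poly_mat.comp TM2Lib.Poly.fst) TM2Lib.Poly.snd)

theorem poly_out : TM2Lib.Poly out :=
  TM2Lib.Poly.ite (UPoly.le (UPoly.length poly_unm) (UPoly.length poly_mat))
    (TM2Lib.Poly.map (h := fun q : List (List Bool) × (Un × Un) => midI q.2) poly_mat
      (poly_midI.comp TM2Lib.Poly.snd))
    (TM2Lib.Poly.map (h := fun q : List (List Bool) × Un => vtxI q.2) poly_unm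
      (poly_vtxI.comp TM2Lib.Poly.snd))

end poly

/-! ### semantics -/

section sem

variable {n : ℕ} (H : SimpleGraph (Fin n)) [DecidableRel H.Adj]

/-- the vertex `v` is not covered -/
def fre (M : List (Fin n × Fin n)) (v : Fin n) : Prop := ∀ e ∈ M, e.1 ≠ v ∧ e.2 ≠ v

instance (M : List (Fin n × Fin n)) (v : Fin n) : Decidable (fre M v) := by
  unfold fre
  infer_instance

/-- one step of the greedy algorithm -/
def stpF (M : List (Fin n × Fin n)) (p : Fin n × Fin n) : List (Fin n × Fin n) :=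
  if H.Adj p.1 p.2 ∧ fre M p.1 ∧ fre M p.2 then p :: M else M

/-- the matching -/
def matF : List (Fin n × Fin n) := (pairsF n).foldl (stpF H) []

/-- the unmatched vertices -/
def unmF : List (Fin n) := (List.finRange n).filter fun v => decide (fre (matF H) v)

theorem fr_map (M : List (Fin n × Fin n)) (v : Fin n) :
    fr (M.map fun p => (io p.1, io p.2)) (io v) = decide (fre M v) := by
  rw [Bool.eq_iff_iff, decide_eq_true_iff]
  unfold fr fre
  rw [List.all_map, List.all_eq_true]
  refine forall₂_congr fun e _ => ?_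
  simp only [Function.comp, io, Bool.and_eq_true, Bool.not_eq_true', decide_eq_false_iff_not,
    ne_eq, Fin.ext_iff]

theorem stp_map (M : List (Fin n × Fin n)) (p : Fin n × Fin n) :
    stp (adjRows ⟨n, H⟩) (M.map fun p => (io p.1, io p.2)) (io p.1, io p.2) =
      (stpF H M p).map fun p => (io p.1, io p.2) := by
  unfold stp stpF
  simp only
  rw [ent_eq, fr_map, fr_map]
  by_cases h : H.Adj p.1 p.2 ∧ fre M p.1 ∧ fre M p.2
  · rw [if_pos h, if_pos (by simp [h.1, h.2.1, h.2.2])]
    rfl
  · rw [if_neg h, if_neg (by simpa using h)]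

theorem mat_eq : mat (adjRows ⟨n, H⟩) = (matF H).map fun p => (io p.1, io p.2) := by
  unfold mat matF
  rw [Sr.length_adjRows, pairsU_eq, List.foldl_map]
  have key : ∀ (l M : List (Fin n × Fin n)),
      l.foldl (fun M p => stp (adjRows ⟨n, H⟩) M (io p.1, io p.2))
        (M.map fun p => (io p.1, io p.2)) =
        (l.foldl (stpF H) M).map fun p => (io p.1, io p.2) := by
    intro l
    induction l with
    | nil => intro M; rfl
    | cons p l ih =>
      intro M
      rw [List.foldl_cons, List.foldl_cons, stp_map, ih]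
  exact key (pairsF n) []

theorem unm_eq : unm (adjRows ⟨n, H⟩) = (unmF H).map io := by
  unfold unm unmF
  rw [Sr.length_adjRows, rangeU_eq, List.filter_map, mat_eq]
  congr 1
  apply List.filter_congr
  intro v _
  exact fr_map (matF H) v

/-- invariants of the greedy algorithm -/
theorem foldl_inv (l : List (Fin n × Fin n)) : ∀ M : List (Fin n × Fin n),
    (∀ e ∈ M, H.Adj e.1 e.2) →
    (M.Pairwise fun e e' => e.1 ≠ e'.1 ∧ e.1 ≠ e'.2 ∧ e.2 ≠ e'.1 ∧ e.2 ≠ e'.2) →
    (∀ e ∈ l.foldl (stpF H) M, H.Adj e.1 e.2) ∧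
    ((l.foldl (stpF H) M).Pairwise fun e e' => e.1 ≠ e'.1 ∧ e.1 ≠ e'.2 ∧ e.2 ≠ e'.1 ∧ e.2 ≠ e'.2) ∧
    (∀ e ∈ M, e ∈ l.foldl (stpF H) M) ∧
    ∀ p ∈ l, H.Adj p.1 p.2 → ¬ (fre (l.foldl (stpF H) M) p.1 ∧ fre (l.foldl (stpF H) M) p.2) := by
  induction l with
  | nil =>
    intro M h1 h2
    exact ⟨h1, h2, fun e he => he, fun p hp => absurd hp (by simp)⟩
  | cons p l ih =>
    intro M h1 h2
    rw [List.foldl_cons]
    have key : (∀ e ∈ stpF H M p, H.Adj e.1 e.2) ∧
        ((stpF H M p).Pairwise fun e e' => e.1 ≠ e'.1 ∧ e.1 ≠ e'.2 ∧ e.2 ≠ e'.1 ∧ e.2 ≠ e'.2) ∧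
        (∀ e ∈ M, e ∈ stpF H M p) ∧
        (H.Adj p.1 p.2 → ∃ e ∈ stpF H M p, e.1 = p.1 ∨ e.2 = p.1 ∨ e.1 = p.2 ∨ e.2 = p.2) := by
      unfold stpF
      split_ifs with h
      · refine ⟨?_, ?_, ?_, ?_⟩
        · intro e he
          rcases List.mem_cons.1 he with rfl | he
          · exact h.1
          · exact h1 e he
        · rw [List.pairwise_cons]
          refine ⟨fun e he => ?_, h2⟩
          have h3 := h.2.1 e he
          have h4 := h.2.2 e he
          exact ⟨h3.1.symm, h3.2.symm, h4.1.symm, h4.2.symm⟩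
        · intro e he
          exact List.mem_cons_of_mem _ he
        · intro _
          exact ⟨p, List.mem_cons_self, Or.inl rfl⟩
      · refine ⟨h1, h2, fun e he => he, ?_⟩
        intro hadj
        by_contra hc
        apply h
        refine ⟨hadj, ?_, ?_⟩
        · intro e he
          constructor
          · intro h3
            exact hc ⟨e, he, Or.inl h3⟩
          · intro h3
            exact hc ⟨e, he, Or.inr (Or.inl h3)⟩
        · intro e he
          constructor
          · intro h3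
            exact hc ⟨e, he, Or.inr (Or.inr (Or.inl h3))⟩
          · intro h3
            exact hc ⟨e, he, Or.inr (Or.inr (Or.inr h3))⟩
    obtain ⟨k1, k2, k3, k4⟩ := key
    obtain ⟨i1, i2, i3, i4⟩ := ih (stpF H M p) k1 k2
    refine ⟨i1, i2, fun e he => i3 e (k3 e he), ?_⟩
    intro q hq hadj
    rcases List.mem_cons.1 hq with rfl | hq
    · obtain ⟨e, he, h5⟩ := k4 hadj
      rintro ⟨h6, h7⟩
      have h8 := h6 e (i3 e he)
      have h9 := h7 e (i3 e he)
      rcases h5 with h5 | h5 | h5 | h5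
      · exact h8.1 h5
      · exact h8.2 h5
      · exact h9.1 h5
      · exact h9.2 h5
    · exact i4 q hq hadj

theorem matF_spec : (∀ e ∈ matF H, H.Adj e.1 e.2) ∧
    ((matF H).Pairwise fun e e' => e.1 ≠ e'.1 ∧ e.1 ≠ e'.2 ∧ e.2 ≠ e'.1 ∧ e.2 ≠ e'.2) ∧
    ∀ v w : Fin n, H.Adj v w → ¬ (fre (matF H) v ∧ fre (matF H) w) := by
  obtain ⟨h1, h2, -, h4⟩ := foldl_inv H (pairsF n) [] (fun e he => absurd he (by simp))
    List.Pairwise.nil
  exact ⟨h1, h2, fun v w hvw => h4 (v, w) (mem_pairsF _) hvw⟩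

theorem matF_disj {e e' : Fin n × Fin n} (he : e ∈ matF H) (he' : e' ∈ matF H) (hne : e ≠ e') :
    e.1 ≠ e'.1 ∧ e.1 ≠ e'.2 ∧ e.2 ≠ e'.1 ∧ e.2 ≠ e'.2 := by
  have h := (matF_spec H).2.1
  have hs : Std.Symm fun e e' : Fin n × Fin n =>
      e.1 ≠ e'.1 ∧ e.1 ≠ e'.2 ∧ e.2 ≠ e'.1 ∧ e.2 ≠ e'.2 :=
    ⟨fun a b hab => ⟨hab.1.symm, hab.2.2.1.symm, hab.2.1.symm, hab.2.2.2.symm⟩⟩
  exact h.forall he he' hne

theorem matF_nodup : (matF H).Nodup := by
  refine (matF_spec H).2.1.imp ?_
  rintro a b ⟨h, -⟩ rfl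
  exact h rfl

theorem card_le : n ≤ 2 * (matF H).length + (unmF H).length := by
  classical
  have h1 : (univ : Finset (Fin n)) ⊆
      (((matF H).map Prod.fst).toFinset ∪ ((matF H).map Prod.snd).toFinset) ∪
        (unmF H).toFinset := by
    intro v _
    rw [Finset.mem_union, Finset.mem_union, List.mem_toFinset, List.mem_toFinset,
      List.mem_toFinset]
    by_cases hv : fre (matF H) v
    · right
      unfold unmF
      rw [List.mem_filter]
      exact ⟨List.mem_finRange v, by simpa using hv⟩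
    · left
      unfold fre at hv
      push Not at hv
      obtain ⟨e, he, h2⟩ := hv
      by_cases h3 : e.1 = v
      · left
        exact List.mem_map.2 ⟨e, he, h3⟩
      · right
        exact List.mem_map.2 ⟨e, he, h2 h3⟩
  have h2 := Finset.card_le_card h1
  rw [Finset.card_univ, Fintype.card_fin] at h2
  have h3 := Finset.card_union_le (((matF H).map Prod.fst).toFinset ∪
    ((matF H).map Prod.snd).toFinset) (unmF H).toFinset
  have h4 := Finset.card_union_le ((matF H).map Prod.fst).toFinset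
    ((matF H).map Prod.snd).toFinset
  have h5 := List.toFinset_card_le ((matF H).map Prod.fst)
  have h6 := List.toFinset_card_le ((matF H).map Prod.snd)
  have h7 := List.toFinset_card_le (unmF H)
  rw [List.length_map] at h5 h6
  omega

/-! ### distances -/

theorem one_le_edist {v w : Fin n} (h : v ≠ w) : (1 : ℝ≥0∞) ≤ (H.edist v w : ℝ≥0∞) := by
  have h1 : (1 : ℕ∞) ≤ H.edist v w := by
    rw [Order.one_le_iff_ne_zero]
    intro h0
    exact h (SimpleGraph.edist_eq_zero_iff.1 h0)
  exact_mod_cast h1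

theorem two_le_edist {v w : Fin n} (h : v ≠ w) (hadj : ¬ H.Adj v w) :
    (2 : ℝ≥0∞) ≤ (H.edist v w : ℝ≥0∞) := by
  have h1 : (2 : ℕ∞) ≤ H.edist v w := by
    by_contra hc
    push Not at hc
    have h2 : H.edist v w ≠ 0 := fun h0 => h (SimpleGraph.edist_eq_zero_iff.1 h0)
    have h3 : H.edist v w = 1 := by
      have h4 : H.edist v w ≠ ⊤ := ne_top_of_lt hc
      obtain ⟨k, hk⟩ := ENat.ne_top_iff_exists.1 h4
      rw [← hk] at h2 hc ⊢
      have h5 : k < 2 := by exact_mod_cast hc
      have h6 : k ≠ 0 := by exact_mod_cast h2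
      have h7 : k = 1 := by omega
      subst h7
      rfl
    exact hadj (SimpleGraph.edist_eq_one_iff_adj.1 h3)
  exact_mod_cast h1

theorem dist_mid {r : ℝ} (hr : r ≤ 1) {e e' : Fin n × Fin n}
    (h : e.1 ≠ e'.1 ∧ e.1 ≠ e'.2 ∧ e.2 ≠ e'.1 ∧ e.2 ≠ e'.2) :
    ENNReal.ofReal (2 * r) ≤ ptDist H (midP e) (midP e') := by
  have hr2 : ENNReal.ofReal (2 * r) ≤ 2 := by
    rw [show (2 : ℝ≥0∞) = ENNReal.ofReal 2 by norm_num]
    exact ENNReal.ofReal_le_ofReal (by linarith)
  refine hr2.trans ?_
  have hh : ENNReal.ofReal (1 / 2) + 1 + ENNReal.ofReal (1 / 2) = 2 := by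
    have h1 : ENNReal.ofReal (1 / 2) + ENNReal.ofReal (1 / 2) = 1 := by
      rw [← ENNReal.ofReal_add (by norm_num) (by norm_num)]
      norm_num
    calc ENNReal.ofReal (1 / 2) + 1 + ENNReal.ofReal (1 / 2) =
        (ENNReal.ofReal (1 / 2) + ENNReal.ofReal (1 / 2)) + 1 := by ring
      _ = 2 := by rw [h1]; norm_num
  have hh' : (1 - 1 / 2 : ℝ) = 1 / 2 := by norm_num
  apply le_ptDist
  · rintro ⟨h1, -⟩
    exact h.1 h1
  · rintro ⟨h1, -⟩
    exact h.2.1 h1
  all_goals
    rw [← hh]
    simp only [midP]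
    try rw [hh']
    refine add_le_add (add_le_add le_rfl ?_) le_rfl
  · exact one_le_edist H h.1
  · exact one_le_edist H h.2.1
  · exact one_le_edist H h.2.2.1
  · exact one_le_edist H h.2.2.2

theorem dist_vtx {r : ℝ} (hr : r ≤ 1) {v w : Fin n} (h : v ≠ w) (hadj : ¬ H.Adj v w) :
    ENNReal.ofReal (2 * r) ≤ ptDist H (vtxP v) (vtxP w) := by
  have hr2 : ENNReal.ofReal (2 * r) ≤ 2 := by
    rw [show (2 : ℝ≥0∞) = ENNReal.ofReal 2 by norm_num]
    exact ENNReal.ofReal_le_ofReal (by linarith)
  refine hr2.trans ((two_le_edist H h hadj).trans ?_)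
  apply le_ptDist
  · rintro ⟨h1, -⟩
    exact h h1
  · rintro ⟨h1, -⟩
    exact h h1
  all_goals
    simp only [vtxP]
    exact le_add_right (le_add_left le_rfl)

/-- the nearest vertex -/
def near (p : Pt (Fin n)) : Fin n := if p.t ≤ 1 / 2 then p.a else p.b

theorem near_inj {r : ℝ} (hr : 1 / 2 < r) {J : Finset (Pt (Fin n))} (hJ : RIndep H r J) :
    Set.InjOn near (J : Set (Pt (Fin n))) := by
  intro p hp q hq hpq
  by_contra hne
  have h1 := hJ.2 p hp q hq hne
  have hp' := hJ.1 p hp
  have hq' := hJ.1 q hq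
  have h2 : ptDist H p q ≤ 1 := by
    have hone : ENNReal.ofReal (1 / 2) + ENNReal.ofReal (1 / 2) = 1 := by
      rw [← ENNReal.ofReal_add (by norm_num) (by norm_num)]
      norm_num
    have key : ∀ x y : ℝ, x ≤ 1 / 2 → y ≤ 1 / 2 → ∀ v : Fin n,
        ENNReal.ofReal x + (H.edist v v : ℝ≥0∞) + ENNReal.ofReal y ≤ 1 := by
      intro x y hx hy v
      rw [SimpleGraph.edist_self, ← hone]
      rw [ENat.toENNReal_zero, add_zero]
      exact add_le_add (ENNReal.ofReal_le_ofReal hx) (ENNReal.ofReal_le_ofReal hy)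
    unfold near at hpq
    split_ifs at hpq with h3 h4 h4
    · refine ptDist_le1.trans ?_
      rw [hpq]
      exact key _ _ h3 h4 _
    · refine ptDist_le2.trans ?_
      rw [hpq]
      exact key _ _ h3 (by linarith) _
    · refine ptDist_le3.trans ?_
      rw [hpq]
      exact key _ _ (by linarith) h4 _
    · refine ptDist_le4.trans ?_
      rw [hpq]
      exact key _ _ (by linarith) (by linarith) _
  have h3 := h1.trans h2
  rw [show (1 : ℝ≥0∞) = ENNReal.ofReal 1 by simp,
    ENNReal.ofReal_le_ofReal_iff (by norm_num)] at h3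
  linarith

theorem card_le_n {r : ℝ} (hr : 1 / 2 < r) {J : Finset (Pt (Fin n))} (hJ : RIndep H r J) :
    J.card ≤ n := by
  have h := Finset.card_le_card_of_injOn near (s := J) (t := univ)
    (fun _ _ => Finset.mem_coe.2 (Finset.mem_univ _)) (near_inj H hr hJ)
  rwa [Finset.card_univ, Fintype.card_fin] at h

end sem

end E2

open E E2 in
/-- **Module E2** -/
theorem modE2 : ModE2 := by
  classical
  intro r hr1 hr2
  have hr1' : (1 / 2 : ℝ) < (r : ℝ) := by
    have : ((1 / 2 : ℚ) : ℝ) < (r : ℝ) := by exact_mod_cast hr1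
    simpa using this
  have hr2' : (r : ℝ) ≤ 1 := by exact_mod_cast hr2
  refine ⟨fun G => E2.out (adjRows G), ?_, ?_⟩
  · have h1 : TM2Lib.Poly adjRows := TM2Lib.Poly.of_enc fun _ => rfl
    exact Comp.to_tm (E2.poly_out.comp h1)
  · rintro ⟨n, H⟩
    have hcard := card_le H
    obtain ⟨s1, s2, s3⟩ := matF_spec H
    by_cases hle : (unmF H).length ≤ (matF H).length
    · have hout : E2.out (adjRows ⟨n, H⟩) =
          ((matF H).map fun p => (io p.1, io p.2)).map midI := by
        unfold E2.out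
        rw [mat_eq, unm_eq, List.length_map, List.length_map, if_pos (by simpa using hle)]
      refine ⟨⟨(matF H).map midP, ?_, (matF_nodup H).map midP_inj, ?_, ?_⟩, ?_⟩
      · simp only
        rw [hout]
        exact desc_mids _
      · intro p hp
        obtain ⟨e, he, rfl⟩ := List.mem_map.1 hp
        left
        refine ⟨s1 e he, ?_, ?_⟩ <;> simp only [midP] <;> norm_num
      · intro p hp q hq hne
        obtain ⟨e, he, rfl⟩ := List.mem_map.1 hp
        obtain ⟨e', he', rfl⟩ := List.mem_map.1 hq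
        exact dist_mid H hr2' (matF_disj H he he' fun h => hne (by rw [h]))
      · intro J hJ
        have h1 := card_le_n H hr1' hJ
        simp only
        rw [hout, List.length_map, List.length_map]
        have h2 : J.card ≤ 3 * (matF H).length := by
          omega
        have h3 : (J.card : ℝ) ≤ 3 * ((matF H).length : ℝ) := by exact_mod_cast h2
        linarith
    · have hout : E2.out (adjRows ⟨n, H⟩) = ((unmF H).map io).map vtxI := by
        unfold E2.out
        rw [mat_eq, unm_eq, List.length_map, List.length_map, if_neg (by simpa using hle)]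
      have hfree : ∀ v ∈ unmF H, fre (matF H) v := by
        intro v hv
        unfold unmF at hv
        simpa using (List.mem_filter.1 hv).2
      refine ⟨⟨(unmF H).map vtxP, ?_,
        (List.Nodup.filter _ (List.nodup_finRange n)).map vtxP_inj, ?_, ?_⟩, ?_⟩
      · simp only
        rw [hout]
        exact desc_vtxs _
      · intro p hp
        obtain ⟨v, hv, rfl⟩ := List.mem_map.1 hp
        right
        exact ⟨rfl, rfl⟩
      · intro p hp q hq hne
        obtain ⟨v, hv, rfl⟩ := List.mem_map.1 hp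
        obtain ⟨w, hw, rfl⟩ := List.mem_map.1 hq
        exact dist_vtx H hr2' (fun h => hne (by rw [h]))
          (fun hadj => s3 v w hadj ⟨hfree v hv, hfree w hw⟩)
      · intro J hJ
        have h1 := card_le_n H hr1' hJ
        simp only
        rw [hout, List.length_map, List.length_map]
        have h2 : J.card ≤ 3 * (unmF H).length := by
          omega
        have h3 : (J.card : ℝ) ≤ 3 * ((unmF H).length : ℝ) := by exact_mod_cast h2
        linarith

end

end Pool.Agent.MP10a207
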