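import Pool.Agent.MP10a207.Geometry

/-!
# Rounding an `r`-independent set to positions in `ℤ/(2q)`, where `r = p/q`
-/

namespace Pool.Agent.MP10a207

open scoped ENNReal

/-- twice the rounding of `x` to a half-integer: integers are kept, other numbers are moved to the
middle between their neighbouring integers -/
noncomputable def rho (x : ℝ) : ℤ := ⌊x⌋ + ⌈x⌉

theorem rho_mono {x y : ℝ} (h : x ≤ y) : rho x ≤ rho y :=
  add_le_add (Int.floor_mono h) (Int.ceil_mono h)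

theorem rho_neg (x : ℝ) : rho (-x) = - rho x := by
  unfold rho
  rw [Int.floor_neg, Int.ceil_neg]
  ring

theorem rho_add_int (x : ℝ) (n : ℤ) : rho (x + n) = rho x + 2 * n := by
  unfold rho
  rw [Int.floor_add_intCast, Int.ceil_add_intCast]
  ring

theorem rho_int (n : ℤ) : rho (n : ℝ) = 2 * n := by
  unfold rho
  rw [Int.floor_intCast, Int.ceil_intCast]
  ring

/-- sums -/
theorem rho_add_ge {x y : ℝ} {c : ℤ} (h : (c : ℝ) ≤ x + y) : 2 * c ≤ rho x + rho y := by
  have h1 : -x + c ≤ y := by linarith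
  have h2 := rho_mono h1
  rw [rho_add_int, rho_neg] at h2
  linarith

/-- differences -/
theorem rho_sub_ge {x y : ℝ} {c : ℤ} (h : (c : ℝ) ≤ x - y) : 2 * c ≤ rho x - rho y := by
  have h1 : (c : ℝ) ≤ x + (-y) := by linarith
  have h2 := rho_add_ge h1
  rw [rho_neg] at h2
  linarith

/-- the rounded position -/
noncomputable def rd (q : ℕ) (t : ℝ) : ℝ := (rho (q * t) : ℝ) / (2 * q)

section
variable {q : ℕ} (hq : 0 < q)

include hq

theorem rd_one_sub (t : ℝ) : rd q (1 - t) = 1 - rd q t := by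
  have hq' : (q : ℝ) ≠ 0 := by positivity
  unfold rd
  have h1 : (q : ℝ) * (1 - t) = -(q * t) + ((q : ℤ) : ℝ) := by push_cast; ring
  rw [h1, rho_add_int, rho_neg]
  push_cast
  field_simp
  ring

theorem rd_zero : rd q 0 = 0 := by
  unfold rd
  have h1 : (q : ℝ) * 0 = ((0 : ℤ) : ℝ) := by simp
  rw [h1, rho_int]
  simp

theorem rd_nonneg {t : ℝ} (h : 0 ≤ t) : 0 ≤ rd q t := by
  unfold rd
  have h1 : rho 0 ≤ rho (q * t) := rho_mono (by positivity)
  have h2 : rho 0 = 0 := by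
    have := rho_int 0
    simpa using this
  rw [h2] at h1
  have : (0 : ℝ) ≤ (rho (q * t) : ℝ) := by exact_mod_cast h1
  positivity

theorem rd_le_one {t : ℝ} (h : t ≤ 1) : rd q t ≤ 1 := by
  have := rd_nonneg hq (t := 1 - t) (by linarith)
  rw [rd_one_sub hq] at this
  linarith

theorem rd_sum {s t : ℝ} {c : ℤ} (h : (c : ℝ) ≤ q * (s + t)) : (c : ℝ) ≤ q * (rd q s + rd q t) := by
  have hq' : (q : ℝ) ≠ 0 := by positivity
  have h1 : (c : ℝ) ≤ q * s + q * t := by linarith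
  have h2 := rho_add_ge h1
  have h3 : (2 * c : ℝ) ≤ (rho (q * s) : ℝ) + (rho (q * t) : ℝ) := by exact_mod_cast h2
  have h4 : (q : ℝ) * (rd q s + rd q t) = ((rho (q * s) : ℝ) + (rho (q * t) : ℝ)) / 2 := by
    unfold rd
    field_simp
  rw [h4]
  linarith

theorem rd_sub {s t : ℝ} {c : ℤ} (h : (c : ℝ) ≤ q * (s - t)) : (c : ℝ) ≤ q * (rd q s - rd q t) := by
  have hq' : (q : ℝ) ≠ 0 := by positivity
  have h1 : (c : ℝ) ≤ q * s - q * t := by linarith
  have h2 := rho_sub_ge h1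
  have h3 : (2 * c : ℝ) ≤ (rho (q * s) : ℝ) - (rho (q * t) : ℝ) := by exact_mod_cast h2
  have h4 : (q : ℝ) * (rd q s - rd q t) = ((rho (q * s) : ℝ) - (rho (q * t) : ℝ)) / 2 := by
    unfold rd
    field_simp
  rw [h4]
  linarith

variable {p : ℕ}

/-- differences in absolute value -/
theorem rd_abs {s t : ℝ} (h : (2 * p : ℝ) / q ≤ |s - t|) : (2 * p : ℝ) / q ≤ |rd q s - rd q t| := by
  have hq' : (0 : ℝ) < (q : ℝ) := by exact_mod_cast hq
  rw [div_le_iff₀ hq'] at h ⊢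
  rcases le_abs'.1 (le_refl |s - t|) with h1 | h1
  · have h2 : (((2 * p : ℕ) : ℤ) : ℝ) ≤ q * (t - s) := by
      push_cast
      have : |s - t| = t - s := by
        have := neg_abs_le (s - t)
        linarith
      rw [this] at h
      linarith
    have h3 := rd_sub hq h2
    push_cast at h3
    have h4 : rd q t - rd q s ≤ |rd q s - rd q t| := by
      rw [abs_sub_comm]
      exact le_abs_self _
    nlinarith
  · have h2 : (((2 * p : ℕ) : ℤ) : ℝ) ≤ q * (s - t) := by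
      push_cast
      have : |s - t| = s - t := le_antisymm h1 (le_abs_self _)
      rw [this] at h
      linarith
    have h3 := rd_sub hq h2
    push_cast at h3
    have h4 : rd q s - rd q t ≤ |rd q s - rd q t| := le_abs_self _
    nlinarith

/-- routes through the ends -/
theorem rd_route {s t : ℝ} (hs : 0 ≤ s) (ht : 0 ≤ t) (e : ℕ∞)
    (h : ENNReal.ofReal ((2 * p : ℝ) / q) ≤ ENNReal.ofReal s + (e : ℝ≥0∞) + ENNReal.ofReal t) :
    ENNReal.ofReal ((2 * p : ℝ) / q) ≤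
      ENNReal.ofReal (rd q s) + (e : ℝ≥0∞) + ENNReal.ofReal (rd q t) := by
  have hq' : (0 : ℝ) < (q : ℝ) := by exact_mod_cast hq
  rcases eq_or_ne e ⊤ with he | he
  · rw [he]
    simp
  · lift e to ℕ using he
    have hs' := rd_nonneg hq hs
    have ht' := rd_nonneg hq ht
    have key : ∀ x y : ℝ, 0 ≤ x → 0 ≤ y → ENNReal.ofReal x + (((e : ℕ∞)) : ℝ≥0∞) +
        ENNReal.ofReal y = ENNReal.ofReal (x + e + y) := by
      intro x y hx hy
      rw [ENNReal.ofReal_add (by positivity) hy, ENNReal.ofReal_add hx (by positivity),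
        ENNReal.ofReal_natCast]
      simp
    rw [key _ _ hs ht] at h
    rw [key _ _ hs' ht']
    rw [ENNReal.ofReal_le_ofReal_iff (by positivity)] at h ⊢
    rw [div_le_iff₀ hq'] at h ⊢
    have h2 : (((2 * p - q * e : ℤ)) : ℝ) ≤ q * (s + t) := by
      push_cast
      linarith
    have h3 := rd_sum hq h2
    push_cast at h3
    linarith

end

/-- the rounded point -/
noncomputable def rdPt {V : Type*} (q : ℕ) (x : Pt V) : Pt V := ⟨x.a, x.b, rd q x.t⟩

section
variable {V : Type*} [DecidableEq V] {G : SimpleGraph V} {p q : ℕ} (hq : 0 < q)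

include hq

theorem isPt_rdPt {x : Pt V} (h : IsPt G x) : IsPt G (rdPt q x) := by
  rcases h with ⟨h1, h2, h3⟩ | ⟨h1, h2⟩
  · exact Or.inl ⟨h1, rd_nonneg hq h2, rd_le_one hq h3⟩
  · refine Or.inr ⟨h1, ?_⟩
    show rd q x.t = 0
    rw [h2, rd_zero hq]

theorem isPt_range {x : Pt V} (h : IsPt G x) : 0 ≤ x.t ∧ x.t ≤ 1 := by
  rcases h with ⟨_, h2, h3⟩ | ⟨_, h2⟩
  · exact ⟨h2, h3⟩
  · rw [h2]
    norm_num

theorem ptDist_rdPt {x y : Pt V} (hx : IsPt G x) (hy : IsPt G y)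
    (h : ENNReal.ofReal ((2 * p : ℝ) / q) ≤ ptDist G x y) :
    ENNReal.ofReal ((2 * p : ℝ) / q) ≤ ptDist G (rdPt q x) (rdPt q y) := by
  obtain ⟨hx0, hx1⟩ := isPt_range hq hx
  obtain ⟨hy0, hy1⟩ := isPt_range hq hy
  unfold ptDist at h ⊢
  rw [le_min_iff] at h ⊢
  obtain ⟨h1, h2⟩ := h
  constructor
  · unfold inner at h1 ⊢
    show ENNReal.ofReal ((2 * p : ℝ) / q) ≤
      if x.a = y.a ∧ x.b = y.b then ENNReal.ofReal |rd q x.t - rd q y.t|
      else if x.a = y.b ∧ x.b = y.a then ENNReal.ofReal |rd q x.t - (1 - rd q y.t)| else ⊤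
    split_ifs at h1 ⊢ with c1 c2
    · rw [ENNReal.ofReal_le_ofReal_iff (abs_nonneg _)] at h1 ⊢
      exact rd_abs hq h1
    · rw [ENNReal.ofReal_le_ofReal_iff (abs_nonneg _)] at h1 ⊢
      rw [← rd_one_sub hq]
      exact rd_abs hq h1
    · exact le_top
  · unfold outer at h2 ⊢
    rw [le_min_iff, le_min_iff, le_min_iff] at h2 ⊢
    obtain ⟨⟨a1, a2⟩, a3, a4⟩ := h2
    refine ⟨⟨rd_route hq hx0 hy0 _ a1, ?_⟩, ?_, ?_⟩
    · have := rd_route hq hx0 (by linarith : (0 : ℝ) ≤ 1 - y.t) _ a2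
      rwa [rd_one_sub hq] at this
    · have := rd_route hq (by linarith : (0 : ℝ) ≤ 1 - x.t) hy0 _ a3
      rwa [rd_one_sub hq] at this
    · have := rd_route hq (by linarith : (0 : ℝ) ≤ 1 - x.t) (by linarith : (0 : ℝ) ≤ 1 - y.t) _ a4
      rwa [rd_one_sub hq, rd_one_sub hq] at this

end

end Pool.Agent.MP10a207
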